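import Pool.Agent.Helper29.Dir.Sob

/-!
# Change of the period and shift of the time
-/

set_option autoImplicit false

open MeasureTheory Set Filter Topology
open scoped ContDiff

namespace Pool.Agent.Helper29.Dir

open Pool.Agent.H708R2.EulerSign Pool.Agent.H708R2.EulerTypeI
open H459R3.NS (pd IsSol Per)

variable {T : ℝ} {u : ℝ → V → V} {p : ℝ → V → ℝ}

/-- `2π`. -/
noncomputable def tp : ℝ := 2 * Real.pi

lemma tp_pos : 0 < tp := by unfold tp; positivity

lemma tp_ge : 1 ≤ tp := by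
  unfold tp
  have := Real.pi_gt_three
  linarith

/-- The solution with period `2π`. -/
noncomputable def Us (s₁ : ℝ) (u : ℝ → V → V) (t : ℝ) (x : V) : V := tp • u (t + s₁) (tp⁻¹ • x)

/-- The pressure with period `2π`. -/
noncomputable def Ps (s₁ : ℝ) (p : ℝ → V → ℝ) (t : ℝ) (x : V) : ℝ :=
  tp ^ 2 * p (t + s₁) (tp⁻¹ • x)

/-- The change of variables. -/
noncomputable def cvs (s₁ : ℝ) (z : ℝ × V) : ℝ × V := (z.1 + s₁, tp⁻¹ • z.2)

lemma cvs_contDiff (s₁ : ℝ) : ContDiff ℝ ∞ (cvs s₁) := by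
  unfold cvs
  exact (contDiff_fst.add contDiff_const).prodMk (contDiff_snd.const_smul tp⁻¹)

section

variable {s₁ : ℝ}

lemma smooth_slice (h : IsSol 0 T u p) {t : ℝ} (ht : t ∈ Ico 0 T) : ContDiff ℝ ∞ (u t) := by
  rw [contDiff_pi]
  exact fun i => (h.sp ht i).smooth

lemma comp_fderiv {v : V → V} {x : V} (hd : DifferentiableAt ℝ v x) (i : Fin 3) (w : V) :
    fderiv ℝ (fun y => v y i) x w = fderiv ℝ v x w i := by
  rw [fderiv_apply hd i]
  rfl

lemma pd_eq (h : IsSol 0 T u p) {t : ℝ} (ht : t ∈ Ico 0 T) (i j : Fin 3) (x : V) :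
    pd j (fun y => u t y i) x = fderiv ℝ (u t) x (Pi.single j 1) i :=
  comp_fderiv (((smooth_slice h ht).differentiable (by simp)) x) i _

lemma resc_hasFDerivAt {F : Type*} [NormedAddCommGroup F] [NormedSpace ℝ F] {f : V → F} {x : V}
    (hd : DifferentiableAt ℝ f (tp⁻¹ • x)) (c : ℝ) :
    HasFDerivAt (fun y => c • f (tp⁻¹ • y)) ((c * tp⁻¹) • fderiv ℝ f (tp⁻¹ • x)) x := by
  have h1 : HasFDerivAt (fun y : V => tp⁻¹ • y) (tp⁻¹ • ContinuousLinearMap.id ℝ V) x :=
    (ContinuousLinearMap.id ℝ V).hasFDerivAt.const_smul tp⁻¹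
  have h2 := (hd.hasFDerivAt.comp x h1).const_smul c
  refine h2.congr_fderiv ?_
  ext y
  simp [mul_smul]

lemma Us_fderiv (h : IsSol 0 T u p) {t : ℝ} (ht : t + s₁ ∈ Ico 0 T) :
    fderiv ℝ (Us s₁ u t) = fun x => fderiv ℝ (u (t + s₁)) (tp⁻¹ • x) := by
  funext x
  have hd : DifferentiableAt ℝ (u (t + s₁)) (tp⁻¹ • x) :=
    ((smooth_slice h ht).differentiable (by simp)) _
  have h3 := (resc_hasFDerivAt hd tp).fderiv
  rw [mul_inv_cancel₀ tp_pos.ne', one_smul] at h3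
  exact h3

lemma Us_grad (h : IsSol 0 T u p) {t : ℝ} (ht : t + s₁ ∈ Ico 0 T) (x : V) (i j : Fin 3) :
    grad (Us s₁ u t) x i j = pd j (fun y => u (t + s₁) y i) (tp⁻¹ • x) := by
  rw [pd_eq h ht]
  simp only [grad, Matrix.of_apply]
  rw [Us_fderiv h ht]

/-- Shift and change of the period. -/
lemma Us_sol (h : IsSol 0 T u p) (hs : s₁ ∈ Ioo 0 T) :
    IsC2Solution (T - s₁) (Us s₁ u) (Ps s₁ p) := by
  have hmem : ∀ t ∈ Ico 0 (T - s₁), t + s₁ ∈ Ioo 0 T := fun t ht =>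
    ⟨by linarith [ht.1, hs.1], by linarith [ht.2]⟩
  have hmaps : MapsTo (cvs s₁) (Ico 0 (T - s₁) ×ˢ univ) (Ico 0 T ×ˢ univ) := fun z hz =>
    ⟨Ioo_subset_Ico_self (hmem z.1 hz.1), mem_univ _⟩
  have cu : ContDiffOn ℝ ∞ (fun z : ℝ × V => Us s₁ u z.1 z.2) (Ico 0 (T - s₁) ×ˢ univ) :=
    (h.smooth_u.comp (cvs_contDiff s₁).contDiffOn hmaps).const_smul tp
  have cp : ContDiffOn ℝ ∞ (fun z : ℝ × V => Ps s₁ p z.1 z.2) (Ico 0 (T - s₁) ×ˢ univ) :=
    (h.smooth_p.comp (cvs_contDiff s₁).contDiffOn hmaps).const_smul (tp ^ 2)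
  have hsub : Ioo 0 (T - s₁) ×ˢ (univ : Set V) ⊆ Ico 0 (T - s₁) ×ˢ univ :=
    prod_mono Ioo_subset_Ico_self subset_rfl
  have hper : ∀ (i : Fin 3) (x : V), tp⁻¹ • (x + Pi.single i (2 * Real.pi))
      = tp⁻¹ • x + Pi.single i 1 := by
    intro i x
    rw [smul_add]
    congr 1
    funext j
    simp only [Pi.smul_apply, Pi.single_apply, smul_eq_mul]
    split_ifs
    · exact inv_mul_cancel₀ tp_pos.ne'
    · simp
  refine ⟨⟨cu.of_le (by norm_cast), cp.of_le (by norm_cast), ?_, ?_, ?_, ?_⟩,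
    (cu.mono hsub).of_le (by norm_cast), (cp.mono hsub).of_le (by norm_cast)⟩
  · intro t ht i x
    unfold Us
    rw [hper, h.per_u _ (Ioo_subset_Ico_self (hmem t ht))]
  · intro t ht i x
    unfold Ps
    rw [hper, h.per_p _ (Ioo_subset_Ico_self (hmem t ht))]
  · intro t ht x
    have h1 := h.divfree _ (Ioo_subset_Ico_self (hmem t ht)) (tp⁻¹ • x)
    unfold divergence Matrix.trace
    simp only [Matrix.diag]
    rw [← h1]
    exact Finset.sum_congr rfl fun i _ => Us_grad h (Ioo_subset_Ico_self (hmem t ht)) x i i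
  · intro t ht x i
    have hm := hmem t ht
    have hI := Ioo_subset_Ico_self hm
    set y : V := tp⁻¹ • x with hy
    have mom := h.momentum _ hm y i
    -- the time derivative
    have hd : DifferentiableAt ℝ (fun s => u s y i) (t + s₁) := by
      have h1 : ContDiffAt ℝ ∞ (fun z : ℝ × V => u z.1 z.2) (t + s₁, y) :=
        h.smooth_u.contDiffAt (prod_mem_nhds (Ico_mem_nhds hm.1 hm.2) univ_mem)
      have h2 : DifferentiableAt ℝ (fun z : ℝ × V => u z.1 z.2) (t + s₁, y) :=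
        h1.differentiableAt (by simp)
      have h3 : DifferentiableAt ℝ (fun s => u s y) (t + s₁) :=
        h2.comp (f := fun s : ℝ => ((s, y) : ℝ × V)) (t + s₁)
          (differentiableAt_id.prodMk (differentiableAt_const _))
      exact (differentiableAt_pi.1 h3) i
    have h4 : HasDerivAt (fun s => Us s₁ u s x i) (tp * deriv (fun s => u s y i) (t + s₁)) t := by
      have h5 : HasDerivAt (fun s : ℝ => s + s₁) 1 t := (hasDerivAt_id t).add_const s₁
      have h6 : HasDerivAt (fun s => u (s + s₁) y i)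
          ((1 : ℝ) • deriv (fun s => u s y i) (t + s₁)) t :=
        HasDerivAt.scomp (g₁ := fun s => u s y i) t hd.hasDerivAt h5
      rw [one_smul] at h6
      exact h6.const_mul tp
    have hu : UniqueDiffWithinAt ℝ (Ico 0 (T - s₁)) t :=
      uniqueDiffOn_Ico 0 (T - s₁) t ht
    rw [h4.hasDerivWithinAt.derivWithin hu]
    have hp : fderiv ℝ (Ps s₁ p t) x (Pi.single i 1) = tp * pd i (p (t + s₁)) y := by
      have hdp : DifferentiableAt ℝ (p (t + s₁)) (tp⁻¹ • x) :=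
        ((h.sp_p hI).smooth.differentiable (by simp)) _
      have h7 := (resc_hasFDerivAt hdp (tp ^ 2)).fderiv
      have h8 : fderiv ℝ (Ps s₁ p t) x = (tp ^ 2 * tp⁻¹) • fderiv ℝ (p (t + s₁)) (tp⁻¹ • x) := h7
      rw [h8]
      have h9 : tp ^ 2 * tp⁻¹ = tp := by
        have := tp_pos.ne'
        field_simp
      rw [h9]
      rfl
    rw [hp]
    have hsum : ∑ j, Us s₁ u t x j * fderiv ℝ (Us s₁ u t) x (Pi.single j 1) i
        = tp * ∑ j, u (t + s₁) y j * pd j (fun z => u (t + s₁) z i) y := by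
      rw [Finset.mul_sum]
      refine Finset.sum_congr rfl fun j _ => ?_
      rw [pd_eq h hI, Us_fderiv h hI]
      unfold Us
      simp only [Pi.smul_apply, smul_eq_mul]
      ring
    rw [hsum]
    have mom' : deriv (fun s => u s y i) (t + s₁)
        + ∑ j, u (t + s₁) y j * pd j (fun z => u (t + s₁) z i) y = -pd i (p (t + s₁)) y := by
      rw [mom]
      ring
    linear_combination tp * mom'

/-- The maximum of the rescaled velocity. -/
lemma Us_norm {t : ℝ} {M : ℝ} (hM : ∀ x i, |u (t + s₁) x i| ≤ M) (x : V) :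
    ‖Us s₁ u t x‖ ≤ tp * M := by
  have hM0 : 0 ≤ M := (abs_nonneg _).trans (hM 0 0)
  unfold Us
  rw [norm_smul, Real.norm_of_nonneg tp_pos.le]
  refine mul_le_mul_of_nonneg_left ?_ tp_pos.le
  exact (pi_norm_le_iff_of_nonneg hM0).2 fun i => hM _ i

lemma sum_single (w : V) : w = ∑ j, w j • (Pi.single j 1 : V) := by
  funext k
  simp [Finset.sum_apply, Pi.single_apply]

/-- The second derivative from its entries. -/
lemma norm_fderiv2_le {v : V → V} (hv : ContDiff ℝ ∞ v) {x : V} {B : ℝ}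
    (hB : ∀ i j m, |pd j (pd m fun y => v y i) x| ≤ B) :
    ‖fderiv ℝ (fderiv ℝ v) x‖ ≤ 9 * B := by
  have hB0 : 0 ≤ B := (abs_nonneg _).trans (hB 0 0 0)
  have hdv : Differentiable ℝ v := hv.differentiable (by simp)
  have hdd : DifferentiableAt ℝ (fderiv ℝ v) x :=
    ((hv.fderiv_right (m := 1) (by norm_cast)).differentiable one_ne_zero) x
  have key : ∀ i j m, fderiv ℝ (fderiv ℝ v) x (Pi.single j 1) (Pi.single m 1) i
      = pd j (pd m fun y => v y i) x := by
    intro i j m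
    have e1 : (pd m fun y => v y i)
        = fun y => (ContinuousLinearMap.proj (R := ℝ) i).comp
            (ContinuousLinearMap.apply ℝ V (Pi.single m 1 : V)) (fderiv ℝ v y) := by
      funext y
      show fderiv ℝ (fun y => v y i) y (Pi.single m 1) = _
      rw [comp_fderiv (hdv y)]
      rfl
    rw [e1]
    have h1 := (((ContinuousLinearMap.proj (R := ℝ) (φ := fun _ : Fin 3 => ℝ) i).comp
      (ContinuousLinearMap.apply ℝ V (Pi.single m 1 : V))).hasFDerivAt.comp x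
        hdd.hasFDerivAt).fderiv
    have h2 : fderiv ℝ (fun y => ((ContinuousLinearMap.proj (R := ℝ) (φ := fun _ : Fin 3 => ℝ) i).comp
      (ContinuousLinearMap.apply ℝ V (Pi.single m 1 : V))) (fderiv ℝ v y)) x
      = ((ContinuousLinearMap.proj (R := ℝ) (φ := fun _ : Fin 3 => ℝ) i).comp
      (ContinuousLinearMap.apply ℝ V (Pi.single m 1 : V))).comp (fderiv ℝ (fderiv ℝ v) x) := h1
    show _ = fderiv ℝ _ x (Pi.single j 1)
    rw [h2]
    rfl
  refine ContinuousLinearMap.opNorm_le_bound _ (by positivity) fun w => ?_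
  refine ContinuousLinearMap.opNorm_le_bound _ (by positivity) fun z => ?_
  rw [pi_norm_le_iff_of_nonneg (by positivity)]
  intro i
  have e : fderiv ℝ (fderiv ℝ v) x w z i
      = ∑ j, ∑ m, w j * z m * pd j (pd m fun y => v y i) x := by
    set D := fderiv ℝ (fderiv ℝ v) x with hD
    have f1 : D w = ∑ j, w j • D (Pi.single j 1) := by
      conv_lhs => rw [sum_single w]
      rw [map_sum]
      exact Finset.sum_congr rfl fun j _ => map_smul _ _ _
    have f2 : ∀ j, D (Pi.single j 1) z = ∑ m, z m • D (Pi.single j 1) (Pi.single m 1) := by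
      intro j
      conv_lhs => rw [sum_single z]
      rw [map_sum]
      exact Finset.sum_congr rfl fun m _ => map_smul _ _ _
    have f3 : D w z = ∑ j, w j • D (Pi.single j 1) z := by
      rw [f1]
      simp only [Fin.sum_univ_three]
      rfl
    rw [f3, Finset.sum_apply]
    refine Finset.sum_congr rfl fun j _ => ?_
    rw [f2 j, Pi.smul_apply, Finset.sum_apply, smul_eq_mul, Finset.mul_sum]
    refine Finset.sum_congr rfl fun m _ => ?_
    rw [Pi.smul_apply, smul_eq_mul, key]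
    ring
  rw [Real.norm_eq_abs, e]
  refine (Finset.abs_sum_le_sum_abs _ _).trans ?_
  have h3 : ∀ j, |∑ m, w j * z m * pd j (pd m fun y => v y i) x| ≤ 3 * (‖w‖ * ‖z‖ * B) := by
    intro j
    refine (Finset.abs_sum_le_sum_abs _ _).trans ?_
    refine (Finset.sum_le_card_nsmul _ _ (‖w‖ * ‖z‖ * B) fun m _ => ?_).trans (le_of_eq (by simp))
    rw [abs_mul, abs_mul]
    have h4 : |w j| ≤ ‖w‖ := norm_le_pi_norm w j
    have h5 : |z m| ≤ ‖z‖ := norm_le_pi_norm z m
    exact mul_le_mul (mul_le_mul h4 h5 (abs_nonneg _) (norm_nonneg _)) (hB i j m) (abs_nonneg _)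
      (by positivity)
  refine (Finset.sum_le_card_nsmul _ _ _ fun j _ => h3 j).trans (le_of_eq ?_)
  simp
  ring

lemma Us_norm2 (h : IsSol 0 T u p) {t : ℝ} (ht : t + s₁ ∈ Ico 0 T) {B : ℝ}
    (hB : ∀ x i j m, |pd j (pd m fun y => u (t + s₁) y i) x| ≤ B) (x : V) :
    ‖fderiv ℝ (fderiv ℝ (Us s₁ u t)) x‖ ≤ 9 * B := by
  have hv := smooth_slice h ht
  have hB0 : 0 ≤ B := (abs_nonneg _).trans (hB 0 0 0 0)
  rw [Us_fderiv h ht]
  have hd : DifferentiableAt ℝ (fderiv ℝ (u (t + s₁))) (tp⁻¹ • x) :=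
    ((hv.fderiv_right (m := 1) (by norm_cast)).differentiable one_ne_zero) _
  have h1 := (resc_hasFDerivAt hd 1).fderiv
  simp only [one_smul, one_mul] at h1
  rw [h1]
  have h2 := norm_fderiv2_le hv (x := tp⁻¹ • x) (fun i j m => hB _ i j m)
  have h3 : ‖tp⁻¹‖ ≤ 1 := by
    rw [Real.norm_of_nonneg (inv_nonneg.2 tp_pos.le)]
    exact inv_le_one_of_one_le₀ tp_ge
  refine ContinuousLinearMap.opNorm_le_bound _ (by positivity) fun w => ?_
  have h4 : (tp⁻¹ • fderiv ℝ (fderiv ℝ (u (t + s₁))) (tp⁻¹ • x)) w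
      = tp⁻¹ • (fderiv ℝ (fderiv ℝ (u (t + s₁))) (tp⁻¹ • x) w) := rfl
  rw [h4]
  refine ContinuousLinearMap.opNorm_le_bound _ (by positivity) fun z => ?_
  have h5 : (tp⁻¹ • (fderiv ℝ (fderiv ℝ (u (t + s₁))) (tp⁻¹ • x) w)) z
      = tp⁻¹ • (fderiv ℝ (fderiv ℝ (u (t + s₁))) (tp⁻¹ • x) w z) := rfl
  rw [h5, norm_smul]
  have h6 : ‖fderiv ℝ (fderiv ℝ (u (t + s₁))) (tp⁻¹ • x) w z‖ ≤ 9 * B * ‖w‖ * ‖z‖ :=
    (ContinuousLinearMap.le_opNorm _ _).trans (mul_le_mul_of_nonneg_right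
      ((ContinuousLinearMap.le_opNorm _ _).trans (mul_le_mul_of_nonneg_right h2 (norm_nonneg _)))
      (norm_nonneg _))
  calc ‖tp⁻¹‖ * ‖fderiv ℝ (fderiv ℝ (u (t + s₁))) (tp⁻¹ • x) w z‖ ≤ 1 * (9 * B * ‖w‖ * ‖z‖) :=
        mul_le_mul h3 h6 (norm_nonneg _) zero_le_one
    _ = 9 * B * ‖w‖ * ‖z‖ := one_mul _

end

end Pool.Agent.Helper29.Dir
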