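import Pool.Agent.Helper29.Dir.Plane2
import Pool.Graph.R_seed8.H708R2.EulerTypeI.Exist

/-!
# Orthonormal frames of `ℝ³`
-/

set_option autoImplicit false

open MeasureTheory Set Filter Topology

namespace Pool.Agent.Helper29.Dir

open Pool.Agent.H708R2.EulerSign Pool.Agent.H708R2.EulerTypeI

/-- `(a, b, c)` is a positively oriented orthonormal basis of `ℝ³`. -/
structure Frame (a b c : V) : Prop where
  ab : c = crossProduct a b
  bc : a = crossProduct b c
  ca : b = crossProduct c a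
  one : ∀ i j, a i * a j + b i * b j + c i * c j = if i = j then 1 else 0

/-- `p · A q`. -/
def bil (A : Matrix (Fin 3) (Fin 3) ℝ) (p q : V) : ℝ := p ⬝ᵥ A.mulVec q

lemma cv_cross (A : Matrix (Fin 3) (Fin 3) ℝ) (p q : V) :
    cv A ⬝ᵥ crossProduct p q = bil A q p - bil A p q := by
  simp only [cv, bil, cross_apply, dotProduct, Matrix.mulVec, Fin.sum_univ_three, Matrix.cons_val_zero,
    Matrix.cons_val_one, Matrix.cons_val]
  ring

variable {a b c : V}

lemma Frame.rot (h : Frame a b c) : Frame b c a :=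
  ⟨h.bc, h.ca, h.ab, fun i j => by rw [← h.one i j]; ring⟩

lemma Frame.le_one (h : Frame a b c) (i : Fin 3) : |a i| ≤ 1 := by
  have h1 := h.one i i
  rw [if_pos rfl] at h1
  rw [abs_le]
  constructor <;> nlinarith [sq_nonneg (b i), sq_nonneg (c i), sq_nonneg (a i)]

lemma Frame.expand (h : Frame a b c) (y : V) :
    y = fun i => (y ⬝ᵥ a) * a i + (y ⬝ᵥ b) * b i + (y ⬝ᵥ c) * c i := by
  funext i
  have h0 := h.one i 0
  have h1 := h.one i 1
  have h2 := h.one i 2
  simp only [dotProduct, Fin.sum_univ_three]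
  fin_cases i <;> simp at h0 h1 h2 ⊢ <;>
    linear_combination (-(y 0)) * h0 + (-(y 1)) * h1 + (-(y 2)) * h2

lemma Frame.trace (h : Frame a b c) (A : Matrix (Fin 3) (Fin 3) ℝ) :
    A.trace = bil A a a + bil A b b + bil A c c := by
  have h00 := h.one 0 0
  have h01 := h.one 0 1
  have h02 := h.one 0 2
  have h11 := h.one 1 1
  have h12 := h.one 1 2
  have h22 := h.one 2 2
  simp at h00 h01 h02 h11 h12 h22
  simp only [Matrix.trace, Matrix.diag, bil, dotProduct, Matrix.mulVec, Fin.sum_univ_three]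
  linear_combination (-(A 0 0)) * h00 - A 1 1 * h11 - A 2 2 * h22
    - (A 0 1 + A 1 0) * h01 - (A 0 2 + A 2 0) * h02 - (A 1 2 + A 2 1) * h12

/-- The components of the curl. -/
lemma Frame.cv_c (h : Frame a b c) (A : Matrix (Fin 3) (Fin 3) ℝ) :
    cv A ⬝ᵥ c = bil A b a - bil A a b := by
  have := cv_cross A a b
  rwa [← h.ab] at this

lemma Frame.cv_a (h : Frame a b c) (A : Matrix (Fin 3) (Fin 3) ℝ) :
    cv A ⬝ᵥ a = bil A c b - bil A b c := by
  have := cv_cross A b c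
  rwa [← h.bc] at this

lemma Frame.cv_b (h : Frame a b c) (A : Matrix (Fin 3) (Fin 3) ℝ) :
    cv A ⬝ᵥ b = bil A a c - bil A c a := by
  have := cv_cross A c a
  rwa [← h.ca] at this

/-- `p · A y` in terms of the components of `y`. -/
lemma Frame.bil_expand (h : Frame a b c) (A : Matrix (Fin 3) (Fin 3) ℝ) (p y : V) :
    bil A p y = (y ⬝ᵥ a) * bil A p a + (y ⬝ᵥ b) * bil A p b + (y ⬝ᵥ c) * bil A p c := by
  conv_lhs => rw [h.expand y]
  simp only [bil, dotProduct, Matrix.mulVec, Fin.sum_univ_three]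
  ring

/-- The rate of change of the component `ω · c` of the vorticity. -/
lemma Frame.stretch_c (h : Frame a b c) (A : Matrix (Fin 3) (Fin 3) ℝ) :
    bil A c (cv A) = -(bil A c a * bil A b c) + bil A c b * bil A a c
      + bil A c c * (cv A ⬝ᵥ c) := by
  rw [h.bil_expand A c (cv A), h.cv_a, h.cv_b]
  ring

lemma abs_bil_le {A : Matrix (Fin 3) (Fin 3) ℝ} {g : ℝ} (hA : ∀ i j, |A i j| ≤ g) {p q : V}
    (hp : ∀ i, |p i| ≤ 1) (hq : ∀ i, |q i| ≤ 1) : |bil A p q| ≤ 9 * g := by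
  have hg : 0 ≤ g := (abs_nonneg _).trans (hA 0 0)
  have h1 : ∀ i, |A.mulVec q i| ≤ 3 * g := by
    intro i
    simp only [Matrix.mulVec, dotProduct]
    refine (Finset.abs_sum_le_sum_abs _ _).trans ?_
    refine (Finset.sum_le_card_nsmul _ _ g fun j _ => ?_).trans (by simp)
    rw [abs_mul]
    calc |A i j| * |q j| ≤ g * 1 := mul_le_mul (hA i j) (hq j) (abs_nonneg _) hg
      _ = g := mul_one g
  unfold bil
  simp only [dotProduct]
  refine (Finset.abs_sum_le_sum_abs _ _).trans ?_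
  refine (Finset.sum_le_card_nsmul _ _ (3 * g) fun j _ => ?_).trans (le_of_eq (by simp; ring))
  rw [abs_mul]
  calc |p j| * |A.mulVec q j| ≤ 1 * (3 * g) := mul_le_mul (hp j) (h1 j) (abs_nonneg _) zero_le_one
    _ = 3 * g := one_mul _

lemma abs_dot_le {y p : V} {g : ℝ} (hy : ∀ i, |y i| ≤ g) (hp : ∀ i, |p i| ≤ 1) :
    |p ⬝ᵥ y| ≤ 3 * g := by
  have hg : 0 ≤ g := (abs_nonneg _).trans (hy 0)
  simp only [dotProduct]
  refine (Finset.abs_sum_le_sum_abs _ _).trans ?_
  refine (Finset.sum_le_card_nsmul _ _ g fun j _ => ?_).trans (le_of_eq (by simp))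
  rw [abs_mul]
  calc |p j| * |y j| ≤ 1 * g := mul_le_mul (hp j) (hy j) (abs_nonneg _) zero_le_one
    _ = g := one_mul _

/-- The entries of a matrix in terms of those in the frame. -/
lemma Frame.entry (h : Frame a b c) (A : Matrix (Fin 3) (Fin 3) ℝ) (i j : Fin 3) :
    |A i j| ≤ |bil A a a| + |bil A a b| + |bil A a c| + |bil A b a| + |bil A b b| + |bil A b c|
      + |bil A c a| + |bil A c b| + |bil A c c| := by
  have e : A i j = bil A a a * (a i * a j) + bil A a b * (a i * b j) + bil A a c * (a i * c j)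
      + bil A b a * (b i * a j) + bil A b b * (b i * b j) + bil A b c * (b i * c j)
      + bil A c a * (c i * a j) + bil A c b * (c i * b j) + bil A c c * (c i * c j) := by
    have h1 : A i j = bil A (Pi.single i 1) (Pi.single j 1) := by
      simp [bil]
    have h2 : ∀ p y : V, bil A y p = (y ⬝ᵥ a) * bil A a p + (y ⬝ᵥ b) * bil A b p
        + (y ⬝ᵥ c) * bil A c p := by
      intro p y
      conv_lhs => rw [h.expand y]
      simp only [bil, dotProduct, Matrix.mulVec, Fin.sum_univ_three]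
      ring
    rw [h1, h2, h.bil_expand A a, h.bil_expand A b, h.bil_expand A c]
    simp only [single_one_dotProduct]
    ring
  have ha := h.le_one
  have hb := h.rot.le_one
  have hc := h.rot.rot.le_one
  have key : ∀ (t x y : ℝ), |x| ≤ 1 → |y| ≤ 1 → |t * (x * y)| ≤ |t| := by
    intro t x y hx hy
    rw [abs_mul, abs_mul]
    have : |x| * |y| ≤ 1 := mul_le_one₀ hx (abs_nonneg _) hy
    exact mul_le_of_le_one_right (abs_nonneg _) this
  rw [e]
  refine (abs_add_le _ _).trans (add_le_add ?_ (key _ _ _ (hc i) (hc j)))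
  refine (abs_add_le _ _).trans (add_le_add ?_ (key _ _ _ (hc i) (hb j)))
  refine (abs_add_le _ _).trans (add_le_add ?_ (key _ _ _ (hc i) (ha j)))
  refine (abs_add_le _ _).trans (add_le_add ?_ (key _ _ _ (hb i) (hc j)))
  refine (abs_add_le _ _).trans (add_le_add ?_ (key _ _ _ (hb i) (hb j)))
  refine (abs_add_le _ _).trans (add_le_add ?_ (key _ _ _ (hb i) (ha j)))
  refine (abs_add_le _ _).trans (add_le_add ?_ (key _ _ _ (ha i) (hc j)))
  refine (abs_add_le _ _).trans (add_le_add (key _ _ _ (ha i) (ha j)) (key _ _ _ (ha i) (hb j)))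

/-- Each unit vector is the last vector of a frame. -/
lemma exists_frame {c : V} (hc : c ⬝ᵥ c = 1) : ∃ a b : V, Frame a b c := by
  have hc' : c 0 ^ 2 + c 1 ^ 2 + c 2 ^ 2 = 1 := by
    simp only [dotProduct, Fin.sum_univ_three] at hc
    linarith
  -- a unit vector orthogonal to `c`
  obtain ⟨a, ha1, ha2⟩ : ∃ a : V, a 0 ^ 2 + a 1 ^ 2 + a 2 ^ 2 = 1 ∧
      a 0 * c 0 + a 1 * c 1 + a 2 * c 2 = 0 := by
    by_cases h : c 0 ^ 2 + c 1 ^ 2 = 0
    · have h0 : c 0 = 0 := by nlinarith [sq_nonneg (c 0), sq_nonneg (c 1)]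
      have h1 : c 1 = 0 := by nlinarith [sq_nonneg (c 0), sq_nonneg (c 1)]
      refine ⟨![1, 0, 0], by simp, ?_⟩
      simp [h0]
    · have hp : 0 < c 0 ^ 2 + c 1 ^ 2 := lt_of_le_of_ne (by positivity) (Ne.symm h)
      set r := Real.sqrt (c 0 ^ 2 + c 1 ^ 2) with hr
      have hr2 : r ^ 2 = c 0 ^ 2 + c 1 ^ 2 := Real.sq_sqrt hp.le
      have hr0 : 0 < r := Real.sqrt_pos.2 hp
      refine ⟨![c 1 / r, -c 0 / r, 0], ?_, ?_⟩
      · simp
        field_simp
        linarith
      · simp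
        field_simp
        ring
  refine ⟨a, crossProduct c a, ?_, ?_, rfl, ?_⟩
  · funext i
    rw [cross_apply, cross_apply]
    fin_cases i <;> simp
    · linear_combination (-(c 0)) * ha1 + a 0 * ha2
    · linear_combination (-(c 1)) * ha1 + a 1 * ha2
    · linear_combination (-(c 2)) * ha1 + a 2 * ha2
  · funext i
    rw [cross_apply, cross_apply]
    fin_cases i <;> simp
    · linear_combination (-(a 0)) * hc' + c 0 * ha2
    · linear_combination (-(a 1)) * hc' + c 1 * ha2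
    · linear_combination (-(a 2)) * hc' + c 2 * ha2
  · intro i j
    rw [cross_apply]
    fin_cases i <;> fin_cases j <;> simp
    · linear_combination ((a 0 ^ 2 + a 1 ^ 2 + a 2 ^ 2) - a 0 ^ 2) * hc' + (1 - c 0 ^ 2) * ha1 + (2 * (a 0 * c 0) - (a 0 * c 0 + a 1 * c 1 + a 2 * c 2)) * ha2
    · linear_combination (-(c 0 * c 1)) * ha1 + (-(a 0 * a 1)) * hc' + (a 0 * c 1 + a 1 * c 0) * ha2
    · linear_combination (-(c 0 * c 2)) * ha1 + (-(a 0 * a 2)) * hc' + (a 0 * c 2 + a 2 * c 0) * ha2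
    · linear_combination (-(c 1 * c 0)) * ha1 + (-(a 1 * a 0)) * hc' + (a 1 * c 0 + a 0 * c 1) * ha2
    · linear_combination ((a 0 ^ 2 + a 1 ^ 2 + a 2 ^ 2) - a 1 ^ 2) * hc' + (1 - c 1 ^ 2) * ha1 + (2 * (a 1 * c 1) - (a 0 * c 0 + a 1 * c 1 + a 2 * c 2)) * ha2
    · linear_combination (-(c 1 * c 2)) * ha1 + (-(a 1 * a 2)) * hc' + (a 1 * c 2 + a 2 * c 1) * ha2
    · linear_combination (-(c 2 * c 0)) * ha1 + (-(a 2 * a 0)) * hc' + (a 2 * c 0 + a 0 * c 2) * ha2
    · linear_combination (-(c 2 * c 1)) * ha1 + (-(a 2 * a 1)) * hc' + (a 2 * c 1 + a 1 * c 2) * ha2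
    · linear_combination ((a 0 ^ 2 + a 1 ^ 2 + a 2 ^ 2) - a 2 ^ 2) * hc' + (1 - c 2 ^ 2) * ha1 + (2 * (a 2 * c 2) - (a 0 * c 0 + a 1 * c 1 + a 2 * c 2)) * ha2

end Pool.Agent.Helper29.Dir
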