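import Mathlib

/-!
# Gaussian averages in the plane

A real variable form of the logarithmic estimate of the Beurling transform: if the gradient of `f`
is `(∂₁P - ∂₂φ, ∂₁φ - ∂₁Q)` then the Gaussian averages of `f` at the scales `ε < R` differ by at
most `3 max (|P|, |Q|) log (R / ε)`.
-/

set_option autoImplicit false

open MeasureTheory ProbabilityTheory Set Filter Topology

namespace Pool.Agent.Helper29.Dir

/-- The standard Gaussian measure of the line. -/
noncomputable abbrev gm : Measure ℝ := gaussianReal 0 1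

/-- The standard Gaussian measure of the plane. -/
noncomputable abbrev g2 : Measure (ℝ × ℝ) := gm.prod gm

lemma int_sq : Integrable (fun x : ℝ => x ^ 2) gm :=
  (memLp_id_gaussianReal (μ := 0) (v := 1) 2).integrable_sq

lemma integral_sq : ∫ x, x ^ 2 ∂gm = 1 := by
  have h := variance_fun_id_gaussianReal (μ := 0) (v := 1)
  rw [variance_eq_integral (by fun_prop)] at h
  simpa [integral_id_gaussianReal] using h

lemma int_one_add_sq : Integrable (fun x : ℝ => 1 + x ^ 2) gm :=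
  (integrable_const 1).add int_sq

lemma int_poly {φ : ℝ → ℝ} (hc : Continuous φ) {C : ℝ} (hb : ∀ x, |φ x| ≤ C * (1 + x ^ 2)) :
    Integrable φ gm :=
  Integrable.mono' (int_one_add_sq.const_mul C) hc.aestronglyMeasurable
    (Eventually.of_forall fun x => by rw [Real.norm_eq_abs]; exact hb x)

lemma int_w2 : Integrable (fun z : ℝ × ℝ => (1 + z.1 ^ 2) * (1 + z.2 ^ 2)) g2 :=
  int_one_add_sq.mul_prod int_one_add_sq

lemma integral_w2 : ∫ z, (1 + z.1 ^ 2) * (1 + z.2 ^ 2) ∂g2 = 4 := by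
  rw [integral_prod_mul (fun x : ℝ => 1 + x ^ 2) (fun x : ℝ => 1 + x ^ 2)]
  have : ∫ x, (1 + x ^ 2) ∂gm = 2 := by
    rw [integral_add (integrable_const 1) int_sq, integral_sq]
    simp
    norm_num
  rw [this]
  norm_num

lemma int_poly2 {ψ : ℝ × ℝ → ℝ} (hc : Continuous ψ) {C : ℝ}
    (hb : ∀ z, |ψ z| ≤ C * ((1 + z.1 ^ 2) * (1 + z.2 ^ 2))) : Integrable ψ g2 :=
  Integrable.mono' (int_w2.const_mul C) hc.aestronglyMeasurable
    (Eventually.of_forall fun x => by rw [Real.norm_eq_abs]; exact hb x)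

lemma one_add_abs_le (x : ℝ) : 1 + |x| ≤ 2 * (1 + x ^ 2) := by
  nlinarith [sq_nonneg (|x| - 1), sq_abs x, abs_nonneg x]

lemma abs_mul_one_add_abs_le (x : ℝ) : |x| * (1 + |x|) ≤ 2 * (1 + x ^ 2) := by
  nlinarith [sq_nonneg (|x| - 1), sq_abs x, abs_nonneg x]

lemma integral_gm (f : ℝ → ℝ) : ∫ x, f x ∂gm = ∫ x, gaussianPDFReal 0 1 x * f x := by
  rw [gm, integral_gaussianReal_eq_integral_smul (by norm_num)]
  rfl

lemma integrable_gm {f : ℝ → ℝ} (h : Integrable f gm) :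
    Integrable (fun x => gaussianPDFReal 0 1 x * f x) := by
  rw [gm, gaussianReal_of_var_ne_zero 0 (by norm_num)] at h
  rw [integrable_withDensity_iff_integrable_smul' (measurable_gaussianPDF 0 1)
    (Eventually.of_forall fun x => gaussianPDF_lt_top)] at h
  refine h.congr (Eventually.of_forall fun x => ?_)
  simp only [toReal_gaussianPDF, smul_eq_mul]

lemma pdf_deriv (x : ℝ) :
    HasDerivAt (gaussianPDFReal 0 1) (-(x * gaussianPDFReal 0 1 x)) x := by
  have e : gaussianPDFReal 0 1 = fun x => (Real.sqrt (2 * Real.pi * ((1 : NNReal) : ℝ)))⁻¹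
      * Real.exp (-(x - 0) ^ 2 / (2 * ((1 : NNReal) : ℝ))) := by
    funext x
    rfl
  rw [e]
  have h1 : HasDerivAt (fun x : ℝ => -(x - 0) ^ 2 / (2 * ((1 : NNReal) : ℝ))) (-x) x := by
    have h2 : HasDerivAt (fun x : ℝ => x ^ 2) (2 * x) x := by
      simpa using hasDerivAt_pow 2 x
    have h3 := (h2.neg).div_const (2 * ((1 : NNReal) : ℝ))
    simp only [sub_zero]
    refine h3.congr_deriv ?_
    simp
    ring
  have h4 := (h1.exp).const_mul (Real.sqrt (2 * Real.pi * ((1 : NNReal) : ℝ)))⁻¹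
  refine h4.congr_deriv ?_
  ring

/-- Stein's lemma. -/
lemma stein {φ φ' : ℝ → ℝ} (hd : ∀ x, HasDerivAt φ (φ' x) x) (hc' : Continuous φ') {C : ℝ}
    (h0 : ∀ x, |φ x| ≤ C * (1 + |x|)) (h1 : ∀ x, |φ' x| ≤ C * (1 + |x|)) :
    ∫ x, x * φ x ∂gm = ∫ x, φ' x ∂gm := by
  have hc : Continuous φ := continuous_iff_continuousAt.2 fun x => (hd x).continuousAt
  have hC : 0 ≤ C := by
    have := (abs_nonneg _).trans (h0 0)
    simpa using this
  have i1 : Integrable (fun x => x * φ x) gm := by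
    refine int_poly (by fun_prop) (C := C * 2) fun x => ?_
    rw [abs_mul]
    calc |x| * |φ x| ≤ |x| * (C * (1 + |x|)) := by gcongr; exact h0 x
      _ = C * (|x| * (1 + |x|)) := by ring
      _ ≤ C * (2 * (1 + x ^ 2)) := mul_le_mul_of_nonneg_left (abs_mul_one_add_abs_le x) hC
      _ = C * 2 * (1 + x ^ 2) := by ring
  have i2 : Integrable φ' gm := by
    refine int_poly hc' (C := C * 2) fun x => (h1 x).trans ?_
    calc C * (1 + |x|) ≤ C * (2 * (1 + x ^ 2)) := by gcongr; exact one_add_abs_le x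
      _ = C * 2 * (1 + x ^ 2) := by ring
  have i3 : Integrable φ gm := by
    refine int_poly hc (C := C * 2) fun x => (h0 x).trans ?_
    calc C * (1 + |x|) ≤ C * (2 * (1 + x ^ 2)) := by gcongr; exact one_add_abs_le x
      _ = C * 2 * (1 + x ^ 2) := by ring
  rw [integral_gm, integral_gm]
  have key := integral_mul_deriv_eq_deriv_mul_of_integrable (u := gaussianPDFReal 0 1)
    (u' := fun x => -(x * gaussianPDFReal 0 1 x)) (v := φ) (v' := φ') (fun x _ => pdf_deriv x)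
    (fun x _ => hd x) (integrable_gm i2) ?_ (integrable_gm i3)
  · rw [key, ← integral_neg]
    congr 1
    funext x
    ring
  · refine ((integrable_gm i1).neg).congr (Eventually.of_forall fun x => ?_)
    simp only [Pi.neg_apply, Pi.mul_apply]
    ring

lemma abs_w (x y : ℝ) : (1 + |x|) * (1 + |y|) ≤ 4 * ((1 + x ^ 2) * (1 + y ^ 2)) := by
  calc (1 + |x|) * (1 + |y|) ≤ (2 * (1 + x ^ 2)) * (2 * (1 + y ^ 2)) :=
        mul_le_mul (one_add_abs_le x) (one_add_abs_le y) (by positivity) (by positivity)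
    _ = 4 * ((1 + x ^ 2) * (1 + y ^ 2)) := by ring

lemma abs_w' (x y : ℝ) : |x| * ((1 + |x|) * (1 + |y|)) ≤ 4 * ((1 + x ^ 2) * (1 + y ^ 2)) := by
  calc |x| * ((1 + |x|) * (1 + |y|)) = (|x| * (1 + |x|)) * (1 + |y|) := by ring
    _ ≤ (2 * (1 + x ^ 2)) * (2 * (1 + y ^ 2)) :=
        mul_le_mul (abs_mul_one_add_abs_le x) (one_add_abs_le y) (by positivity) (by positivity)
    _ = 4 * ((1 + x ^ 2) * (1 + y ^ 2)) := by ring

/-- Stein's lemma in the plane, first variable. -/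
lemma stein1 {ψ ψ' : ℝ × ℝ → ℝ} (hc : Continuous ψ) (hc' : Continuous ψ')
    (hd : ∀ x y, HasDerivAt (fun s => ψ (s, y)) (ψ' (x, y)) x) {C : ℝ}
    (h0 : ∀ z, |ψ z| ≤ C * ((1 + |z.1|) * (1 + |z.2|)))
    (h1 : ∀ z, |ψ' z| ≤ C * ((1 + |z.1|) * (1 + |z.2|))) :
    ∫ z, z.1 * ψ z ∂g2 = ∫ z, ψ' z ∂g2 := by
  have hC : 0 ≤ C := by
    have := (abs_nonneg _).trans (h0 0)
    simpa using this
  have i1 : Integrable (fun z : ℝ × ℝ => z.1 * ψ z) g2 := by
    refine int_poly2 (by fun_prop) (C := C * 4) fun z => ?_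
    rw [abs_mul]
    calc |z.1| * |ψ z| ≤ |z.1| * (C * ((1 + |z.1|) * (1 + |z.2|))) := by gcongr; exact h0 z
      _ = C * (|z.1| * ((1 + |z.1|) * (1 + |z.2|))) := by ring
      _ ≤ C * (4 * ((1 + z.1 ^ 2) * (1 + z.2 ^ 2))) := mul_le_mul_of_nonneg_left (abs_w' z.1 z.2) hC
      _ = C * 4 * ((1 + z.1 ^ 2) * (1 + z.2 ^ 2)) := by ring
  have i2 : Integrable ψ' g2 := by
    refine int_poly2 hc' (C := C * 4) fun z => (h1 z).trans ?_
    calc C * ((1 + |z.1|) * (1 + |z.2|)) ≤ C * (4 * ((1 + z.1 ^ 2) * (1 + z.2 ^ 2))) :=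
          mul_le_mul_of_nonneg_left (abs_w z.1 z.2) hC
      _ = C * 4 * ((1 + z.1 ^ 2) * (1 + z.2 ^ 2)) := by ring
  rw [integral_prod_symm _ i1, integral_prod_symm _ i2]
  congr 1
  funext y
  refine stein (C := C * (1 + |y|)) (fun x => hd x y) (by fun_prop) (fun x => ?_) fun x => ?_
  · refine (h0 (x, y)).trans (le_of_eq ?_)
    ring
  · refine (h1 (x, y)).trans (le_of_eq ?_)
    ring

/-- Stein's lemma in the plane, second variable. -/
lemma stein2 {ψ ψ' : ℝ × ℝ → ℝ} (hc : Continuous ψ) (hc' : Continuous ψ')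
    (hd : ∀ x y, HasDerivAt (fun s => ψ (x, s)) (ψ' (x, y)) y) {C : ℝ}
    (h0 : ∀ z, |ψ z| ≤ C * ((1 + |z.1|) * (1 + |z.2|)))
    (h1 : ∀ z, |ψ' z| ≤ C * ((1 + |z.1|) * (1 + |z.2|))) :
    ∫ z, z.2 * ψ z ∂g2 = ∫ z, ψ' z ∂g2 := by
  have hC : 0 ≤ C := by
    have := (abs_nonneg _).trans (h0 0)
    simpa using this
  have i1 : Integrable (fun z : ℝ × ℝ => z.2 * ψ z) g2 := by
    refine int_poly2 (by fun_prop) (C := C * 4) fun z => ?_
    rw [abs_mul]
    calc |z.2| * |ψ z| ≤ |z.2| * (C * ((1 + |z.1|) * (1 + |z.2|))) := by gcongr; exact h0 z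
      _ = C * (|z.2| * ((1 + |z.2|) * (1 + |z.1|))) := by ring
      _ ≤ C * (4 * ((1 + z.2 ^ 2) * (1 + z.1 ^ 2))) := mul_le_mul_of_nonneg_left (abs_w' z.2 z.1) hC
      _ = C * 4 * ((1 + z.1 ^ 2) * (1 + z.2 ^ 2)) := by ring
  have i2 : Integrable ψ' g2 := by
    refine int_poly2 hc' (C := C * 4) fun z => (h1 z).trans ?_
    calc C * ((1 + |z.1|) * (1 + |z.2|)) ≤ C * (4 * ((1 + z.1 ^ 2) * (1 + z.2 ^ 2))) :=
          mul_le_mul_of_nonneg_left (abs_w z.1 z.2) hC
      _ = C * 4 * ((1 + z.1 ^ 2) * (1 + z.2 ^ 2)) := by ring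
  rw [integral_prod _ i1, integral_prod _ i2]
  congr 1
  funext x
  refine stein (C := C * (1 + |x|)) (fun y => hd x y) (by fun_prop) (fun y => ?_) fun y => ?_
  · refine (h0 (x, y)).trans (le_of_eq ?_)
    ring
  · refine (h1 (x, y)).trans (le_of_eq ?_)
    ring

end Pool.Agent.Helper29.Dir
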