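import Pool.Agent.Helper29.Dir.Conv

/-!
# Bounds of the Sobolev norms on `[0, T)`
-/

set_option autoImplicit false

open MeasureTheory Set Filter Topology

namespace Pool.Agent.Helper29.Dir

open Pool.Agent.W734.NS
open H459R3.NS (pd IsSol Per energy)

variable {T : ℝ} {u : ℝ → H459R3.NS.V → H459R3.NS.V} {p : ℝ → H459R3.NS.V → ℝ} {g : ℝ → ℝ}

/-- The bound at the time `t` by the integral up to the time `T' > t`. -/
lemma hn_le (r : ℕ) : ∃ C : ℝ, 0 < C ∧ ∀ (T : ℝ) (u : ℝ → H459R3.NS.V → H459R3.NS.V)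
    (p : ℝ → H459R3.NS.V → ℝ) (g : ℝ → ℝ), IsSol 0 T u p → ContinuousOn g (Ico 0 T) →
    (∀ t ∈ Ico 0 T, ∀ i m x, |pd m (fun y => u t y i) x| ≤ g t) →
    ∀ t ∈ Ico 0 T, ∀ T' ∈ Ioo t T, T' ^ 2 * hn (r + 2) (u t)
      ≤ Real.exp (1 + C * (1 + Real.log (1 + T' ^ 2 * hn (r + 2) (u 0)) + ∫ q in 0..T', g q)) := by
  obtain ⟨C, hC, hmain⟩ := kato r
  refine ⟨C, hC, ?_⟩
  intro T u p g h hgc hg t ht T' hT'
  have hT'0 : 0 < T' := ht.1.trans_lt hT'.1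
  refine hmain T' u p g _ hT'0 (sol_mono h hT'.2.le)
    (fun t ht => hg t ⟨ht.1, ht.2.trans hT'.2⟩) ?_ ?_ t ⟨ht.1, hT'.1⟩
  · exact ((hgc.mono fun r hr => ⟨hr.1, hr.2.trans_lt hT'.2⟩).integrableOn_Icc).mono_set
      Ioo_subset_Icc_self
  · rw [intervalIntegral.integral_of_le hT'0.le, integral_Ioc_eq_integral_Ioo]

/-- The exponential bound for `t ≥ s`. -/
lemma hn_exp (r : ℕ) (h : IsSol 0 T u p) (hgc : ContinuousOn g (Ico 0 T))
    (hg : ∀ t ∈ Ico 0 T, ∀ i m x, |pd m (fun y => u t y i) x| ≤ g t) {s : ℝ} (hs : s ∈ Ioo 0 T) :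
    ∃ Λ : ℝ, 0 ≤ Λ ∧ ∀ t ∈ Ico s T,
      hn (r + 2) (u t) ≤ Real.exp (Λ * (1 + ∫ q in 0..t, g q)) := by
  obtain ⟨C, hC, hmain⟩ := hn_le r
  have h0 : 0 ≤ hn (r + 2) (u 0) := hn_nonneg _ _
  set K : ℝ := Real.log (1 + T ^ 2 * hn (r + 2) (u 0)) with hK
  have hK0 : 0 ≤ K := Real.log_nonneg (by
    have : 0 ≤ T ^ 2 * hn (r + 2) (u 0) := by positivity
    linarith)
  have hs0 : 0 < s := hs.1
  have hT : 0 < T := hs0.trans hs.2
  have hg0 : ∀ t ∈ Ico 0 T, 0 ≤ g t := fun t ht => (abs_nonneg _).trans (hg t ht 0 0 0)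
  refine ⟨(1 + C * (2 + K)) + |Real.log (s ^ 2)| + C, by positivity, fun t ht => ?_⟩
  have htI : t ∈ Ico 0 T := ⟨hs0.le.trans ht.1, ht.2⟩
  have hI : 0 ≤ ∫ q in 0..t, g q := prim_nonneg hg0 htI
  have hc : ContinuousWithinAt (fun t => ∫ q in 0..t, g q) (Ico 0 T) t := prim_cont hgc t htI
  have hev : ∀ᶠ T' in 𝓝[Ico 0 T] t, (∫ q in 0..T', g q) < (∫ q in 0..t, g q) + 1 :=
    hc.eventually_lt_const (by linarith)
  have hev2 : ∀ᶠ T' in 𝓝[>] t, (∫ q in 0..T', g q) < (∫ q in 0..t, g q) + 1 ∧ T' ∈ Ioo t T := by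
    have h1 : 𝓝[Ioo t T] t = 𝓝[>] t := nhdsWithin_Ioo_eq_nhdsGT ht.2
    have h2 : 𝓝[Ioo t T] t ≤ 𝓝[Ico 0 T] t :=
      nhdsWithin_mono _ fun q hq => ⟨htI.1.trans hq.1.le, hq.2⟩
    have h3 : ∀ᶠ T' in 𝓝[Ioo t T] t, (∫ q in 0..T', g q) < (∫ q in 0..t, g q) + 1 := h2 hev
    rw [← h1]
    exact h3.and self_mem_nhdsWithin
  obtain ⟨T', h1, h2⟩ := hev2.exists
  have key := hmain T u p g h hgc hg t htI T' h2
  have hT' : s ≤ T' := ht.1.trans h2.1.le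
  have hn0 : 0 ≤ hn (r + 2) (u t) := hn_nonneg _ _
  have k1 : s ^ 2 * hn (r + 2) (u t) ≤ T' ^ 2 * hn (r + 2) (u t) := by gcongr
  have k2 : Real.log (1 + T' ^ 2 * hn (r + 2) (u 0)) ≤ K := by
    refine Real.log_le_log ?_ ?_
    · have : 0 ≤ T' ^ 2 * hn (r + 2) (u 0) := by positivity
      linarith
    · have : T' ^ 2 * hn (r + 2) (u 0) ≤ T ^ 2 * hn (r + 2) (u 0) := by
        have := h2.2.le
        have : 0 ≤ T' := hs0.le.trans hT'
        gcongr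
      linarith
  have k3 : s ^ 2 * hn (r + 2) (u t)
      ≤ Real.exp (1 + C * (2 + K) + C * ∫ q in 0..t, g q) := by
    refine k1.trans (key.trans (Real.exp_le_exp.2 ?_))
    have : C * (1 + Real.log (1 + T' ^ 2 * hn (r + 2) (u 0)) + ∫ q in 0..T', g q)
        ≤ C * (1 + K + ((∫ q in 0..t, g q) + 1)) := by
      gcongr
    linarith
  have k4 : s ^ 2 * hn (r + 2) (u t) = Real.exp (Real.log (s ^ 2)) * hn (r + 2) (u t) := by
    rw [Real.exp_log (by positivity)]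
  have k5 : hn (r + 2) (u t) = Real.exp (-Real.log (s ^ 2)) * (s ^ 2 * hn (r + 2) (u t)) := by
    rw [k4, ← mul_assoc, ← Real.exp_add]
    simp
  rw [k5]
  calc Real.exp (-Real.log (s ^ 2)) * (s ^ 2 * hn (r + 2) (u t))
      ≤ Real.exp (-Real.log (s ^ 2)) * Real.exp (1 + C * (2 + K) + C * ∫ q in 0..t, g q) := by
        gcongr
    _ = Real.exp (-Real.log (s ^ 2) + (1 + C * (2 + K) + C * ∫ q in 0..t, g q)) := by
        rw [← Real.exp_add]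
    _ ≤ _ := by
        refine Real.exp_le_exp.2 ?_
        have l1 : -Real.log (s ^ 2) ≤ |Real.log (s ^ 2)| := neg_le_abs _
        have l2 : 0 ≤ (1 + C * (2 + K)) * ∫ q in 0..t, g q := by positivity
        have l3 : 0 ≤ |Real.log (s ^ 2)| * ∫ q in 0..t, g q := by positivity
        nlinarith

/-- Bounded Sobolev norms. -/
lemma hn_bounded (r : ℕ) (h : IsSol 0 T u p) (hT : 0 < T) (hgc : ContinuousOn g (Ico 0 T))
    (hg : ∀ t ∈ Ico 0 T, ∀ i m x, |pd m (fun y => u t y i) x| ≤ g t) {A s : ℝ} (hs : s ∈ Ico 0 T)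
    (hA : ∀ t ∈ Ico s T, ∫ q in 0..t, g q ≤ A) :
    ∃ B : ℝ, ∀ t ∈ Ico 0 T, hn (r + 2) (u t) ≤ B := by
  obtain ⟨C, hC, hmain⟩ := hn_le r
  have h0 : 0 ≤ hn (r + 2) (u 0) := hn_nonneg _ _
  refine ⟨(T / 2) ^ (-2 : ℤ) * Real.exp (1 + C * (1 + Real.log (1 + T ^ 2 * hn (r + 2) (u 0)) + A)),
    fun t ht => ?_⟩
  obtain ⟨T', h1, h2⟩ := exists_between (max_lt (max_lt ht.2 hs.2) (half_lt_self hT))
  have ht' : t < T' := ((le_max_left _ _).trans (le_max_left _ _)).trans_lt h1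
  have hs' : s < T' := ((le_max_right _ _).trans (le_max_left _ _)).trans_lt h1
  have hT' : T / 2 < T' := (le_max_right _ _).trans_lt h1
  have key := hmain T u p g h hgc hg t ht T' ⟨ht', h2⟩
  have hn0 : 0 ≤ hn (r + 2) (u t) := hn_nonneg _ _
  have k1 : (T / 2) ^ 2 * hn (r + 2) (u t) ≤ T' ^ 2 * hn (r + 2) (u t) := by gcongr
  have k2 : Real.log (1 + T' ^ 2 * hn (r + 2) (u 0)) ≤ Real.log (1 + T ^ 2 * hn (r + 2) (u 0)) := by
    have hp : 0 < T' := (half_pos hT).trans hT'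
    refine Real.log_le_log ?_ ?_
    · have : 0 ≤ T' ^ 2 * hn (r + 2) (u 0) := by positivity
      linarith
    · have : T' ^ 2 * hn (r + 2) (u 0) ≤ T ^ 2 * hn (r + 2) (u 0) := by
        have := h2.le
        gcongr
      linarith
  have k3 : (T / 2) ^ 2 * hn (r + 2) (u t)
      ≤ Real.exp (1 + C * (1 + Real.log (1 + T ^ 2 * hn (r + 2) (u 0)) + A)) := by
    refine k1.trans (key.trans (Real.exp_le_exp.2 ?_))
    have := hA T' ⟨hs'.le, h2⟩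
    gcongr
  have k5 : hn (r + 2) (u t) = (T / 2) ^ (-2 : ℤ) * ((T / 2) ^ 2 * hn (r + 2) (u t)) := by
    have : (T / 2) ≠ 0 := by positivity
    rw [zpow_neg, ← mul_assoc]
    have e : (T / 2) ^ (2 : ℤ) = (T / 2) ^ 2 := by norm_cast
    rw [e, inv_mul_cancel₀ (by positivity), one_mul]
  rw [k5]
  gcongr

end Pool.Agent.Helper29.Dir
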