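import Pool.Agent.Helper29.Dir.Space

/-!
# Bounds of the vorticity along the trajectories
-/

set_option autoImplicit false

open MeasureTheory Set Filter Topology

namespace Pool.Agent.Helper29.Dir

open Pool.Agent.H708R2.EulerSign Pool.Agent.H708R2.EulerTypeI

section prim

variable {φ : ℝ → ℝ} {s T : ℝ}

lemma ii_of_cont (hφ : ContinuousOn φ (Ico s T)) {t : ℝ} (ht : t ∈ Ico s T) :
    IntervalIntegrable φ volume s t :=
  (hφ.mono fun r hr => by
    rw [uIcc_of_le ht.1] at hr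
    exact ⟨hr.1, hr.2.trans_lt ht.2⟩).intervalIntegrable

lemma prim_right (hφ : ContinuousOn φ (Ico s T)) {t : ℝ} (ht : t ∈ Ico s T) :
    HasDerivWithinAt (fun t => ∫ r in s..t, φ r) (φ t) (Ici t) t := by
  have h1 : Ici t ∩ Iio T ∈ 𝓝[Ici t] t := inter_mem_nhdsWithin _ (Iio_mem_nhds ht.2)
  have hsub : Ici t ∩ Iio T ⊆ Ico s T := fun r hr => ⟨ht.1.trans hr.1, hr.2⟩
  have hc : ContinuousWithinAt φ (Ici t) t :=
    ((hφ t ht).mono hsub).mono_of_mem_nhdsWithin h1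
  refine intervalIntegral.integral_hasDerivWithinAt_right (ii_of_cont hφ ht)
    (s := Ici t) (t := Ioi t) ?_ (hc.mono Ioi_subset_Ici_self)
  refine ⟨Ioo t T, Ioo_mem_nhdsGT ht.2, ?_⟩
  exact (hφ.mono fun r hr => ⟨ht.1.trans hr.1.le, hr.2⟩).aestronglyMeasurable measurableSet_Ioo

lemma prim_at (hφ : ContinuousOn φ (Ico s T)) {t : ℝ} (ht : t ∈ Ioo s T) :
    HasDerivAt (fun t => ∫ r in s..t, φ r) (φ t) t := by
  have hc : ContinuousAt φ t :=
    (hφ t ⟨ht.1.le, ht.2⟩).continuousAt (Ico_mem_nhds ht.1 ht.2)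
  refine intervalIntegral.integral_hasDerivAt_right (ii_of_cont hφ ⟨ht.1.le, ht.2⟩) ?_ hc
  exact ⟨Ioo s T, Ioo_mem_nhds ht.1 ht.2,
    (hφ.mono Ioo_subset_Ico_self).aestronglyMeasurable measurableSet_Ioo⟩

lemma prim_cont (hφ : ContinuousOn φ (Ico s T)) :
    ContinuousOn (fun t => ∫ r in s..t, φ r) (Ico s T) := by
  intro t ht
  obtain ⟨t', h1, h2⟩ := exists_between ht.2
  have h3 : t' ∈ Ico s T := ⟨ht.1.trans h1.le, h2⟩
  have h4 : ContinuousOn (fun t => ∫ r in s..t, φ r) (uIcc s t') :=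
    intervalIntegral.continuousOn_primitive_interval
      ((intervalIntegrable_iff' (μ := volume) (f := φ) (a := s) (b := t')).1 (ii_of_cont hφ h3))
  rw [uIcc_of_le h3.1] at h4
  refine (h4 t ⟨ht.1, h1.le⟩).mono_of_mem_nhdsWithin ?_
  have h5 : Ico s T ∩ Iio t' ∈ 𝓝[Ico s T] t := inter_mem_nhdsWithin _ (Iio_mem_nhds h1)
  exact mem_of_superset h5 fun r hr => ⟨hr.1.1, hr.2.le⟩

lemma prim_nonneg (h0 : ∀ t ∈ Ico s T, 0 ≤ φ t) {t : ℝ} (ht : t ∈ Ico s T) :
    0 ≤ ∫ r in s..t, φ r :=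
  intervalIntegral.integral_nonneg ht.1 fun r hr => h0 r ⟨hr.1, hr.2.trans_lt ht.2⟩

end prim

/-- The bound of the component `ω · c` of the vorticity. -/
noncomputable def Wf (g al : ℝ → ℝ) (s t : ℝ) : ℝ := 18 * g s + 108 * ∫ r in s..t, al r * g r

/-- The bound of the planar block of the gradient. -/
noncomputable def kap (g al L : ℝ → ℝ) (s t : ℝ) : ℝ :=
  30 + (Wf g al s t + 3 * al t) * (6 * L t + 1)

/-- The rate of growth of the planar components of the vorticity. -/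
noncomputable def Kf (g al L : ℝ → ℝ) (s t : ℝ) : ℝ := 2 * kap g al L s t + Wf g al s t + 1

/-- The source. -/
noncomputable def Yf (g al : ℝ → ℝ) (s t : ℝ) : ℝ := ∫ r in s..t, 6 * (al r * Wf g al s r)

/-- The bound of the planar components of the vorticity. -/
noncomputable def Hf (g al L : ℝ → ℝ) (s t : ℝ) : ℝ :=
  Real.exp (∫ r in s..t, Kf g al L s r) * (36 * g s + 1 + Yf g al s t)

/-- The bound of the gradient. -/
noncomputable def Gf (g al L : ℝ → ℝ) (s t : ℝ) : ℝ :=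
  4 * kap g al L s t + 15 * al t + 4 * Hf g al L s t

/-- At each point the derivative of `v` in the direction `c` or the gradient of `c · v` is at most
`m`. -/
def Alt (A : Matrix (Fin 3) (Fin 3) ℝ) (c : V) (m : ℝ) : Prop :=
  (∀ i, |A.mulVec c i| ≤ m) ∨ ∀ j, |Matrix.vecMul c A j| ≤ m

section alg

variable {A : Matrix (Fin 3) (Fin 3) ℝ} {a b c : V} {m g : ℝ}

lemma bil_vecMul (A : Matrix (Fin 3) (Fin 3) ℝ) (p q : V) :
    bil A p q = q ⬝ᵥ Matrix.vecMul p A := by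
  simp only [bil, dotProduct, Matrix.mulVec, Matrix.vecMul, Fin.sum_univ_three]
  ring

lemma Alt.cc (h : Alt A c m) (hf : Frame a b c) : |bil A c c| ≤ 3 * m := by
  rcases h with h | h
  · exact abs_dot_le h hf.rot.rot.le_one
  · rw [bil_vecMul]
    exact abs_dot_le h hf.rot.rot.le_one

lemma Alt.m_nonneg (h : Alt A c m) : 0 ≤ m := by
  rcases h with h | h
  · exact (abs_nonneg _).trans (h 0)
  · exact (abs_nonneg _).trans (h 0)

/-- The four mixed entries. -/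
lemma Alt.mixed (h : Alt A c m) (hf : Frame a b c) :
    |bil A a c| ≤ 3 * m + |cv A ⬝ᵥ b| ∧ |bil A b c| ≤ 3 * m + |cv A ⬝ᵥ a| ∧
    |bil A c a| ≤ 3 * m + |cv A ⬝ᵥ b| ∧ |bil A c b| ≤ 3 * m + |cv A ⬝ᵥ a| := by
  have ha := hf.cv_a A
  have hb := hf.cv_b A
  have n1 := abs_nonneg (cv A ⬝ᵥ a)
  have n2 := abs_nonneg (cv A ⬝ᵥ b)
  rcases h with h | h
  · have h1 : |bil A a c| ≤ 3 * m := abs_dot_le h hf.le_one
    have h2 : |bil A b c| ≤ 3 * m := abs_dot_le h hf.rot.le_one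
    have e1 : bil A c a = bil A a c - cv A ⬝ᵥ b := by rw [hb]; ring
    have e2 : bil A c b = bil A b c + cv A ⬝ᵥ a := by rw [ha]; ring
    refine ⟨by linarith, by linarith, ?_, ?_⟩
    · rw [e1]
      have := abs_sub (bil A a c) (cv A ⬝ᵥ b)
      linarith
    · rw [e2]
      have := abs_add_le (bil A b c) (cv A ⬝ᵥ a)
      linarith
  · have h1 : |bil A c a| ≤ 3 * m := by
      rw [bil_vecMul]
      exact abs_dot_le h hf.le_one
    have h2 : |bil A c b| ≤ 3 * m := by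
      rw [bil_vecMul]
      exact abs_dot_le h hf.rot.le_one
    have e1 : bil A a c = bil A c a + cv A ⬝ᵥ b := by rw [hb]; ring
    have e2 : bil A b c = bil A c b - cv A ⬝ᵥ a := by rw [ha]; ring
    refine ⟨?_, ?_, by linarith, by linarith⟩
    · rw [e1]
      have := abs_add_le (bil A c a) (cv A ⬝ᵥ b)
      linarith
    · rw [e2]
      have := abs_sub (bil A c b) (cv A ⬝ᵥ a)
      linarith

lemma abs_cv_le (hA : ∀ i j, |A i j| ≤ g) (hf : Frame a b c) :
    |cv A ⬝ᵥ a| ≤ 18 * g ∧ |cv A ⬝ᵥ b| ≤ 18 * g ∧ |cv A ⬝ᵥ c| ≤ 18 * g := by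
  have ha := hf.le_one
  have hb := hf.rot.le_one
  have hc := hf.rot.rot.le_one
  rw [hf.cv_a, hf.cv_b, hf.cv_c]
  have h1 := abs_bil_le hA hc hb
  have h2 := abs_bil_le hA hb hc
  have h3 := abs_bil_le hA ha hc
  have h4 := abs_bil_le hA hc ha
  have h5 := abs_bil_le hA hb ha
  have h6 := abs_bil_le hA ha hb
  refine ⟨?_, ?_, ?_⟩
  · exact (abs_sub _ _).trans (by linarith)
  · exact (abs_sub _ _).trans (by linarith)
  · exact (abs_sub _ _).trans (by linarith)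

/-- The rate of change of `ω · c`. -/
lemma Alt.rate (h : Alt A c m) (hf : Frame a b c) (hA : ∀ i j, |A i j| ≤ g) :
    |bil A c (cv A)| ≤ 108 * (m * g) := by
  have hm := h.m_nonneg
  have hg : 0 ≤ g := (abs_nonneg _).trans (hA 0 0)
  have ha := hf.le_one
  have hb := hf.rot.le_one
  have hc := hf.rot.rot.le_one
  have hcc := h.cc hf
  have hω := (abs_cv_le hA hf).2.2
  rw [hf.stretch_c]
  have t3 : |bil A c c * (cv A ⬝ᵥ c)| ≤ 54 * (m * g) := by
    rw [abs_mul]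
    calc |bil A c c| * |cv A ⬝ᵥ c| ≤ (3 * m) * (18 * g) :=
          mul_le_mul hcc hω (abs_nonneg _) (by positivity)
      _ = 54 * (m * g) := by ring
  have t12 : |bil A c a * bil A b c| ≤ 27 * (m * g) ∧ |bil A c b * bil A a c| ≤ 27 * (m * g) := by
    rw [abs_mul, abs_mul]
    rcases h with h | h
    · have h1 : |bil A a c| ≤ 3 * m := abs_dot_le h hf.le_one
      have h2 : |bil A b c| ≤ 3 * m := abs_dot_le h hf.rot.le_one
      constructor
      · calc |bil A c a| * |bil A b c| ≤ (9 * g) * (3 * m) :=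
              mul_le_mul (abs_bil_le hA hc ha) h2 (abs_nonneg _) (by positivity)
          _ = 27 * (m * g) := by ring
      · calc |bil A c b| * |bil A a c| ≤ (9 * g) * (3 * m) :=
              mul_le_mul (abs_bil_le hA hc hb) h1 (abs_nonneg _) (by positivity)
          _ = 27 * (m * g) := by ring
    · have h1 : |bil A c a| ≤ 3 * m := by
        rw [bil_vecMul]
        exact abs_dot_le h hf.le_one
      have h2 : |bil A c b| ≤ 3 * m := by
        rw [bil_vecMul]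
        exact abs_dot_le h hf.rot.le_one
      constructor
      · calc |bil A c a| * |bil A b c| ≤ (3 * m) * (9 * g) :=
              mul_le_mul h1 (abs_bil_le hA hb hc) (abs_nonneg _) (by positivity)
          _ = 27 * (m * g) := by ring
      · calc |bil A c b| * |bil A a c| ≤ (3 * m) * (9 * g) :=
              mul_le_mul h2 (abs_bil_le hA ha hc) (abs_nonneg _) (by positivity)
          _ = 27 * (m * g) := by ring
  have := abs_add_le (-(bil A c a * bil A b c) + bil A c b * bil A a c) (bil A c c * (cv A ⬝ᵥ c))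
  have h6 := abs_add_le (-(bil A c a * bil A b c)) (bil A c b * bil A a c)
  rw [abs_neg] at h6
  linarith [t12.1, t12.2]

/-- The rate of change of the planar part of the vorticity at a contact point. -/
lemma Alt.rate2 (h : Alt A c m) (hf : Frame a b c) {κ W H : ℝ} (hκ0 : 0 ≤ κ)
    (hκ : |bil A a a| ≤ κ ∧ |bil A a b| ≤ κ ∧ |bil A b a| ≤ κ ∧ |bil A b b| ≤ κ)
    (hW : |cv A ⬝ᵥ c| ≤ W) (hH : 0 ≤ H) (hQ : (cv A ⬝ᵥ a) ^ 2 + (cv A ⬝ᵥ b) ^ 2 = H ^ 2) :
    2 * (cv A ⬝ᵥ a) * bil A a (cv A) + 2 * (cv A ⬝ᵥ b) * bil A b (cv A)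
      ≤ 2 * H * ((2 * κ + W) * H + 6 * (m * W)) := by
  have hm := h.m_nonneg
  obtain ⟨x1, x2, -, -⟩ := h.mixed hf
  obtain ⟨k1, k2, k3, k4⟩ := hκ
  rw [hf.bil_expand A a (cv A), hf.bil_expand A b (cv A)]
  set x := cv A ⬝ᵥ a
  set y := cv A ⬝ᵥ b
  set w := cv A ⬝ᵥ c
  have hW0 : 0 ≤ W := (abs_nonneg _).trans hW
  have hx : |x| ≤ H := abs_le_of_sq_le_sq (by nlinarith [sq_nonneg y]) hH
  have hy : |y| ≤ H := abs_le_of_sq_le_sq (by nlinarith [sq_nonneg x]) hH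
  have sx := abs_nonneg x
  have sy := abs_nonneg y
  have hxy : 2 * (|x| * |y|) ≤ H ^ 2 := by
    rw [← hQ, ← sq_abs x, ← sq_abs y]
    nlinarith [sq_nonneg (|x| - |y|)]
  have key : ∀ r s t : ℝ, ∀ {p q n : ℝ}, |r| ≤ p → |s| ≤ q → |t| ≤ n → r * s * t ≤ p * q * n := by
    intro r s t p q n hr hs ht
    calc r * s * t ≤ |r * s * t| := le_abs_self _
      _ = |r| * |s| * |t| := by rw [abs_mul, abs_mul]
      _ ≤ p * q * n := by
          have hp := (abs_nonneg r).trans hr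
          have hq := (abs_nonneg s).trans hs
          exact mul_le_mul (mul_le_mul hr hs (abs_nonneg _) hp) ht (abs_nonneg _) (by positivity)
  have t1 : x * x * bil A a a ≤ |x| * |x| * κ := key _ _ _ le_rfl le_rfl k1
  have t2 : x * y * bil A a b ≤ |x| * |y| * κ := key _ _ _ le_rfl le_rfl k2
  have t3 : y * x * bil A b a ≤ |y| * |x| * κ := key _ _ _ le_rfl le_rfl k3
  have t4 : y * y * bil A b b ≤ |y| * |y| * κ := key _ _ _ le_rfl le_rfl k4
  have t5 : x * w * bil A a c ≤ |x| * W * (3 * m + |y|) := key _ _ _ le_rfl hW x1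
  have t6 : y * w * bil A b c ≤ |y| * W * (3 * m + |x|) := key _ _ _ le_rfl hW x2
  have e1 : |x| * |x| + |y| * |y| = H ^ 2 := by
    rw [← hQ, ← sq_abs x, ← sq_abs y]
    ring
  have f1 : |x| * |x| * κ + |x| * |y| * κ + |y| * |x| * κ + |y| * |y| * κ ≤ 2 * H ^ 2 * κ := by
    nlinarith
  have f2 : |x| * W * (3 * m + |y|) + |y| * W * (3 * m + |x|)
      ≤ 6 * (m * W) * H + W * H ^ 2 := by
    have g1 : |x| * (W * (3 * m)) ≤ H * (W * (3 * m)) := by gcongr
    have g2 : |y| * (W * (3 * m)) ≤ H * (W * (3 * m)) := by gcongr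
    have g3 : W * (2 * (|x| * |y|)) ≤ W * H ^ 2 := by gcongr
    nlinarith
  nlinarith

/-- The whole gradient. -/
lemma Alt.total (h : Alt A c m) (hf : Frame a b c) {κ H : ℝ}
    (hκ : |bil A a a| ≤ κ ∧ |bil A a b| ≤ κ ∧ |bil A b a| ≤ κ ∧ |bil A b b| ≤ κ)
    (hH : 0 ≤ H) (hQ : (cv A ⬝ᵥ a) ^ 2 + (cv A ⬝ᵥ b) ^ 2 ≤ H ^ 2) (i j : Fin 3) :
    |A i j| ≤ 4 * κ + 15 * m + 4 * H := by
  obtain ⟨x1, x2, x3, x4⟩ := h.mixed hf
  obtain ⟨k1, k2, k3, k4⟩ := hκ
  have hcc := h.cc hf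
  have hx : |cv A ⬝ᵥ a| ≤ H :=
    abs_le_of_sq_le_sq (by nlinarith [sq_nonneg (cv A ⬝ᵥ b)]) hH
  have hy : |cv A ⬝ᵥ b| ≤ H :=
    abs_le_of_sq_le_sq (by nlinarith [sq_nonneg (cv A ⬝ᵥ a)]) hH
  have := hf.entry A i j
  linarith

end alg

end Pool.Agent.Helper29.Dir
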