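import Pool.Agent.Helper29.Dir.Lag

/-!
# Bounds of the vorticity along the trajectories: the differential inequalities
-/

set_option autoImplicit false

open MeasureTheory Set Filter Topology

namespace Pool.Agent.Helper29.Dir

open Pool.Agent.H708R2.EulerSign Pool.Agent.H708R2.EulerTypeI

/-- The hypotheses. -/
structure Hyp (T : ℝ) (u : ℝ → V → V) (a b c : V) (g al L : ℝ → ℝ) (s : ℝ) : Prop where
  hs : s ∈ Ioo 0 T
  frame : Frame a b c
  gc : ContinuousOn g (Ico s T)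
  alc : ContinuousOn al (Ico s T)
  Lc : ContinuousOn L (Ico s T)
  gb : ∀ t ∈ Ico s T, ∀ x i j, |grad (u t) x i j| ≤ g t
  alt : ∀ t ∈ Ico s T, ∀ x, Alt (grad (u t) x) c (al t)
  lb : ∀ t ∈ Ico s T, ∃ N0 N1 N2 : ℝ, (∀ x, ‖u t x‖ ≤ N0) ∧ (∀ x, ‖fderiv ℝ (u t) x‖ ≤ N1) ∧
    (∀ x, ‖fderiv ℝ (fderiv ℝ (u t)) x‖ ≤ N2) ∧ Real.log (1 + N0) + Real.log (1 + N2) ≤ L t

variable {T s : ℝ} {u : ℝ → V → V} {p : ℝ → V → ℝ} {a b c : V} {g al L : ℝ → ℝ}

namespace Hyp

variable (H : Hyp T u a b c g al L s)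

include H

lemma g0 {t : ℝ} (ht : t ∈ Ico s T) : 0 ≤ g t := (abs_nonneg _).trans (H.gb t ht 0 0 0)

lemma al0 {t : ℝ} (ht : t ∈ Ico s T) : 0 ≤ al t := (H.alt t ht 0).m_nonneg

lemma L0 {t : ℝ} (ht : t ∈ Ico s T) : 0 ≤ L t := by
  obtain ⟨N0, N1, N2, h0, h1, h2, h3⟩ := H.lb t ht
  have hN0 : 0 ≤ N0 := (norm_nonneg _).trans (h0 0)
  have hN2 : 0 ≤ N2 := (norm_nonneg (fderiv ℝ (fderiv ℝ (u t)) 0)).trans (h2 0)
  have k1 := Real.log_nonneg (show (1 : ℝ) ≤ 1 + N0 by linarith)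
  have k2 := Real.log_nonneg (show (1 : ℝ) ≤ 1 + N2 by linarith)
  linarith

lemma mem_s : s ∈ Ico s T := ⟨le_rfl, H.hs.2⟩

lemma agc : ContinuousOn (fun r => al r * g r) (Ico s T) := H.alc.mul H.gc

lemma Wc : ContinuousOn (Wf g al s) (Ico s T) :=
  continuousOn_const.add (continuousOn_const.mul (prim_cont H.agc))

lemma W0 {t : ℝ} (ht : t ∈ Ico s T) : 0 ≤ Wf g al s t := by
  have h1 := prim_nonneg (φ := fun r => al r * g r)
    (fun r hr => mul_nonneg (H.al0 hr) (H.g0 hr)) ht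
  have h2 := H.g0 H.mem_s
  unfold Wf
  positivity

lemma kc : ContinuousOn (kap g al L s) (Ico s T) :=
  continuousOn_const.add ((H.Wc.add (continuousOn_const.mul H.alc)).mul
    ((continuousOn_const.mul H.Lc).add continuousOn_const))

lemma k0 {t : ℝ} (ht : t ∈ Ico s T) : 0 ≤ kap g al L s t := by
  have h1 := H.W0 ht
  have h2 := H.al0 ht
  have h3 := H.L0 ht
  unfold kap
  positivity

lemma Kc : ContinuousOn (Kf g al L s) (Ico s T) :=
  ((continuousOn_const.mul H.kc).add H.Wc).add continuousOn_const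

lemma K0 {t : ℝ} (ht : t ∈ Ico s T) : 0 ≤ Kf g al L s t := by
  have h1 := H.W0 ht
  have h2 := H.k0 ht
  unfold Kf
  positivity

lemma yc : ContinuousOn (fun r => 6 * (al r * Wf g al s r)) (Ico s T) :=
  continuousOn_const.mul (H.alc.mul H.Wc)

lemma Y0 {t : ℝ} (ht : t ∈ Ico s T) : 0 ≤ Yf g al s t :=
  prim_nonneg (fun r hr => mul_nonneg (by norm_num) (mul_nonneg (H.al0 hr) (H.W0 hr))) ht

lemma H0 {t : ℝ} (ht : t ∈ Ico s T) : 0 < Hf g al L s t := by
  have h1 := H.Y0 ht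
  have h2 := H.g0 H.mem_s
  unfold Hf
  positivity

lemma Hc : ContinuousOn (Hf g al L s) (Ico s T) :=
  (Real.continuous_exp.comp_continuousOn (prim_cont H.Kc)).mul
    (continuousOn_const.add (prim_cont H.yc))

/-- The component `ω · c`. -/
lemma vort_c (h : IsC2Solution T u p) {t : ℝ} (ht : t ∈ Ico s T) (x : V) :
    |vort (u t) x ⬝ᵥ c| ≤ Wf g al s t := by
  obtain ⟨X, hX, hXx⟩ := exists_traj h.sol H.hs.1.le ht.1 ht.2 x
  have hsub : Icc s t ⊆ Ioo 0 T := fun r hr => ⟨H.hs.1.trans_le hr.1, hr.2.trans_lt ht.2⟩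
  have hsub2 : Icc s t ⊆ Ico s T := fun r hr => ⟨hr.1, hr.2.trans_lt ht.2⟩
  have hd : ∀ r ∈ Icc s t, HasDerivWithinAt (fun r => vort (u r) (X r) ⬝ᵥ c)
      (bil (grad (u r) (X r)) c (vort (u r) (X r))) (Icc s t) r := by
    intro r hr
    have h1 := vort_deriv h hX hsub hr
    have h2 : HasDerivWithinAt (fun r => ∑ i, vort (u r) (X r) i * c i)
        (∑ i, (grad (u r) (X r)).mulVec (vort (u r) (X r)) i * c i) (Icc s t) r :=
      HasDerivWithinAt.fun_sum fun i _ => (hasDerivWithinAt_pi.1 h1 i).mul_const (c i)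
    refine h2.congr_deriv ?_
    unfold bil
    rw [dotProduct]
    exact Finset.sum_congr rfl fun i _ => mul_comm _ _
  have key := image_norm_le_of_norm_deriv_right_le_deriv_boundary'
    (f := fun r => vort (u r) (X r) ⬝ᵥ c) (f' := fun r => bil (grad (u r) (X r)) c (vort (u r) (X r)))
    (a := s) (b := t) (fun r hr => (hd r hr).continuousWithinAt)
    (fun r hr => right_of_Icc hr (hd r (Ico_subset_Icc_self hr)))
    (B := Wf g al s) (B' := fun r => 108 * (al r * g r)) ?_ (H.Wc.mono hsub2) ?_ ?_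
    (right_mem_Icc.2 ht.1)
  · rw [Real.norm_eq_abs] at key
    simpa only [hXx] using key
  · rw [Real.norm_eq_abs]
    have h3 := (abs_cv_le (H.gb s H.mem_s (X s)) H.frame).2.2
    rw [← vort_eq] at h3
    refine h3.trans ?_
    unfold Wf
    simp
  · intro r hr
    have h4 := (prim_right H.agc (hsub2 (Ico_subset_Icc_self hr))).const_mul 108
    exact h4.const_add (18 * g s)
  · intro r hr
    have hr' := hsub2 (Ico_subset_Icc_self hr)
    rw [Real.norm_eq_abs]
    exact (H.alt r hr' (X r)).rate H.frame (H.gb r hr' (X r))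

/-- The planar block of the gradient. -/
lemma block (h : IsC2Solution T u p) {t : ℝ} (ht : t ∈ Ico s T) (x : V) :
    |bil (grad (u t) x) a a| ≤ kap g al L s t ∧ |bil (grad (u t) x) a b| ≤ kap g al L s t ∧
    |bil (grad (u t) x) b a| ≤ kap g al L s t ∧ |bil (grad (u t) x) b b| ≤ kap g al L s t := by
  obtain ⟨N0, N1, N2, h0, h1, h2, h3⟩ := H.lb t ht
  have ht' : t ∈ Ioo 0 T := ⟨H.hs.1.trans_le ht.1, ht.2⟩
  have hv : ContDiff ℝ 2 (u t) := by
    have e : u t = (fun z : ℝ × V => u z.1 z.2) ∘ fun y : V => (t, y) := rfl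
    rw [e, ← contDiffOn_univ]
    exact h.u2.comp (contDiff_const.prodMk contDiff_id).contDiffOn fun y _ => ⟨ht', mem_univ _⟩
  have al0 := H.al0 ht
  have W0 := H.W0 ht
  refine block_le hv (h.sol.div_free t ⟨ht'.1.le, ht'.2⟩) h0 h1 h2 H.frame
    (σ := Wf g al s t + 3 * al t) (fun y => ?_) (fun y => ?_) h3 x
  · have := (H.alt t ht y).cc H.frame
    linarith
  · have := H.vort_c h ht y
    linarith

/-- The planar components of the vorticity. -/
lemma vort_ab (h : IsC2Solution T u p) {t : ℝ} (ht : t ∈ Ico s T) (x : V) :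
    (vort (u t) x ⬝ᵥ a) ^ 2 + (vort (u t) x ⬝ᵥ b) ^ 2 ≤ Hf g al L s t ^ 2 := by
  obtain ⟨X, hX, hXx⟩ := exists_traj h.sol H.hs.1.le ht.1 ht.2 x
  have hsub : Icc s t ⊆ Ioo 0 T := fun r hr => ⟨H.hs.1.trans_le hr.1, hr.2.trans_lt ht.2⟩
  have hsub2 : Icc s t ⊆ Ico s T := fun r hr => ⟨hr.1, hr.2.trans_lt ht.2⟩
  have hd0 : ∀ (q : V), ∀ r ∈ Icc s t, HasDerivWithinAt (fun r => vort (u r) (X r) ⬝ᵥ q)
      (bil (grad (u r) (X r)) q (vort (u r) (X r))) (Icc s t) r := by
    intro q r hr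
    have h1 := vort_deriv h hX hsub hr
    have h2 : HasDerivWithinAt (fun r => ∑ i, vort (u r) (X r) i * q i)
        (∑ i, (grad (u r) (X r)).mulVec (vort (u r) (X r)) i * q i) (Icc s t) r :=
      HasDerivWithinAt.fun_sum fun i _ => (hasDerivWithinAt_pi.1 h1 i).mul_const (q i)
    refine h2.congr_deriv ?_
    unfold bil
    rw [dotProduct]
    exact Finset.sum_congr rfl fun i _ => mul_comm _ _
  have hd : ∀ r ∈ Icc s t, HasDerivWithinAt
      (fun r => (vort (u r) (X r) ⬝ᵥ a) ^ 2 + (vort (u r) (X r) ⬝ᵥ b) ^ 2)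
      (2 * (vort (u r) (X r) ⬝ᵥ a) * bil (grad (u r) (X r)) a (vort (u r) (X r))
        + 2 * (vort (u r) (X r) ⬝ᵥ b) * bil (grad (u r) (X r)) b (vort (u r) (X r)))
      (Icc s t) r := by
    intro r hr
    have h1 := ((hd0 a r hr).fun_pow 2).fun_add ((hd0 b r hr).fun_pow 2)
    refine h1.congr_deriv ?_
    norm_num
  have hH' : ∀ r ∈ Ico s t, HasDerivWithinAt (fun r => Hf g al L s r ^ 2)
      (2 * Hf g al L s r * (Kf g al L s r * Hf g al L s r
        + Real.exp (∫ q in s..r, Kf g al L s q) * (6 * (al r * Wf g al s r)))) (Ici r) r := by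
    intro r hr
    have hr' := hsub2 (Ico_subset_Icc_self hr)
    have e1 := (prim_right H.Kc hr').exp
    have e2 := (prim_right H.yc hr').const_add (36 * g s + 1)
    have e3 := (e1.fun_mul e2).fun_pow 2
    refine e3.congr_deriv ?_
    simp only [Hf, Yf, Nat.add_one_sub_one, pow_one, Nat.cast_ofNat]
    ring
  have key := image_le_of_deriv_right_lt_deriv_boundary'
    (f := fun r => (vort (u r) (X r) ⬝ᵥ a) ^ 2 + (vort (u r) (X r) ⬝ᵥ b) ^ 2)
    (f' := fun r => 2 * (vort (u r) (X r) ⬝ᵥ a) * bil (grad (u r) (X r)) a (vort (u r) (X r))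
        + 2 * (vort (u r) (X r) ⬝ᵥ b) * bil (grad (u r) (X r)) b (vort (u r) (X r)))
    (a := s) (b := t) (fun r hr => (hd r hr).continuousWithinAt)
    (fun r hr => right_of_Icc hr (hd r (Ico_subset_Icc_self hr)))
    (B := fun r => Hf g al L s r ^ 2)
    (B' := fun r => 2 * Hf g al L s r * (Kf g al L s r * Hf g al L s r
        + Real.exp (∫ q in s..r, Kf g al L s q) * (6 * (al r * Wf g al s r))))
    ?_ ((H.Hc.mono hsub2).pow 2) hH' ?_ (right_mem_Icc.2 ht.1)
  · simpa only [hXx] using key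
  · have h3 := abs_cv_le (H.gb s H.mem_s (X s)) H.frame
    rw [← vort_eq] at h3
    have hg := H.g0 H.mem_s
    have e : Hf g al L s s = 36 * g s + 1 := by simp [Hf, Yf]
    show _ ≤ Hf g al L s s ^ 2
    rw [e, ← sq_abs (vort (u s) (X s) ⬝ᵥ a), ← sq_abs (vort (u s) (X s) ⬝ᵥ b)]
    have h4 := h3.1
    have h5 := h3.2.1
    have h6 := abs_nonneg (vort (u s) (X s) ⬝ᵥ a)
    have h7 := abs_nonneg (vort (u s) (X s) ⬝ᵥ b)
    nlinarith
  · intro r hr hcon
    have hr' := hsub2 (Ico_subset_Icc_self hr)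
    have hpos := H.H0 hr'
    have hW := H.W0 hr'
    have hal := H.al0 hr'
    have k0 := H.k0 hr'
    have h8 := (H.alt r hr' (X r)).rate2 H.frame (κ := kap g al L s r) (W := Wf g al s r)
      (H := Hf g al L s r) k0 (H.block h hr' (X r)) (H.vort_c h hr' (X r)) hpos.le hcon
    rw [← vort_eq] at h8
    refine lt_of_le_of_lt h8 ?_
    have h9 : 1 ≤ Real.exp (∫ q in s..r, Kf g al L s q) :=
      Real.one_le_exp (prim_nonneg (fun q hq => H.K0 hq) hr')
    have h10 : 6 * (al r * Wf g al s r)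
        ≤ Real.exp (∫ q in s..r, Kf g al L s q) * (6 * (al r * Wf g al s r)) :=
      le_mul_of_one_le_left (by positivity) h9
    have h11 : (2 * kap g al L s r + Wf g al s r) * Hf g al L s r + 6 * (al r * Wf g al s r)
        < Kf g al L s r * Hf g al L s r
          + Real.exp (∫ q in s..r, Kf g al L s q) * (6 * (al r * Wf g al s r)) := by
      have : Kf g al L s r * Hf g al L s r
          = (2 * kap g al L s r + Wf g al s r) * Hf g al L s r + Hf g al L s r := by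
        unfold Kf
        ring
      linarith
    exact mul_lt_mul_of_pos_left h11 (by positivity)

/-- The bound of the gradient. -/
theorem gradient (h : IsC2Solution T u p) {t : ℝ} (ht : t ∈ Ico s T) (x : V) (i j : Fin 3) :
    |grad (u t) x i j| ≤ Gf g al L s t := by
  have h1 := (H.alt t ht x).total H.frame (H.block h ht x) (H.H0 ht).le (H.vort_ab h ht x) i j
  exact h1

end Hyp

end Pool.Agent.Helper29.Dir
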