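import Pool.Agent.Helper29.Dir.Kato

/-!
# The criterion
-/

set_option autoImplicit false

open MeasureTheory Set Filter Topology
open scoped ContDiff

namespace Pool.Agent.Helper29.Dir

open Pool.Agent.H708R2.EulerSign Pool.Agent.H708R2.EulerTypeI Pool.Agent.W734.NS
open H459R3.NS (pd IsSol Per energy C4)

/-- `1 + ∫₀ᵗ g`. -/
noncomputable def Gam (g : ℝ → ℝ) (t : ℝ) : ℝ := 1 + ∫ r in 0..t, g r

/-- At the point `x` the derivative of `v` in the direction `e` or the gradient of the component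
`e · v` is at most `m`. -/
def Small (e : V) (v : V → V) (x : V) (m : ℝ) : Prop :=
  (∀ i, |∑ j, e j * pd j (fun y => v y i) x| ≤ m) ∨
    ∀ j, |∑ i, e i * pd j (fun y => v y i) x| ≤ m

variable {T : ℝ} {u : ℝ → V → V} {p : ℝ → V → ℝ} {g al : ℝ → ℝ} {e : V}

/-- The shift of the time. -/
lemma sol_shift (h : IsSol 0 T u p) {t₀ : ℝ} (ht₀ : 0 ≤ t₀) :
    IsSol 0 (T - t₀) (fun t => u (t + t₀)) (fun t => p (t + t₀)) := by
  have hmaps : MapsTo (fun z : ℝ × V => (z.1 + t₀, z.2)) (Ico 0 (T - t₀) ×ˢ univ)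
      (Ico 0 T ×ˢ univ) := fun z hz =>
    ⟨⟨add_nonneg hz.1.1 ht₀, by have := hz.1.2; simp only; linarith⟩, mem_univ _⟩
  have hc : ContDiff ℝ ∞ (fun z : ℝ × V => (z.1 + t₀, z.2)) :=
    (contDiff_fst.add contDiff_const).prodMk contDiff_snd
  have hI : ∀ t ∈ Ico 0 (T - t₀), t + t₀ ∈ Ico 0 T := fun t ht =>
    ⟨add_nonneg ht.1 ht₀, by linarith [ht.2]⟩
  refine ⟨h.smooth_u.comp hc.contDiffOn hmaps, h.smooth_p.comp hc.contDiffOn hmaps,
    fun t ht => h.per_u _ (hI t ht), fun t ht => h.per_p _ (hI t ht),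
    fun t ht => h.divfree _ (hI t ht), ?_⟩
  intro t ht x i
  have h1 := h.momentum (t + t₀) ⟨by linarith [ht.1], by linarith [ht.2]⟩ x i
  have h2 : deriv (fun s => u (s + t₀) x i) t = deriv (fun s => u s x i) (t + t₀) :=
    deriv_comp_add_const (f := fun s => u s x i) t₀ t
  rw [h2]
  exact h1

lemma norm_fderiv_le {v : V → V} (hv : ContDiff ℝ ∞ v) {x : V} {B : ℝ}
    (hB : ∀ i j, |pd j (fun y => v y i) x| ≤ B) : ‖fderiv ℝ v x‖ ≤ 3 * B := by
  have hB0 : 0 ≤ B := (abs_nonneg _).trans (hB 0 0)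
  have hdv : DifferentiableAt ℝ v x := (hv.differentiable (by simp)) x
  refine ContinuousLinearMap.opNorm_le_bound _ (by positivity) fun w => ?_
  rw [pi_norm_le_iff_of_nonneg (by positivity)]
  intro i
  have e : fderiv ℝ v x w i = ∑ j, w j * pd j (fun y => v y i) x := by
    conv_lhs => rw [sum_single w]
    rw [map_sum, Finset.sum_apply]
    refine Finset.sum_congr rfl fun j _ => ?_
    rw [map_smul, Pi.smul_apply, smul_eq_mul]
    congr 1
    exact (comp_fderiv hdv i _).symm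
  rw [Real.norm_eq_abs, e]
  refine (Finset.abs_sum_le_sum_abs _ _).trans ?_
  refine (Finset.sum_le_card_nsmul _ _ (‖w‖ * B) fun j _ => ?_).trans (le_of_eq (by simp; ring))
  rw [abs_mul]
  exact mul_le_mul (norm_le_pi_norm w j) (hB i j) (abs_nonneg _) (norm_nonneg _)

lemma log_le {A B q y : ℝ} (hA : 0 ≤ A) (hB : 0 ≤ B) (hq : 0 ≤ q) (hy : 0 ≤ y)
    (h : q ≤ Real.exp y) : Real.log (1 + (A + B * q)) ≤ Real.log (1 + A + B) + y := by
  have h1 : 1 ≤ Real.exp y := Real.one_le_exp hy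
  have h2 : 1 + (A + B * q) ≤ (1 + A + B) * Real.exp y := by nlinarith
  calc Real.log (1 + (A + B * q)) ≤ Real.log ((1 + A + B) * Real.exp y) :=
        Real.log_le_log (by positivity) h2
    _ = Real.log (1 + A + B) + y := by
        rw [Real.log_mul (by positivity) (Real.exp_pos _).ne', Real.log_exp]

lemma int_shift_le {φ : ℝ → ℝ} (hφ : ∀ t ∈ Ioo 0 T, 0 ≤ φ t) (hi : IntegrableOn φ (Ioo 0 T))
    {s₁ s t : ℝ} (h0 : 0 ≤ s + s₁) (hst : s ≤ t) (ht : t + s₁ < T) :
    ∫ r in s..t, φ (r + s₁) ≤ ∫ r in Ioo 0 T, φ r := by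
  rw [intervalIntegral.integral_comp_add_right (f := φ), intervalIntegral.integral_of_le (by linarith),
    integral_Ioc_eq_integral_Ioo]
  refine setIntegral_mono_set hi ?_ ?_
  · exact (ae_restrict_iff' measurableSet_Ioo).2 (Eventually.of_forall hφ)
  · exact (Ioo_subset_Ioo h0 ht.le).eventuallyLE

lemma sqrt_le_exp {q y : ℝ} (hy : 0 ≤ y) (h : q ≤ Real.exp y) : Real.sqrt q ≤ Real.exp y := by
  have h1 : 1 ≤ Real.exp y := Real.one_le_exp hy
  refine Real.sqrt_le_iff.2 ⟨(Real.exp_pos _).le, h.trans ?_⟩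
  nlinarith

/-- The criterion. -/
theorem criterion (h : IsSol 0 T u p) (hT : 0 < T) (he : e ⬝ᵥ e = 1)
    (hgc : ContinuousOn g (Ico 0 T)) (halc : ContinuousOn al (Ico 0 T))
    (hg : ∀ t ∈ Ico 0 T, ∀ i j x, |pd j (fun y => u t y i) x| ≤ g t)
    (halt : ∀ t ∈ Ico 0 T, ∀ x, Small e (u t) x (al t))
    (h1 : IntegrableOn (Gam g) (Ioo 0 T))
    (h2 : IntegrableOn (fun t => al t * Gam g t) (Ioo 0 T))
    (h3 : IntegrableOn (fun t => al t * g t * ∫ r in Ioo t T, Gam g r) (Ioo 0 T)) (r : ℕ) :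
    ∃ B : ℝ, ∀ t ∈ Ico 0 T, hn (r + 2) (u t) ≤ B := by
  obtain ⟨a, b, hf⟩ := exists_frame he
  set s₁ : ℝ := T / 4 with hs₁
  have hs10 : 0 < s₁ := by positivity
  have hs1 : s₁ ∈ Ioo 0 T := ⟨hs10, by linarith⟩
  have hg0 : ∀ t ∈ Ico 0 T, 0 ≤ g t := fun t ht => (abs_nonneg _).trans (hg t ht 0 0 0)
  have hal0 : ∀ t ∈ Ico 0 T, 0 ≤ al t := fun t ht => by
    rcases halt t ht 0 with h | h
    · exact (abs_nonneg _).trans (h 0)
    · exact (abs_nonneg _).trans (h 0)
  have hGc : ContinuousOn (Gam g) (Ico 0 T) := continuousOn_const.add (prim_cont hgc)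
  have hG1 : ∀ t ∈ Ico 0 T, 1 ≤ Gam g t := fun t ht => by
    have := prim_nonneg hg0 ht
    unfold Gam
    linarith
  have hmem : ∀ t ∈ Ico s₁ (T - s₁), t + s₁ ∈ Ico 0 T := fun t ht =>
    ⟨by linarith [ht.1], by linarith [ht.2]⟩
  have hshc : ContinuousOn (fun t : ℝ => t + s₁) (Ico s₁ (T - s₁)) :=
    (continuous_id.add continuous_const).continuousOn
  obtain ⟨Λ0, hΛ0, hexp⟩ := hn_exp 0 h hgc hg hs1
  set A0 : ℝ := tp * Real.sqrt (energy (u 0)) with hA0
  set B0 : ℝ := tp * Real.sqrt C4 with hB0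
  set B2 : ℝ := 9 * (1 + Real.sqrt C4) with hB2
  have tp0 := tp_pos
  have hA0n : 0 ≤ A0 := by positivity
  have hB0n : 0 ≤ B0 := by positivity
  have hB2n : 0 ≤ B2 := by positivity
  set Λ : ℝ := Real.log (1 + A0 + B0) + Real.log (1 + 0 + B2) + 2 * Λ0 with hΛ
  have hl1 : 0 ≤ Real.log (1 + A0 + B0) := Real.log_nonneg (by linarith)
  have hl2 : 0 ≤ Real.log (1 + 0 + B2) := Real.log_nonneg (by linarith)
  have hΛn : 0 ≤ Λ := by positivity
  have H : Hyp (T - s₁) (Us s₁ u) a b e (fun t => g (t + s₁)) (fun t => al (t + s₁))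
      (fun t => Λ * Gam g (t + s₁)) s₁ := by
    refine ⟨⟨hs10, by linarith⟩, hf, hgc.comp hshc hmem, halc.comp hshc hmem,
      continuousOn_const.mul (hGc.comp hshc hmem), ?_, ?_, ?_⟩
    · intro t ht x i j
      rw [Us_grad h (hmem t ht)]
      exact hg _ (hmem t ht) i j _
    · intro t ht x
      rcases halt _ (hmem t ht) (tp⁻¹ • x) with h4 | h4
      · left
        intro i
        refine le_trans (le_of_eq ?_) (h4 i)
        congr 1
        simp only [Matrix.mulVec, dotProduct]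
        refine Finset.sum_congr rfl fun j _ => ?_
        rw [Us_grad h (hmem t ht)]
        ring
      · right
        intro j
        refine le_trans (le_of_eq ?_) (h4 j)
        congr 1
        simp only [Matrix.vecMul, dotProduct]
        refine Finset.sum_congr rfl fun i _ => ?_
        rw [Us_grad h (hmem t ht)]
    · intro t ht
      have hm := hmem t ht
      have hG := hG1 _ hm
      have hhn : hn 2 (u (t + s₁)) ≤ Real.exp (Λ0 * Gam g (t + s₁)) :=
        hexp _ ⟨by linarith [ht.1], hm.2⟩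
      have hy : 0 ≤ Λ0 * Gam g (t + s₁) := by positivity
      have hq := sqrt_le_exp hy hhn
      have hq0 : 0 ≤ Real.sqrt (hn 2 (u (t + s₁))) := Real.sqrt_nonneg _
      refine ⟨A0 + B0 * Real.sqrt (hn 2 (u (t + s₁))), 3 * g (t + s₁),
        0 + B2 * Real.sqrt (hn 2 (u (t + s₁))), ?_, ?_, ?_, ?_⟩
      · intro x
        have h5 := Us_norm (s₁ := s₁) (u := u) (t := t) (fun x i => sup0 h hm i x) x
        refine h5.trans (le_of_eq ?_)
        rw [hA0, hB0]
        ring
      · intro x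
        rw [Us_fderiv h hm]
        exact norm_fderiv_le (smooth_slice h hm) fun i j => hg _ hm i j _
      · intro x
        have h5 := Us_norm2 h hm (fun x i j m => sup2 h hm i j m x) x
        refine h5.trans (le_of_eq ?_)
        rw [hB2]
        ring
      · have k1 := log_le hA0n hB0n hq0 hy hq
        have k2 := log_le le_rfl hB2n hq0 hy hq
        have k3 : Real.log (1 + A0 + B0) ≤ Real.log (1 + A0 + B0) * Gam g (t + s₁) :=
          le_mul_of_one_le_right hl1 hG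
        have k4 : Real.log (1 + 0 + B2) ≤ Real.log (1 + 0 + B2) * Gam g (t + s₁) :=
          le_mul_of_one_le_right hl2 hG
        have k5 : Λ * Gam g (t + s₁) = Real.log (1 + A0 + B0) * Gam g (t + s₁)
            + Real.log (1 + 0 + B2) * Gam g (t + s₁) + 2 * (Λ0 * Gam g (t + s₁)) := by
          rw [hΛ]
          ring
        linarith
  -- the remaining integral of `Γ`
  have hRe : ∀ t ∈ Ico 0 T, ∫ r in Ioo t T, Gam g r
      = (∫ r in Ioo 0 T, Gam g r) - ∫ r in 0..t, Gam g r := by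
    intro t ht
    rw [intervalIntegral.integral_of_le ht.1]
    have e1 : Ioo 0 T = Ioc 0 t ∪ Ioo t T := by
      ext q
      simp only [mem_union, mem_Ioo, mem_Ioc]
      constructor
      · intro hq
        rcases le_or_gt q t with h4 | h4
        · exact Or.inl ⟨hq.1, h4⟩
        · exact Or.inr ⟨h4, hq.2⟩
      · rintro (hq | hq)
        · exact ⟨hq.1, hq.2.trans_lt ht.2⟩
        · exact ⟨ht.1.trans_lt hq.1, hq.2⟩
    have e2 : Disjoint (Ioc 0 t) (Ioo t T) := by
      rw [Set.disjoint_left]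
      exact fun q h4 h5 => absurd h5.1 (not_lt.2 h4.2)
    rw [e1, setIntegral_union e2 measurableSet_Ioo
      (h1.mono_set fun q hq => ⟨hq.1, hq.2.trans_lt ht.2⟩)
      (h1.mono_set fun q hq => ⟨ht.1.trans_lt hq.1, hq.2⟩)]
    ring
  have q1 : ContinuousOn (fun t => ∫ r in Ioo (t + s₁) T, Gam g r) (Ico s₁ (T - s₁)) := by
    have h4 : ContinuousOn (fun t => (∫ r in Ioo 0 T, Gam g r) - ∫ r in 0..t, Gam g r) (Ico 0 T) :=
      continuousOn_const.sub (prim_cont hGc)
    refine (h4.comp hshc hmem).congr fun t ht => ?_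
    exact hRe _ (hmem t ht)
  have q2 : ∀ t ∈ Ico s₁ (T - s₁), ∀ t' ∈ Ico t (T - s₁),
      ∫ r in t..t', Gam g (r + s₁) ≤ ∫ r in Ioo (t + s₁) T, Gam g r := by
    intro t ht t' ht'
    rw [hRe _ (hmem t ht)]
    have ht'm : t' ∈ Ico s₁ (T - s₁) := ⟨ht.1.trans ht'.1, ht'.2⟩
    have e1 : ∫ r in t..t', Gam g (r + s₁) = ∫ r in (t + s₁)..(t' + s₁), Gam g r :=
      intervalIntegral.integral_comp_add_right (f := Gam g) s₁
    have e2 := intervalIntegral.integral_add_adjacent_intervals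
      (ii_of_cont hGc (hmem t ht))
      (ii_sub hGc (hmem t ht).1 (show t + s₁ ≤ t' + s₁ by linarith [ht'.1]) (hmem t' ht'm).2)
    have e3 : ∫ r in 0..(t' + s₁), Gam g r ≤ ∫ r in Ioo 0 T, Gam g r := by
      rw [intervalIntegral.integral_of_le (hmem t' ht'm).1, integral_Ioc_eq_integral_Ioo]
      refine setIntegral_mono_set h1 ?_ ?_
      · exact (ae_restrict_iff' measurableSet_Ioo).2 (Eventually.of_forall fun q hq =>
          zero_le_one.trans (hG1 q (Ioo_subset_Ico_self hq)))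
      · exact (Ioo_subset_Ioo_right (hmem t' ht'm).2.le).eventuallyLE
    rw [e1]
    linarith
  have q3 : ∀ t ∈ Ico s₁ (T - s₁), ∫ r in s₁..t, Gam g (r + s₁) ≤ ∫ t in Ioo 0 T, Gam g t := by
    intro t ht
    exact int_shift_le (φ := Gam g)
      (fun q hq => zero_le_one.trans (hG1 q (Ioo_subset_Ico_self hq))) h1 (by linarith) ht.1
      (hmem t ht).2
  have q4 : ∀ t ∈ Ico s₁ (T - s₁), ∫ r in s₁..t, al (r + s₁) * Gam g (r + s₁)
      ≤ ∫ t in Ioo 0 T, al t * Gam g t := by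
    intro t ht
    exact int_shift_le (φ := fun t => al t * Gam g t)
      (fun q hq => mul_nonneg (hal0 q (Ioo_subset_Ico_self hq))
        (zero_le_one.trans (hG1 q (Ioo_subset_Ico_self hq)))) h2 (by linarith) ht.1
      (hmem t ht).2
  have q5 : ∀ t ∈ Ico s₁ (T - s₁),
      ∫ r in s₁..t, al (r + s₁) * g (r + s₁) * (∫ q in Ioo (r + s₁) T, Gam g q)
      ≤ ∫ t in Ioo 0 T, al t * g t * ∫ r in Ioo t T, Gam g r := by
    intro t ht
    refine int_shift_le (φ := fun t => al t * g t * ∫ r in Ioo t T, Gam g r)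
      (fun q hq => ?_) h3 (by linarith) ht.1 (hmem t ht).2
    refine mul_nonneg (mul_nonneg (hal0 q (Ioo_subset_Ico_self hq))
      (hg0 q (Ioo_subset_Ico_self hq))) ?_
    exact setIntegral_nonneg measurableSet_Ioo fun q' hq' =>
      zero_le_one.trans (hG1 q' ⟨hq.1.le.trans hq'.1.le, hq'.2⟩)
  obtain ⟨C, hC⟩ := time_bound H (Γ := fun t => Gam g (t + s₁))
    (R := fun t => ∫ r in Ioo (t + s₁) T, Gam g r) (Λ := Λ)
    (C1 := ∫ t in Ioo 0 T, Gam g t) (C2 := ∫ t in Ioo 0 T, al t * Gam g t)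
    (C3 := ∫ t in Ioo 0 T, al t * g t * ∫ r in Ioo t T, Gam g r)
    (hGc.comp hshc hmem) q1 (fun t ht => hG1 _ (hmem t ht)) hΛn (fun t ht => le_rfl) q2 q3 q4 q5
  -- the bound of the gradient on the whole interval
  set GG : ℝ → ℝ := Gf (fun t => g (t + s₁)) (fun t => al (t + s₁))
    (fun t => Λ * Gam g (t + s₁)) s₁ with hGG
  have hU : IsC2Solution (T - s₁) (Us s₁ u) (Ps s₁ p) := Us_sol h hs1
  have hGGg := fun t (ht : t ∈ Ico s₁ (T - s₁)) => H.gradient hU ht
  have hGG0 : ∀ t ∈ Ico s₁ (T - s₁), 0 ≤ GG t := fun t ht =>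
    (abs_nonneg _).trans (hGGg t ht 0 0 0)
  have hGGc : ContinuousOn GG (Ico s₁ (T - s₁)) :=
    ((continuousOn_const.mul H.kc).add (continuousOn_const.mul H.alc)).add
      (continuousOn_const.mul H.Hc)
  set t₂ : ℝ := T / 2 with ht₂
  have ht₂s : t₂ = s₁ + s₁ := by rw [ht₂, hs₁]; ring
  set gg : ℝ → ℝ := fun t => g (min t t₂) + GG (max t t₂ - s₁) with hgg
  have ht₂m : t₂ ∈ Ico 0 T := ⟨by positivity, by linarith⟩
  have m1 : ∀ t ∈ Ico 0 T, min t t₂ ∈ Ico 0 T := fun t ht =>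
    ⟨le_min ht.1 ht₂m.1, (min_le_left _ _).trans_lt ht.2⟩
  have m2 : ∀ t ∈ Ico 0 T, max t t₂ - s₁ ∈ Ico s₁ (T - s₁) := fun t ht =>
    ⟨by linarith [le_max_right t t₂], by linarith [max_lt ht.2 ht₂m.2]⟩
  have hggc : ContinuousOn gg (Ico 0 T) :=
    (hgc.comp (continuous_id.min continuous_const).continuousOn m1).add
      (hGGc.comp ((continuous_id.max continuous_const).sub continuous_const).continuousOn m2)
  have hggb : ∀ t ∈ Ico 0 T, ∀ i m x, |pd m (fun y => u t y i) x| ≤ gg t := by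
    intro t ht i m x
    have n1 := hg0 _ (m1 t ht)
    have n2 := hGG0 _ (m2 t ht)
    rcases le_total t t₂ with h4 | h4
    · refine (hg t ht i m x).trans ?_
      have e1 : min t t₂ = t := min_eq_left h4
      simp only [hgg]
      rw [e1] at n1 ⊢
      linarith
    · have e1 : max t t₂ = t := max_eq_left h4
      have h5 : t - s₁ ∈ Ico s₁ (T - s₁) := by
        have := m2 t ht
        rwa [e1] at this
      have h6 := hGGg (t - s₁) h5 (tp • x) i m
      have h7 : (t - s₁) + s₁ ∈ Ico 0 T := by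
        rw [sub_add_cancel]
        exact ht
      rw [Us_grad h h7, sub_add_cancel, inv_smul_smul₀ tp_pos.ne'] at h6
      refine h6.trans ?_
      simp only [hgg]
      rw [e1]
      have n3 := hg0 _ (m1 t ht)
      linarith
  refine hn_bounded r h hT hggc hggb (s := t₂)
    (A := (∫ q in 0..t₂, gg q) + (g t₂ * T + C)) ht₂m fun t ht => ?_
  have ht0 : t ∈ Ico 0 T := ⟨ht₂m.1.trans ht.1, ht.2⟩
  rw [← intervalIntegral.integral_add_adjacent_intervals (ii_of_cont hggc ht₂m)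
    (ii_sub hggc ht₂m.1 ht.1 ht.2)]
  have e1 : ∫ q in t₂..t, gg q = ∫ q in t₂..t, (g t₂ + GG (q - s₁)) := by
    refine intervalIntegral.integral_congr fun q hq => ?_
    rw [uIcc_of_le ht.1] at hq
    simp only [hgg]
    rw [min_eq_right hq.1, max_eq_left hq.1]
  have hsub : t - s₁ ∈ Ico s₁ (T - s₁) := ⟨by linarith [ht.1], by linarith [ht.2]⟩
  have e2 : IntervalIntegrable (fun q => GG (q - s₁)) volume t₂ t := by
    refine ContinuousOn.intervalIntegrable ?_
    rw [uIcc_of_le ht.1]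
    exact hGGc.comp (continuous_id.sub continuous_const).continuousOn fun q hq =>
      ⟨by linarith [hq.1], by linarith [hq.2, ht.2]⟩
  have e3 : ∫ q in t₂..t, GG (q - s₁) = ∫ q in s₁..(t - s₁), GG q := by
    rw [intervalIntegral.integral_comp_sub_right (f := GG)]
    congr 1
    linarith
  rw [e1, intervalIntegral.integral_add intervalIntegrable_const e2, e3,
    intervalIntegral.integral_const, smul_eq_mul]
  have e4 := hC _ hsub
  have e5 : (t - t₂) * g t₂ ≤ g t₂ * T := by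
    have n1 := hg0 _ ht₂m
    nlinarith [ht.2, ht₂m.1]
  linarith

end Pool.Agent.Helper29.Dir
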