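import Pool.Agent.Helper29.Dir.Gauss

/-!
# The logarithmic estimate in the plane
-/

set_option autoImplicit false

open MeasureTheory ProbabilityTheory Set Filter Topology

namespace Pool.Agent.Helper29.Dir

/-- Bounded functions of class `C¹` with bounded derivative. -/
structure BC (f : ℝ × ℝ → ℝ) (M : ℝ) : Prop where
  c1 : ContDiff ℝ 1 f
  b0 : ∀ z, |f z| ≤ M
  b1 : ∀ z, ‖fderiv ℝ f z‖ ≤ M

/-- The derivative in the first variable. -/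
noncomputable def d1 (f : ℝ × ℝ → ℝ) (z : ℝ × ℝ) : ℝ := fderiv ℝ f z (1, 0)

/-- The derivative in the second variable. -/
noncomputable def d2 (f : ℝ × ℝ → ℝ) (z : ℝ × ℝ) : ℝ := fderiv ℝ f z (0, 1)

lemma BC.cont {f : ℝ × ℝ → ℝ} {M : ℝ} (h : BC f M) : Continuous f := h.c1.continuous

lemma BC.M_nonneg {f : ℝ × ℝ → ℝ} {M : ℝ} (h : BC f M) : 0 ≤ M := (abs_nonneg _).trans (h.b0 0)

lemma BC.cd1 {f : ℝ × ℝ → ℝ} {M : ℝ} (h : BC f M) : Continuous (d1 f) :=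
  (h.c1.continuous_fderiv one_ne_zero).clm_apply continuous_const

lemma BC.cd2 {f : ℝ × ℝ → ℝ} {M : ℝ} (h : BC f M) : Continuous (d2 f) :=
  (h.c1.continuous_fderiv one_ne_zero).clm_apply continuous_const

lemma BC.bd1 {f : ℝ × ℝ → ℝ} {M : ℝ} (h : BC f M) (z : ℝ × ℝ) : |d1 f z| ≤ M := by
  have h1 := (fderiv ℝ f z).le_opNorm ((1, 0) : ℝ × ℝ)
  have h2 : ‖((1, 0) : ℝ × ℝ)‖ = 1 := by simp [Prod.norm_def]
  rw [h2, mul_one] at h1
  exact h1.trans (h.b1 z)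

lemma BC.bd2 {f : ℝ × ℝ → ℝ} {M : ℝ} (h : BC f M) (z : ℝ × ℝ) : |d2 f z| ≤ M := by
  have h1 := (fderiv ℝ f z).le_opNorm ((0, 1) : ℝ × ℝ)
  have h2 : ‖((0, 1) : ℝ × ℝ)‖ = 1 := by simp [Prod.norm_def]
  rw [h2, mul_one] at h1
  exact h1.trans (h.b1 z)

lemma BC.has1 {f : ℝ × ℝ → ℝ} {M : ℝ} (h : BC f M) (ρ x y : ℝ) :
    HasDerivAt (fun s => f (ρ * s, ρ * y)) (ρ * d1 f (ρ * x, ρ * y)) x := by
  have h1 : HasFDerivAt f (fderiv ℝ f (ρ * x, ρ * y)) (ρ * x, ρ * y) :=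
    ((h.c1.differentiable one_ne_zero) _).hasFDerivAt
  have h2 : HasDerivAt (fun s : ℝ => ((ρ * s, ρ * y) : ℝ × ℝ)) (ρ, 0) x := by
    refine HasDerivAt.prodMk ?_ (hasDerivAt_const x _)
    simpa using (hasDerivAt_id x).const_mul ρ
  have h3 := h1.comp_hasDerivAt x h2
  refine h3.congr_deriv ?_
  have h4 : ((ρ, 0) : ℝ × ℝ) = ρ • (1, 0) := by simp
  rw [h4, map_smul]
  rfl

lemma BC.has2 {f : ℝ × ℝ → ℝ} {M : ℝ} (h : BC f M) (ρ x y : ℝ) :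
    HasDerivAt (fun s => f (ρ * x, ρ * s)) (ρ * d2 f (ρ * x, ρ * y)) y := by
  have h1 : HasFDerivAt f (fderiv ℝ f (ρ * x, ρ * y)) (ρ * x, ρ * y) :=
    ((h.c1.differentiable one_ne_zero) _).hasFDerivAt
  have h2 : HasDerivAt (fun s : ℝ => ((ρ * x, ρ * s) : ℝ × ℝ)) (0, ρ) y := by
    refine HasDerivAt.prodMk (hasDerivAt_const y _) ?_
    simpa using (hasDerivAt_id y).const_mul ρ
  have h3 := h1.comp_hasDerivAt y h2
  refine h3.congr_deriv ?_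
  have h4 : ((0, ρ) : ℝ × ℝ) = ρ • (0, 1) := by simp
  rw [h4, map_smul]
  rfl

/-- The Gaussian average at the scale `ρ`. -/
noncomputable def Av (f : ℝ × ℝ → ℝ) (ρ : ℝ) : ℝ := ∫ z, f (ρ * z.1, ρ * z.2) ∂g2

section growth

variable {f : ℝ × ℝ → ℝ} {M : ℝ}

lemma one_le_w (x y : ℝ) : 1 ≤ (1 + |x|) * (1 + |y|) := by
  nlinarith [abs_nonneg x, abs_nonneg y, mul_nonneg (abs_nonneg x) (abs_nonneg y)]

lemma fst_le_w (x y : ℝ) : |x| ≤ (1 + |x|) * (1 + |y|) := by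
  nlinarith [abs_nonneg x, abs_nonneg y, mul_nonneg (abs_nonneg x) (abs_nonneg y)]

lemma snd_le_w (x y : ℝ) : |y| ≤ (1 + |x|) * (1 + |y|) := by
  nlinarith [abs_nonneg x, abs_nonneg y, mul_nonneg (abs_nonneg x) (abs_nonneg y)]

lemma mul_le_w (x y : ℝ) : |x * y| ≤ (1 + |x|) * (1 + |y|) := by
  rw [abs_mul]
  nlinarith [abs_nonneg x, abs_nonneg y, mul_nonneg (abs_nonneg x) (abs_nonneg y)]

lemma int_of_w {ψ : ℝ × ℝ → ℝ} (hc : Continuous ψ) {C : ℝ}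
    (hb : ∀ z, |ψ z| ≤ C * ((1 + |z.1|) * (1 + |z.2|))) : Integrable ψ g2 := by
  have hC : 0 ≤ C := by
    have := (abs_nonneg _).trans (hb 0)
    simpa using this
  refine int_poly2 hc (C := C * 4) fun z => (hb z).trans ?_
  calc C * ((1 + |z.1|) * (1 + |z.2|)) ≤ C * (4 * ((1 + z.1 ^ 2) * (1 + z.2 ^ 2))) :=
        mul_le_mul_of_nonneg_left (abs_w z.1 z.2) hC
    _ = C * 4 * ((1 + z.1 ^ 2) * (1 + z.2 ^ 2)) := by ring

end growth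

/-- (a) -/
lemma id_a {P : ℝ × ℝ → ℝ} {M : ℝ} (h : BC P M) (ρ : ℝ) :
    ∫ z, z.1 * (z.1 * P (ρ * z.1, ρ * z.2)) ∂g2
      = ∫ z, (P (ρ * z.1, ρ * z.2) + z.1 * (ρ * d1 P (ρ * z.1, ρ * z.2))) ∂g2 := by
  have hM := h.M_nonneg
  have hP := h.cont
  have hP1 := h.cd1
  refine stein1 (ψ := fun z => z.1 * P (ρ * z.1, ρ * z.2))
    (ψ' := fun z => P (ρ * z.1, ρ * z.2) + z.1 * (ρ * d1 P (ρ * z.1, ρ * z.2)))
    (by fun_prop) (by fun_prop) (fun x y => ?_) (C := M + |ρ| * M) (fun z => ?_) fun z => ?_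
  · have h1 := (hasDerivAt_id x).mul (h.has1 ρ x y)
    refine h1.congr_deriv ?_
    simp only [id, one_mul]
  · rw [abs_mul]
    calc |z.1| * |P (ρ * z.1, ρ * z.2)| ≤ ((1 + |z.1|) * (1 + |z.2|)) * M :=
          mul_le_mul (fst_le_w _ _) (h.b0 _) (abs_nonneg _) (by positivity)
      _ ≤ (M + |ρ| * M) * ((1 + |z.1|) * (1 + |z.2|)) := by
          have : 0 ≤ |ρ| * M * ((1 + |z.1|) * (1 + |z.2|)) := by positivity
          linarith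
  · refine (abs_add_le _ _).trans ?_
    rw [abs_mul, abs_mul]
    have h1 : |P (ρ * z.1, ρ * z.2)| ≤ M * ((1 + |z.1|) * (1 + |z.2|)) :=
      (h.b0 _).trans (le_mul_of_one_le_right hM (one_le_w _ _))
    have h2 : |z.1| * (|ρ| * |d1 P (ρ * z.1, ρ * z.2)|) ≤ ((1 + |z.1|) * (1 + |z.2|)) * (|ρ| * M) :=
      mul_le_mul (fst_le_w _ _) (mul_le_mul_of_nonneg_left (h.bd1 _) (abs_nonneg _))
        (by positivity) (by positivity)
    linarith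

/-- (b), (d) -/
lemma id_b {Q : ℝ × ℝ → ℝ} {M : ℝ} (h : BC Q M) (ρ : ℝ) :
    ∫ z, z.1 * (z.2 * Q (ρ * z.1, ρ * z.2)) ∂g2
      = ∫ z, z.2 * (ρ * d1 Q (ρ * z.1, ρ * z.2)) ∂g2 := by
  have hM := h.M_nonneg
  have hP := h.cont
  have hP1 := h.cd1
  refine stein1 (ψ := fun z => z.2 * Q (ρ * z.1, ρ * z.2))
    (ψ' := fun z => z.2 * (ρ * d1 Q (ρ * z.1, ρ * z.2)))
    (by fun_prop) (by fun_prop) (fun x y => ?_) (C := M + |ρ| * M) (fun z => ?_) fun z => ?_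
  · exact (h.has1 ρ x y).const_mul y
  · rw [abs_mul]
    calc |z.2| * |Q (ρ * z.1, ρ * z.2)| ≤ ((1 + |z.1|) * (1 + |z.2|)) * M :=
          mul_le_mul (snd_le_w _ _) (h.b0 _) (abs_nonneg _) (by positivity)
      _ ≤ (M + |ρ| * M) * ((1 + |z.1|) * (1 + |z.2|)) := by
          have : 0 ≤ |ρ| * M * ((1 + |z.1|) * (1 + |z.2|)) := by positivity
          linarith
  · rw [abs_mul, abs_mul]
    have h2 : |z.2| * (|ρ| * |d1 Q (ρ * z.1, ρ * z.2)|) ≤ ((1 + |z.1|) * (1 + |z.2|)) * (|ρ| * M) :=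
      mul_le_mul (snd_le_w _ _) (mul_le_mul_of_nonneg_left (h.bd1 _) (abs_nonneg _))
        (by positivity) (by positivity)
    have : 0 ≤ M * ((1 + |z.1|) * (1 + |z.2|)) := by positivity
    linarith

/-- (c) -/
lemma id_c {Q : ℝ × ℝ → ℝ} {M : ℝ} (h : BC Q M) (ρ : ℝ) :
    ∫ z, z.2 * (z.1 * Q (ρ * z.1, ρ * z.2)) ∂g2
      = ∫ z, z.1 * (ρ * d2 Q (ρ * z.1, ρ * z.2)) ∂g2 := by
  have hM := h.M_nonneg
  have hP := h.cont
  have hP1 := h.cd2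
  refine stein2 (ψ := fun z => z.1 * Q (ρ * z.1, ρ * z.2))
    (ψ' := fun z => z.1 * (ρ * d2 Q (ρ * z.1, ρ * z.2)))
    (by fun_prop) (by fun_prop) (fun x y => ?_) (C := M + |ρ| * M) (fun z => ?_) fun z => ?_
  · exact (h.has2 ρ x y).const_mul x
  · rw [abs_mul]
    calc |z.1| * |Q (ρ * z.1, ρ * z.2)| ≤ ((1 + |z.1|) * (1 + |z.2|)) * M :=
          mul_le_mul (fst_le_w _ _) (h.b0 _) (abs_nonneg _) (by positivity)
      _ ≤ (M + |ρ| * M) * ((1 + |z.1|) * (1 + |z.2|)) := by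
          have : 0 ≤ |ρ| * M * ((1 + |z.1|) * (1 + |z.2|)) := by positivity
          linarith
  · rw [abs_mul, abs_mul]
    have h2 : |z.1| * (|ρ| * |d2 Q (ρ * z.1, ρ * z.2)|) ≤ ((1 + |z.1|) * (1 + |z.2|)) * (|ρ| * M) :=
      mul_le_mul (fst_le_w _ _) (mul_le_mul_of_nonneg_left (h.bd2 _) (abs_nonneg _))
        (by positivity) (by positivity)
    have : 0 ≤ M * ((1 + |z.1|) * (1 + |z.2|)) := by positivity
    linarith

lemma norm_le_w (z : ℝ × ℝ) : ‖z‖ ≤ (1 + |z.1|) * (1 + |z.2|) := by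
  rw [Prod.norm_def, Real.norm_eq_abs, Real.norm_eq_abs]
  exact max_le (fst_le_w _ _) (snd_le_w _ _)

lemma int_norm : Integrable (fun z : ℝ × ℝ => ‖z‖) g2 :=
  int_of_w (by fun_prop) (C := 1) fun z => by
    rw [abs_of_nonneg (norm_nonneg z), one_mul]
    exact norm_le_w z

lemma integral_norm_le : ∫ z : ℝ × ℝ, ‖z‖ ∂g2 ≤ 2 := by
  have h : ∀ z : ℝ × ℝ, ‖z‖ ≤ 1 / 2 * ((1 + z.1 ^ 2) * (1 + z.2 ^ 2)) := by
    intro z
    rw [Prod.norm_def, Real.norm_eq_abs, Real.norm_eq_abs]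
    have h1 : ∀ x y : ℝ, |x| ≤ 1 / 2 * ((1 + x ^ 2) * (1 + y ^ 2)) := by
      intro x y
      have h2 : |x| ≤ 1 / 2 * (1 + x ^ 2) := by nlinarith [sq_nonneg (|x| - 1), sq_abs x]
      nlinarith [sq_nonneg x, sq_nonneg y, mul_nonneg (sq_nonneg x) (sq_nonneg y)]
    refine max_le (h1 _ _) ((h1 z.2 z.1).trans (le_of_eq ?_))
    ring
  calc ∫ z : ℝ × ℝ, ‖z‖ ∂g2 ≤ ∫ z : ℝ × ℝ, 1 / 2 * ((1 + z.1 ^ 2) * (1 + z.2 ^ 2)) ∂g2 :=
        integral_mono int_norm (int_w2.const_mul _) h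
    _ = 2 := by rw [integral_const_mul, integral_w2]; norm_num

lemma Av_deriv {f : ℝ × ℝ → ℝ} {M : ℝ} (h : BC f M) (ρ : ℝ) :
    HasDerivAt (Av f) (∫ z, (z.1 * d1 f (ρ * z.1, ρ * z.2) + z.2 * d2 f (ρ * z.1, ρ * z.2)) ∂g2) ρ
      := by
  have hM := h.M_nonneg
  have hf := h.cont
  have hf1 := h.cd1
  have hf2 := h.cd2
  have hval : ∀ (ρ : ℝ) (z : ℝ × ℝ), fderiv ℝ f (ρ * z.1, ρ * z.2) z
      = z.1 * d1 f (ρ * z.1, ρ * z.2) + z.2 * d2 f (ρ * z.1, ρ * z.2) := by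
    intro ρ z
    have e : z = z.1 • ((1, 0) : ℝ × ℝ) + z.2 • ((0, 1) : ℝ × ℝ) := by ext <;> simp
    have e2 : ∀ L : ℝ × ℝ →L[ℝ] ℝ, L z = z.1 * L (1, 0) + z.2 * L (0, 1) := by
      intro L
      conv_lhs => rw [e]
      rw [map_add, map_smul, map_smul]
      rfl
    exact e2 _
  refine (hasDerivAt_integral_of_dominated_loc_of_deriv_le (μ := g2)
    (F := fun ρ z => f (ρ * z.1, ρ * z.2))
    (F' := fun ρ z => z.1 * d1 f (ρ * z.1, ρ * z.2) + z.2 * d2 f (ρ * z.1, ρ * z.2))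
    (bound := fun z => M * ‖z‖) (s := univ) univ_mem ?_ ?_ ?_ ?_ ?_ ?_).2
  · exact Eventually.of_forall fun ρ => by fun_prop
  · exact int_of_w (by fun_prop) (C := M) fun z =>
      (h.b0 _).trans (le_mul_of_one_le_right hM (one_le_w _ _))
  · exact Continuous.aestronglyMeasurable (by fun_prop)
  · refine Eventually.of_forall fun z ρ _ => ?_
    rw [← hval]
    exact ((fderiv ℝ f _).le_opNorm z).trans
      (mul_le_mul_of_nonneg_right (h.b1 _) (norm_nonneg _))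
  · exact int_norm.const_mul M
  · refine Eventually.of_forall fun z ρ _ => ?_
    have h1 : HasFDerivAt f (fderiv ℝ f (ρ * z.1, ρ * z.2)) (ρ * z.1, ρ * z.2) :=
      ((h.c1.differentiable one_ne_zero) _).hasFDerivAt
    have h2 : HasDerivAt (fun s : ℝ => ((s * z.1, s * z.2) : ℝ × ℝ)) z ρ := by
      refine HasDerivAt.prodMk ?_ ?_
      · simpa using (hasDerivAt_id ρ).mul_const z.1
      · simpa using (hasDerivAt_id ρ).mul_const z.2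
    have h3 := h1.comp_hasDerivAt ρ h2
    refine h3.congr_deriv ?_
    rw [← hval]

/-- The formula for the derivative with respect to the scale. -/
lemma Av_deriv_eq {f φ P Q : ℝ × ℝ → ℝ} {M : ℝ} (hf : BC f M) (hφ : BC φ M) (hP : BC P M)
    (hQ : BC Q M) (e1 : ∀ z, d1 f z = d1 P z - d2 φ z) (e2 : ∀ z, d2 f z = d1 φ z - d1 Q z)
    (ρ : ℝ) :
    ρ * ∫ z, (z.1 * d1 f (ρ * z.1, ρ * z.2) + z.2 * d2 f (ρ * z.1, ρ * z.2)) ∂g2
      = ∫ z, ((z.1 ^ 2 - 1) * P (ρ * z.1, ρ * z.2) - z.1 * z.2 * Q (ρ * z.1, ρ * z.2)) ∂g2 := by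
  have hM := hf.M_nonneg
  have cP := hP.cont
  have cP1 := hP.cd1
  have cQ := hQ.cont
  have cQ1 := hQ.cd1
  have cφ := hφ.cont
  have cφ1 := hφ.cd1
  have cφ2 := hφ.cd2
  have a1 := id_a hP ρ
  have a2 := id_b hQ ρ
  have a3 := id_c hφ ρ
  have a4 := id_b hφ ρ
  -- integrability
  have bnd : ∀ (g : ℝ × ℝ → ℝ) (w : ℝ × ℝ → ℝ), Continuous g → Continuous w →
      (∀ z, |g z| ≤ M) → (∀ z : ℝ × ℝ, |w z| ≤ (1 + z.1 ^ 2) * (1 + z.2 ^ 2)) →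
      Integrable (fun z : ℝ × ℝ => w z * g (ρ * z.1, ρ * z.2)) g2 := by
    intro g w hg hw hb hwb
    refine int_poly2 (by fun_prop) (C := M) fun z => ?_
    rw [abs_mul, mul_comm M]
    exact mul_le_mul (hwb z) (hb _) (abs_nonneg _) (by positivity)
  have w0 : ∀ z : ℝ × ℝ, |(1 : ℝ)| ≤ (1 + z.1 ^ 2) * (1 + z.2 ^ 2) := by
    intro z
    rw [abs_one]
    nlinarith [sq_nonneg z.1, sq_nonneg z.2, mul_nonneg (sq_nonneg z.1) (sq_nonneg z.2)]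
  have w1 : ∀ z : ℝ × ℝ, |z.1| ≤ (1 + z.1 ^ 2) * (1 + z.2 ^ 2) := by
    intro z
    have h2 : |z.1| ≤ 1 + z.1 ^ 2 := by nlinarith [sq_nonneg (|z.1| - 1), sq_abs z.1]
    nlinarith [sq_nonneg z.1, sq_nonneg z.2, mul_nonneg (sq_nonneg z.1) (sq_nonneg z.2)]
  have w2 : ∀ z : ℝ × ℝ, |z.2| ≤ (1 + z.1 ^ 2) * (1 + z.2 ^ 2) := by
    intro z
    have h2 : |z.2| ≤ 1 + z.2 ^ 2 := by nlinarith [sq_nonneg (|z.2| - 1), sq_abs z.2]
    nlinarith [sq_nonneg z.1, sq_nonneg z.2, mul_nonneg (sq_nonneg z.1) (sq_nonneg z.2)]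
  have w11 : ∀ z : ℝ × ℝ, |z.1 ^ 2| ≤ (1 + z.1 ^ 2) * (1 + z.2 ^ 2) := by
    intro z
    rw [abs_of_nonneg (sq_nonneg _)]
    nlinarith [sq_nonneg z.1, sq_nonneg z.2, mul_nonneg (sq_nonneg z.1) (sq_nonneg z.2)]
  have w12 : ∀ z : ℝ × ℝ, |z.1 * z.2| ≤ (1 + z.1 ^ 2) * (1 + z.2 ^ 2) := by
    intro z
    rw [abs_le]
    constructor <;>
      nlinarith [sq_nonneg (z.1 - z.2), sq_nonneg (z.1 + z.2), mul_nonneg (sq_nonneg z.1) (sq_nonneg z.2),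
        sq_nonneg z.1, sq_nonneg z.2]
  have iP := bnd P (fun _ => 1) cP (by fun_prop) hP.b0 w0
  have iP11 := bnd P (fun z => z.1 ^ 2) cP (by fun_prop) hP.b0 w11
  have iP1 := bnd (d1 P) (fun z => z.1) cP1 (by fun_prop) hP.bd1 w1
  have iQ12 := bnd Q (fun z => z.1 * z.2) cQ (by fun_prop) hQ.b0 w12
  have iQ1 := bnd (d1 Q) (fun z => z.2) cQ1 (by fun_prop) hQ.bd1 w2
  have iφ2 := bnd (d2 φ) (fun z => z.1) cφ2 (by fun_prop) hφ.bd2 w1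
  have iφ1 := bnd (d1 φ) (fun z => z.2) cφ1 (by fun_prop) hφ.bd1 w2
  have iφ12 := bnd φ (fun z => z.1 * z.2) cφ (by fun_prop) hφ.b0 w12
  simp only [one_mul] at iP
  -- rewrite the identities
  have r1 : ∫ z, z.1 ^ 2 * P (ρ * z.1, ρ * z.2) ∂g2
      = ∫ z, P (ρ * z.1, ρ * z.2) ∂g2 + ρ * ∫ z, z.1 * d1 P (ρ * z.1, ρ * z.2) ∂g2 := by
    have e3 : ∫ z, (P (ρ * z.1, ρ * z.2) + z.1 * (ρ * d1 P (ρ * z.1, ρ * z.2))) ∂g2
        = ∫ z, P (ρ * z.1, ρ * z.2) ∂g2 + ∫ z, ρ * (z.1 * d1 P (ρ * z.1, ρ * z.2)) ∂g2 := by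
      rw [← integral_add iP (iP1.const_mul ρ)]
      congr 1
      funext z
      ring
    rw [integral_const_mul] at e3
    rw [← e3, ← a1]
    congr 1
    funext z
    ring
  have r2 : ∫ z, z.1 * z.2 * Q (ρ * z.1, ρ * z.2) ∂g2
      = ρ * ∫ z, z.2 * d1 Q (ρ * z.1, ρ * z.2) ∂g2 := by
    rw [← integral_const_mul]
    calc _ = ∫ z, z.1 * (z.2 * Q (ρ * z.1, ρ * z.2)) ∂g2 := by
          congr 1
          funext z
          ring
      _ = _ := by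
          rw [a2]
          congr 1
          funext z
          ring
  have r3 : ∫ z, z.1 * z.2 * φ (ρ * z.1, ρ * z.2) ∂g2
      = ρ * ∫ z, z.1 * d2 φ (ρ * z.1, ρ * z.2) ∂g2 := by
    rw [← integral_const_mul]
    calc _ = ∫ z, z.2 * (z.1 * φ (ρ * z.1, ρ * z.2)) ∂g2 := by
          congr 1
          funext z
          ring
      _ = _ := by
          rw [a3]
          congr 1
          funext z
          ring
  have r4 : ∫ z, z.1 * z.2 * φ (ρ * z.1, ρ * z.2) ∂g2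
      = ρ * ∫ z, z.2 * d1 φ (ρ * z.1, ρ * z.2) ∂g2 := by
    rw [← integral_const_mul]
    calc _ = ∫ z, z.1 * (z.2 * φ (ρ * z.1, ρ * z.2)) ∂g2 := by
          congr 1
          funext z
          ring
      _ = _ := by
          rw [a4]
          congr 1
          funext z
          ring
  have s1 : ∫ z, (z.1 * d1 f (ρ * z.1, ρ * z.2) + z.2 * d2 f (ρ * z.1, ρ * z.2)) ∂g2
      = ((∫ z, z.1 * d1 P (ρ * z.1, ρ * z.2) ∂g2) - ∫ z, z.1 * d2 φ (ρ * z.1, ρ * z.2) ∂g2)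
        + ((∫ z, z.2 * d1 φ (ρ * z.1, ρ * z.2) ∂g2)
          - ∫ z, z.2 * d1 Q (ρ * z.1, ρ * z.2) ∂g2) := by
    have iA : Integrable (fun z : ℝ × ℝ => z.1 * d1 P (ρ * z.1, ρ * z.2)
        - z.1 * d2 φ (ρ * z.1, ρ * z.2)) g2 := iP1.sub iφ2
    have iB : Integrable (fun z : ℝ × ℝ => z.2 * d1 φ (ρ * z.1, ρ * z.2)
        - z.2 * d1 Q (ρ * z.1, ρ * z.2)) g2 := iφ1.sub iQ1
    rw [← integral_sub iP1 iφ2, ← integral_sub iφ1 iQ1, ← integral_add iA iB]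
    congr 1
    funext z
    rw [e1, e2]
    ring
  have s2 : ∫ z, ((z.1 ^ 2 - 1) * P (ρ * z.1, ρ * z.2) - z.1 * z.2 * Q (ρ * z.1, ρ * z.2)) ∂g2
      = ((∫ z, z.1 ^ 2 * P (ρ * z.1, ρ * z.2) ∂g2) - ∫ z, P (ρ * z.1, ρ * z.2) ∂g2)
        - ∫ z, z.1 * z.2 * Q (ρ * z.1, ρ * z.2) ∂g2 := by
    have iA : Integrable (fun z : ℝ × ℝ => z.1 ^ 2 * P (ρ * z.1, ρ * z.2)
        - P (ρ * z.1, ρ * z.2)) g2 := iP11.sub iP
    rw [← integral_sub iP11 iP, ← integral_sub iA iQ12]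
    congr 1
    funext z
    ring
  rw [s1, s2, r1, r2]
  linear_combination r3 - r4

lemma Av_deriv_le {f φ P Q : ℝ × ℝ → ℝ} {M σ : ℝ} (hf : BC f M) (hφ : BC φ M) (hP : BC P M)
    (hQ : BC Q M) (e1 : ∀ z, d1 f z = d1 P z - d2 φ z) (e2 : ∀ z, d2 f z = d1 φ z - d1 Q z)
    (hPσ : ∀ z, |P z| ≤ σ) (hQσ : ∀ z, |Q z| ≤ σ) {ρ : ℝ} (hρ : 0 < ρ) :
    |∫ z, (z.1 * d1 f (ρ * z.1, ρ * z.2) + z.2 * d2 f (ρ * z.1, ρ * z.2)) ∂g2| ≤ 6 * σ / ρ := by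
  have hσ : 0 ≤ σ := (abs_nonneg _).trans (hPσ 0)
  have key := Av_deriv_eq hf hφ hP hQ e1 e2 ρ
  rw [le_div_iff₀ hρ, mul_comm, ← abs_of_pos hρ, ← abs_mul, abs_of_pos hρ, key,
    ← Real.norm_eq_abs]
  have h1 : ∀ z : ℝ × ℝ, ‖(z.1 ^ 2 - 1) * P (ρ * z.1, ρ * z.2) - z.1 * z.2 * Q (ρ * z.1, ρ * z.2)‖
      ≤ 3 / 2 * σ * ((1 + z.1 ^ 2) * (1 + z.2 ^ 2)) := by
    intro z
    rw [Real.norm_eq_abs]
    refine (abs_sub _ _).trans ?_
    rw [abs_mul, abs_mul]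
    have a1 : |z.1 ^ 2 - 1| ≤ 1 + z.1 ^ 2 := by
      rw [abs_le]
      constructor <;> nlinarith [sq_nonneg z.1]
    have a2 : |z.1 * z.2| ≤ (z.1 ^ 2 + z.2 ^ 2) / 2 := by
      rw [abs_le]
      constructor <;> nlinarith [sq_nonneg (z.1 - z.2), sq_nonneg (z.1 + z.2)]
    calc |z.1 ^ 2 - 1| * |P (ρ * z.1, ρ * z.2)| + |z.1 * z.2| * |Q (ρ * z.1, ρ * z.2)|
        ≤ (1 + z.1 ^ 2) * σ + (z.1 ^ 2 + z.2 ^ 2) / 2 * σ :=
          add_le_add (mul_le_mul a1 (hPσ _) (abs_nonneg _) (by positivity))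
            (mul_le_mul a2 (hQσ _) (abs_nonneg _) (by positivity))
      _ ≤ 3 / 2 * σ * ((1 + z.1 ^ 2) * (1 + z.2 ^ 2)) := by
          have e : 3 / 2 * σ * ((1 + z.1 ^ 2) * (1 + z.2 ^ 2))
              - ((1 + z.1 ^ 2) * σ + (z.1 ^ 2 + z.2 ^ 2) / 2 * σ)
              = σ * (1 / 2 + z.2 ^ 2 + 3 / 2 * (z.1 ^ 2 * z.2 ^ 2)) := by ring
          have : 0 ≤ σ * (1 / 2 + z.2 ^ 2 + 3 / 2 * (z.1 ^ 2 * z.2 ^ 2)) := by positivity
          linarith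
  calc ‖∫ z, ((z.1 ^ 2 - 1) * P (ρ * z.1, ρ * z.2) - z.1 * z.2 * Q (ρ * z.1, ρ * z.2)) ∂g2‖
      ≤ ∫ z : ℝ × ℝ, 3 / 2 * σ * ((1 + z.1 ^ 2) * (1 + z.2 ^ 2)) ∂g2 :=
        norm_integral_le_of_norm_le (int_w2.const_mul _) (Eventually.of_forall h1)
    _ = 6 * σ := by rw [integral_const_mul, integral_w2]; ring

/-- The averages at two scales. -/
lemma Av_sub_le {f φ P Q : ℝ × ℝ → ℝ} {M σ : ℝ} (hf : BC f M) (hφ : BC φ M) (hP : BC P M)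
    (hQ : BC Q M) (e1 : ∀ z, d1 f z = d1 P z - d2 φ z) (e2 : ∀ z, d2 f z = d1 φ z - d1 Q z)
    (hPσ : ∀ z, |P z| ≤ σ) (hQσ : ∀ z, |Q z| ≤ σ) {ε R : ℝ} (hε : 0 < ε) (hR : ε ≤ R) :
    |Av f ε| ≤ |Av f R| + 6 * σ * Real.log (R / ε) := by
  have hd : ∀ ρ, HasDerivAt (Av f) (∫ z, (z.1 * d1 f (ρ * z.1, ρ * z.2)
      + z.2 * d2 f (ρ * z.1, ρ * z.2)) ∂g2) ρ := fun ρ => Av_deriv hf ρ
  have hb : ∀ ρ, 0 < ρ → |∫ z, (z.1 * d1 f (ρ * z.1, ρ * z.2)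
      + z.2 * d2 f (ρ * z.1, ρ * z.2)) ∂g2| ≤ 6 * σ / ρ := fun ρ hρ =>
    Av_deriv_le hf hφ hP hQ e1 e2 hPσ hQσ hρ
  have hl : ∀ ρ, 0 < ρ → HasDerivAt (fun ρ => 6 * σ * Real.log ρ) (6 * σ / ρ) ρ := by
    intro ρ hρ
    have := (Real.hasDerivAt_log hρ.ne').const_mul (6 * σ)
    simpa [div_eq_mul_inv] using this
  have m1 : MonotoneOn (fun ρ => Av f ρ + 6 * σ * Real.log ρ) (Icc ε R) := by
    refine monotoneOn_of_deriv_nonneg (convex_Icc ε R) ?_ ?_ ?_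
    · intro ρ hρ
      exact ((hd ρ).fun_add (hl ρ (hε.trans_le hρ.1))).continuousAt.continuousWithinAt
    · intro ρ hρ
      rw [interior_Icc] at hρ
      exact ((hd ρ).fun_add (hl ρ (hε.trans hρ.1))).differentiableAt.differentiableWithinAt
    · intro ρ hρ
      rw [interior_Icc] at hρ
      rw [((hd ρ).fun_add (hl ρ (hε.trans hρ.1))).deriv]
      have := neg_le_of_abs_le (hb ρ (hε.trans hρ.1))
      linarith
  have m2 : AntitoneOn (fun ρ => Av f ρ - 6 * σ * Real.log ρ) (Icc ε R) := by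
    refine antitoneOn_of_deriv_nonpos (convex_Icc ε R) ?_ ?_ ?_
    · intro ρ hρ
      exact ((hd ρ).fun_sub (hl ρ (hε.trans_le hρ.1))).continuousAt.continuousWithinAt
    · intro ρ hρ
      rw [interior_Icc] at hρ
      exact ((hd ρ).fun_sub (hl ρ (hε.trans hρ.1))).differentiableAt.differentiableWithinAt
    · intro ρ hρ
      rw [interior_Icc] at hρ
      rw [((hd ρ).fun_sub (hl ρ (hε.trans hρ.1))).deriv]
      have := le_of_abs_le (hb ρ (hε.trans hρ.1))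
      linarith
  have h1 := m1 (left_mem_Icc.2 hR) (right_mem_Icc.2 hR) hR
  have h2 := m2 (left_mem_Icc.2 hR) (right_mem_Icc.2 hR) hR
  simp only at h1 h2
  rw [Real.log_div (hε.trans_le hR).ne' hε.ne']
  rw [abs_le]
  have h3 := neg_abs_le (Av f R)
  have h4 := le_abs_self (Av f R)
  constructor <;> linarith

/-- Small scales. -/
lemma sub_Av_le {f : ℝ × ℝ → ℝ} {M : ℝ} (hf : BC f M) {M1 : ℝ} (h1 : ∀ z, ‖fderiv ℝ f z‖ ≤ M1)
    {ε : ℝ} (hε : 0 ≤ ε) : |f 0| ≤ |Av f ε| + 2 * M1 * ε := by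
  have cf := hf.cont
  have hM1 : 0 ≤ M1 := (norm_nonneg _).trans (h1 0)
  have i1 : Integrable (fun z : ℝ × ℝ => f (ε * z.1, ε * z.2)) g2 :=
    int_of_w (by fun_prop) (C := M) fun z =>
      (hf.b0 _).trans (le_mul_of_one_le_right hf.M_nonneg (one_le_w _ _))
  have e : f 0 - Av f ε = ∫ z, (f 0 - f (ε * z.1, ε * z.2)) ∂g2 := by
    rw [integral_sub (integrable_const _) i1]
    simp [Av]
  have h2 : ∀ z : ℝ × ℝ, ‖f 0 - f (ε * z.1, ε * z.2)‖ ≤ M1 * ε * ‖z‖ := by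
    intro z
    have h3 := Convex.norm_image_sub_le_of_norm_fderiv_le (𝕜 := ℝ) (f := f) (s := univ)
      (x := (ε * z.1, ε * z.2)) (y := 0)
      (fun x _ => (hf.c1.differentiable one_ne_zero) x) (fun x _ => h1 x) convex_univ (mem_univ _)
      (mem_univ _)
    refine h3.trans (le_of_eq ?_)
    have h4 : ((0 : ℝ × ℝ) - (ε * z.1, ε * z.2)) = (-ε) • z := by ext <;> simp
    rw [h4, norm_smul, norm_neg, Real.norm_of_nonneg hε]
    ring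
  have h5 : |f 0 - Av f ε| ≤ 2 * M1 * ε := by
    rw [e, ← Real.norm_eq_abs]
    calc ‖∫ z, (f 0 - f (ε * z.1, ε * z.2)) ∂g2‖ ≤ ∫ z, M1 * ε * ‖z‖ ∂g2 :=
          norm_integral_le_of_norm_le (int_norm.const_mul _) (Eventually.of_forall h2)
      _ = M1 * ε * ∫ z, ‖z‖ ∂g2 := integral_const_mul _ _
      _ ≤ M1 * ε * 2 := mul_le_mul_of_nonneg_left integral_norm_le (by positivity)
      _ = 2 * M1 * ε := by ring
  have h6 := abs_sub_abs_le_abs_sub (f 0) (Av f ε)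
  linarith

/-- Large scales. -/
lemma Av_large {U : ℝ × ℝ → ℝ} {M M0 : ℝ} (hU : BC U M) (h0 : ∀ z, |U z| ≤ M0) {R : ℝ}
    (hR : 0 < R) : |Av (d1 U) R| ≤ 2 * M0 / R := by
  have cU := hU.cont
  have cU1 := hU.cd1
  have hM := hU.M_nonneg
  have hM0 : 0 ≤ M0 := (abs_nonneg _).trans (h0 0)
  have key := stein1 (ψ := fun z => U (R * z.1, R * z.2)) (ψ' := fun z => R * d1 U (R * z.1, R * z.2))
    (by fun_prop) (by fun_prop) (fun x y => hU.has1 R x y) (C := M + |R| * M) (fun z => ?_)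
    fun z => ?_
  · rw [integral_const_mul] at key
    have e : Av (d1 U) R = (∫ z, z.1 * U (R * z.1, R * z.2) ∂g2) / R := by
      rw [key]
      unfold Av
      field_simp
    rw [e, abs_div, abs_of_pos hR]
    refine div_le_div_of_nonneg_right ?_ hR.le
    rw [← Real.norm_eq_abs]
    have h1 : ∀ z : ℝ × ℝ, ‖z.1 * U (R * z.1, R * z.2)‖
        ≤ M0 / 2 * ((1 + z.1 ^ 2) * (1 + z.2 ^ 2)) := by
      intro z
      rw [Real.norm_eq_abs, abs_mul]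
      have h2 : |z.1| ≤ 1 / 2 * ((1 + z.1 ^ 2) * (1 + z.2 ^ 2)) := by
        have h3 : |z.1| ≤ 1 / 2 * (1 + z.1 ^ 2) := by nlinarith [sq_nonneg (|z.1| - 1), sq_abs z.1]
        nlinarith [sq_nonneg z.1, sq_nonneg z.2, mul_nonneg (sq_nonneg z.1) (sq_nonneg z.2)]
      calc |z.1| * |U (R * z.1, R * z.2)| ≤ 1 / 2 * ((1 + z.1 ^ 2) * (1 + z.2 ^ 2)) * M0 :=
            mul_le_mul h2 (h0 _) (abs_nonneg _) (by positivity)
        _ = M0 / 2 * ((1 + z.1 ^ 2) * (1 + z.2 ^ 2)) := by ring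
    calc ‖∫ z, z.1 * U (R * z.1, R * z.2) ∂g2‖
        ≤ ∫ z : ℝ × ℝ, M0 / 2 * ((1 + z.1 ^ 2) * (1 + z.2 ^ 2)) ∂g2 :=
          norm_integral_le_of_norm_le (int_w2.const_mul _) (Eventually.of_forall h1)
      _ = 2 * M0 := by rw [integral_const_mul, integral_w2]; ring
  · have h1 : M ≤ M + |R| * M := by
      have : 0 ≤ |R| * M := by positivity
      linarith
    exact (hU.b0 _).trans (h1.trans (le_mul_of_one_le_right (by positivity) (one_le_w _ _)))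
  · rw [abs_mul]
    have h1 : |R| * |d1 U (R * z.1, R * z.2)| ≤ |R| * M :=
      mul_le_mul_of_nonneg_left (hU.bd1 _) (abs_nonneg _)
    have h2 : |R| * M ≤ M + |R| * M := by linarith
    exact h1.trans (h2.trans (le_mul_of_one_le_right (by positivity) (one_le_w _ _)))

end Pool.Agent.Helper29.Dir
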