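import Pool.Agent.Helper29.Dir.Plane

/-!
# The gradient of a plane field from its divergence and its curl
-/

set_option autoImplicit false

open MeasureTheory ProbabilityTheory Set Filter Topology

namespace Pool.Agent.Helper29.Dir

lemma BC.add {f g : ℝ × ℝ → ℝ} {M N : ℝ} (hf : BC f M) (hg : BC g N) :
    BC (fun z => f z + g z) (M + N) where
  c1 := hf.c1.add hg.c1
  b0 z := (abs_add_le _ _).trans (add_le_add (hf.b0 z) (hg.b0 z))
  b1 z := by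
    rw [fderiv_fun_add ((hf.c1.differentiable one_ne_zero) z) ((hg.c1.differentiable one_ne_zero) z)]
    exact (norm_add_le _ _).trans (add_le_add (hf.b1 z) (hg.b1 z))

lemma BC.neg {f : ℝ × ℝ → ℝ} {M : ℝ} (hf : BC f M) : BC (fun z => -f z) M where
  c1 := hf.c1.neg
  b0 z := by rw [abs_neg]; exact hf.b0 z
  b1 z := by
    rw [fderiv_fun_neg, norm_neg]
    exact hf.b1 z

lemma BC.sub {f g : ℝ × ℝ → ℝ} {M N : ℝ} (hf : BC f M) (hg : BC g N) :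
    BC (fun z => f z - g z) (M + N) where
  c1 := hf.c1.sub hg.c1
  b0 z := (abs_sub _ _).trans (add_le_add (hf.b0 z) (hg.b0 z))
  b1 z := by
    rw [fderiv_fun_sub ((hf.c1.differentiable one_ne_zero) z) ((hg.c1.differentiable one_ne_zero) z)]
    exact (norm_sub_le _ _).trans (add_le_add (hf.b1 z) (hg.b1 z))

lemma BC.mono {f : ℝ × ℝ → ℝ} {M N : ℝ} (hf : BC f M) (h : M ≤ N) : BC f N :=
  ⟨hf.c1, fun z => (hf.b0 z).trans h, fun z => (hf.b1 z).trans h⟩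

/-- Functions of class `C²` with bounds of the derivatives of order 0, 1, 2. -/
structure B2 (f : ℝ × ℝ → ℝ) (M0 M1 M2 : ℝ) : Prop where
  c2 : ContDiff ℝ 2 f
  b0 : ∀ z, |f z| ≤ M0
  b1 : ∀ z, ‖fderiv ℝ f z‖ ≤ M1
  b2 : ∀ z, ‖fderiv ℝ (fderiv ℝ f) z‖ ≤ M2

section

variable {f : ℝ × ℝ → ℝ} {M0 M1 M2 : ℝ}

lemma B2.cfd (h : B2 f M0 M1 M2) : ContDiff ℝ 1 (fderiv ℝ f) :=
  h.c2.fderiv_right (by norm_num)

lemma B2.fd_dir (h : B2 f M0 M1 M2) (w z : ℝ × ℝ) :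
    fderiv ℝ (fun z => fderiv ℝ f z w) z
      = (ContinuousLinearMap.apply ℝ ℝ w).comp (fderiv ℝ (fderiv ℝ f) z) := by
  have h1 : HasFDerivAt (fderiv ℝ f) (fderiv ℝ (fderiv ℝ f) z) z :=
    ((h.cfd.differentiable one_ne_zero) z).hasFDerivAt
  exact ((ContinuousLinearMap.apply ℝ ℝ w).hasFDerivAt.comp z h1).fderiv

lemma B2.bc (h : B2 f M0 M1 M2) : BC f (M0 + M1 + M2) := by
  have a0 : 0 ≤ M0 := (abs_nonneg _).trans (h.b0 0)
  have a1 : 0 ≤ M1 := (norm_nonneg _).trans (h.b1 0)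
  have a2 : 0 ≤ M2 := (norm_nonneg (fderiv ℝ (fderiv ℝ f) 0)).trans (h.b2 0)
  exact ⟨h.c2.of_le (by norm_num), fun z => (h.b0 z).trans (by linarith),
    fun z => (h.b1 z).trans (by linarith)⟩

lemma B2.dir (h : B2 f M0 M1 M2) {w : ℝ × ℝ} (hw : ‖w‖ ≤ 1) :
    BC (fun z => fderiv ℝ f z w) (M1 + M2) ∧
      ∀ z, ‖fderiv ℝ (fun z => fderiv ℝ f z w) z‖ ≤ M2 := by
  have a1 : 0 ≤ M1 := (norm_nonneg _).trans (h.b1 0)
  have a2 : 0 ≤ M2 := (norm_nonneg (fderiv ℝ (fderiv ℝ f) 0)).trans (h.b2 0)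
  have key : ∀ z, ‖fderiv ℝ (fun z => fderiv ℝ f z w) z‖ ≤ M2 := by
    intro z
    rw [h.fd_dir]
    refine ContinuousLinearMap.opNorm_le_bound _ a2 fun y => ?_
    simp only [ContinuousLinearMap.comp_apply, ContinuousLinearMap.apply_apply]
    calc ‖fderiv ℝ (fderiv ℝ f) z y w‖ ≤ ‖fderiv ℝ (fderiv ℝ f) z y‖ * ‖w‖ :=
          ContinuousLinearMap.le_opNorm _ _
      _ ≤ ‖fderiv ℝ (fderiv ℝ f) z y‖ * 1 := by gcongr
      _ ≤ ‖fderiv ℝ (fderiv ℝ f) z‖ * ‖y‖ := by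
          rw [mul_one]; exact ContinuousLinearMap.le_opNorm _ _
      _ ≤ M2 * ‖y‖ := by gcongr; exact h.b2 z
  refine ⟨⟨h.cfd.clm_apply contDiff_const, fun z => ?_, fun z => (key z).trans (by linarith)⟩, key⟩
  have h1 := (fderiv ℝ f z).le_opNorm w
  rw [Real.norm_eq_abs] at h1
  calc |fderiv ℝ f z w| ≤ ‖fderiv ℝ f z‖ * ‖w‖ := h1
    _ ≤ M1 * 1 := mul_le_mul (h.b1 z) hw (norm_nonneg _) a1
    _ ≤ M1 + M2 := by linarith

lemma B2.symm (h : B2 f M0 M1 M2) (z : ℝ × ℝ) : d1 (d2 f) z = d2 (d1 f) z := by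
  unfold d1 d2
  rw [h.fd_dir, h.fd_dir]
  simp only [ContinuousLinearMap.comp_apply, ContinuousLinearMap.apply_apply]
  exact (h.c2.contDiffAt.isSymmSndFDerivAt (by simp)) _ _

end

lemma d1_add {f g : ℝ × ℝ → ℝ} {M N : ℝ} (hf : BC f M) (hg : BC g N) (z : ℝ × ℝ) :
    d1 (fun z => f z + g z) z = d1 f z + d1 g z := by
  unfold d1
  rw [fderiv_fun_add ((hf.c1.differentiable one_ne_zero) z) ((hg.c1.differentiable one_ne_zero) z)]
  rfl

lemma d1_sub {f g : ℝ × ℝ → ℝ} {M N : ℝ} (hf : BC f M) (hg : BC g N) (z : ℝ × ℝ) :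
    d1 (fun z => f z - g z) z = d1 f z - d1 g z := by
  unfold d1
  rw [fderiv_fun_sub ((hf.c1.differentiable one_ne_zero) z) ((hg.c1.differentiable one_ne_zero) z)]
  rfl

lemma d1_neg (f : ℝ × ℝ → ℝ) (z : ℝ × ℝ) : d1 (fun z => -f z) z = -d1 f z := by
  unfold d1
  rw [fderiv_fun_neg]
  rfl

lemma d2_neg (f : ℝ × ℝ → ℝ) (z : ℝ × ℝ) : d2 (fun z => -f z) z = -d2 f z := by
  unfold d2
  rw [fderiv_fun_neg]
  rfl

/-- The gradient of a plane field of class `C²` at a point is estimated by its divergence and its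
curl, with a logarithm. -/
theorem plane_grad {U V : ℝ × ℝ → ℝ} {M0 M1 M2 σ : ℝ} (hU : B2 U M0 M1 M2) (hV : B2 V M0 M1 M2)
    (hD : ∀ z, |d1 U z + d2 V z| ≤ σ) (hΩ : ∀ z, |d1 V z - d2 U z| ≤ σ) {ε R : ℝ} (hε : 0 < ε)
    (hR : ε ≤ R) :
    |d1 U 0| ≤ 2 * M2 * ε + 2 * M0 / R + 6 * σ * Real.log (R / ε) ∧
    |d1 V 0| ≤ 2 * M2 * ε + 2 * M0 / R + 6 * σ * Real.log (R / ε) := by
  have n10 : ‖((1, 0) : ℝ × ℝ)‖ ≤ 1 := by simp [Prod.norm_def]
  have n01 : ‖((0, 1) : ℝ × ℝ)‖ ≤ 1 := by simp [Prod.norm_def]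
  have hR0 : 0 < R := hε.trans_le hR
  obtain ⟨u1, u1'⟩ := hU.dir n10
  obtain ⟨u2, u2'⟩ := hU.dir n01
  obtain ⟨v1, v1'⟩ := hV.dir n10
  obtain ⟨v2, v2'⟩ := hV.dir n01
  change BC (d1 U) (M1 + M2) at u1
  change BC (d2 U) (M1 + M2) at u2
  change BC (d1 V) (M1 + M2) at v1
  change BC (d2 V) (M1 + M2) at v2
  have hMM : 0 ≤ M1 + M2 := u1.M_nonneg
  have hle : M1 + M2 ≤ (M1 + M2) + (M1 + M2) := by linarith
  have bD : BC (fun z => d1 U z + d2 V z) ((M1 + M2) + (M1 + M2)) := u1.add v2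
  have bΩ : BC (fun z => d1 V z - d2 U z) ((M1 + M2) + (M1 + M2)) := v1.sub u2
  constructor
  · have k1 := sub_Av_le u1 (M1 := M2) u1' hε.le
    have k2 := Av_sub_le (f := d1 U) (φ := d1 V) (P := fun z => d1 U z + d2 V z)
      (Q := fun z => d1 V z - d2 U z) (u1.mono hle) (v1.mono hle) bD bΩ (fun z => ?_) (fun z => ?_)
      hD hΩ hε hR
    · have k3 := Av_large hU.bc hU.b0 hR0
      linarith
    · rw [d1_add u1 v2, hV.symm]
      ring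
    · rw [d1_sub v1 u2, hU.symm]
      ring
  · have k1 := sub_Av_le v1 (M1 := M2) v1' hε.le
    have k2 := Av_sub_le (f := d1 V) (φ := fun z => -d1 U z) (P := fun z => d1 V z - d2 U z)
      (Q := fun z => -(d1 U z + d2 V z)) (v1.mono hle) (u1.neg.mono hle) bΩ bD.neg (fun z => ?_)
      (fun z => ?_) hΩ (fun z => by rw [abs_neg]; exact hD z) hε hR
    · have k3 := Av_large hV.bc hV.b0 hR0
      linarith
    · rw [d1_sub v1 u2, d2_neg, hU.symm]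
      ring
    · rw [d1_neg, d1_neg, d1_add u1 v2, hV.symm]
      ring

end Pool.Agent.Helper29.Dir
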