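import Pool.Agent.Helper29.Dir.Main

/-!
# Type I and power rates
-/

set_option autoImplicit false

open MeasureTheory Set Filter Topology
open scoped ContDiff

namespace Pool.Agent.Helper29.Dir

open Pool.Agent.H708R2.EulerSign Pool.Agent.H708R2.EulerTypeI Pool.Agent.W734.NS
open H459R3.NS (pd IsSol Per energy)

variable {T t₀ : ℝ} {u : ℝ → V → V} {p : ℝ → V → ℝ} {g al w R : ℝ → ℝ} {e : V}

lemma hn_bdd_Icc (h : IsSol 0 T u p) (ht₀ : t₀ ∈ Ico 0 T) (r : ℕ) :
    ∃ B : ℝ, ∀ t ∈ Icc 0 t₀, hn r (u t) ≤ B := by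
  have h1 : ContinuousOn (fun s => hn r (u s)) (Icc 0 t₀) :=
    (hn_continuousOn h r).mono fun s hs => ⟨hs.1, hs.2.trans_lt ht₀.2⟩
  obtain ⟨B, hB⟩ := (isCompact_Icc.image_of_continuousOn h1).bddAbove
  exact ⟨B, fun t ht => hB ⟨t, ht, rfl⟩⟩

lemma shift_integrable {φ : ℝ → ℝ} (hφ : IntegrableOn φ (Ioo t₀ T)) :
    IntegrableOn (fun t => φ (t + t₀)) (Ioo 0 (T - t₀)) := by
  have h1 : MeasurePreserving (fun t : ℝ => t + t₀) volume volume :=
    measurePreserving_add_right volume t₀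
  have h2 : MeasurableEmbedding (fun t : ℝ => t + t₀) := measurableEmbedding_addRight t₀
  have h3 := (h1.integrableOn_comp_preimage h2 (f := φ) (s := Ioo t₀ T)).2 hφ
  have h4 : (fun t : ℝ => t + t₀) ⁻¹' Ioo t₀ T = Ioo 0 (T - t₀) := by
    ext t
    simp only [mem_preimage, mem_Ioo]
    constructor
    · rintro ⟨h5, h6⟩
      constructor <;> linarith
    · rintro ⟨h5, h6⟩
      constructor <;> linarith
  rw [h4] at h3
  exact h3

lemma shift_setIntegral {φ : ℝ → ℝ} (t : ℝ) :
    ∫ r in Ioo t (T - t₀), φ (r + t₀) = ∫ r in Ioo (t + t₀) T, φ r := by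
  have h1 : MeasurePreserving (fun t : ℝ => t + t₀) volume volume :=
    measurePreserving_add_right volume t₀
  have h2 : MeasurableEmbedding (fun t : ℝ => t + t₀) := measurableEmbedding_addRight t₀
  have h3 := h1.setIntegral_preimage_emb h2 φ (Ioo (t + t₀) T)
  have h4 : (fun t : ℝ => t + t₀) ⁻¹' Ioo (t + t₀) T = Ioo t (T - t₀) := by
    ext q
    simp only [mem_preimage, mem_Ioo]
    constructor
    · rintro ⟨h5, h6⟩
      constructor <;> linarith
    · rintro ⟨h5, h6⟩
      constructor <;> linarith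
  rw [h4] at h3
  exact h3

/-- The criterion from the time `t₀` on, with comparison functions. -/
theorem criterion_cmp (h : IsSol 0 T u p) (ht₀ : t₀ ∈ Ico 0 T) (he : e ⬝ᵥ e = 1)
    (hgc : ContinuousOn g (Ico t₀ T)) (halc : ContinuousOn al (Ico t₀ T))
    (hg : ∀ t ∈ Ico t₀ T, ∀ i j x, |pd j (fun y => u t y i) x| ≤ g t)
    (halt : ∀ t ∈ Ico t₀ T, ∀ x, Small e (u t) x (al t))
    (hw : ∀ t ∈ Ico t₀ T, 1 + ∫ r in t₀..t, g r ≤ w t)
    (hwi : IntegrableOn w (Ioo t₀ T))
    (hR : ∀ t ∈ Ioo t₀ T, ∫ r in Ioo t T, w r ≤ R t)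
    (hwa : IntegrableOn (fun t => al t * w t) (Ioo t₀ T))
    (hRa : IntegrableOn (fun t => al t * g t * R t) (Ioo t₀ T)) (r : ℕ) :
    ∃ B : ℝ, ∀ t ∈ Ico 0 T, hn (r + 2) (u t) ≤ B := by
  have hT' : 0 < T - t₀ := by linarith [ht₀.2]
  have hI : ∀ t ∈ Ico 0 (T - t₀), t + t₀ ∈ Ico t₀ T := fun t ht =>
    ⟨by linarith [ht.1], by linarith [ht.2]⟩
  have hshc : ContinuousOn (fun t : ℝ => t + t₀) (Ico 0 (T - t₀)) :=
    (continuous_id.add continuous_const).continuousOn
  have hg0 : ∀ t ∈ Ico t₀ T, 0 ≤ g t := fun t ht => (abs_nonneg _).trans (hg t ht 0 0 0)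
  have hal0 : ∀ t ∈ Ico t₀ T, 0 ≤ al t := fun t ht => by
    rcases halt t ht 0 with h | h
    · exact (abs_nonneg _).trans (h 0)
    · exact (abs_nonneg _).trans (h 0)
  set g' : ℝ → ℝ := fun t => g (t + t₀) with hg'
  set al' : ℝ → ℝ := fun t => al (t + t₀) with hal'
  have hgc' : ContinuousOn g' (Ico 0 (T - t₀)) := hgc.comp hshc hI
  have halc' : ContinuousOn al' (Ico 0 (T - t₀)) := halc.comp hshc hI
  have hGc : ContinuousOn (Gam g') (Ico 0 (T - t₀)) := continuousOn_const.add (prim_cont hgc')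
  have hG1 : ∀ t ∈ Ico 0 (T - t₀), 1 ≤ Gam g' t := fun t ht => by
    have := prim_nonneg (φ := g') (fun q hq => hg0 _ (hI q hq)) ht
    unfold Gam
    linarith
  have hGw : ∀ t ∈ Ico 0 (T - t₀), Gam g' t ≤ w (t + t₀) := by
    intro t ht
    have h1 := hw _ (hI t ht)
    have h2 : ∫ r in 0..t, g' r = ∫ r in t₀..(t + t₀), g r := by
      have := intervalIntegral.integral_comp_add_right (f := g) (a := 0) (b := t) t₀
      rw [zero_add] at this
      exact this
    unfold Gam
    rw [h2]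
    exact h1
  have h1 : IntegrableOn (Gam g') (Ioo 0 (T - t₀)) := by
    refine Integrable.mono' (shift_integrable hwi)
      ((hGc.mono Ioo_subset_Ico_self).aestronglyMeasurable measurableSet_Ioo) ?_
    refine (ae_restrict_iff' measurableSet_Ioo).2 (Eventually.of_forall fun t ht => ?_)
    have ht' := Ioo_subset_Ico_self ht
    rw [Real.norm_of_nonneg (zero_le_one.trans (hG1 t ht'))]
    exact hGw t ht'
  have h2 : IntegrableOn (fun t => al' t * Gam g' t) (Ioo 0 (T - t₀)) := by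
    refine Integrable.mono' (shift_integrable hwa)
      (((halc'.mul hGc).mono Ioo_subset_Ico_self).aestronglyMeasurable measurableSet_Ioo) ?_
    refine (ae_restrict_iff' measurableSet_Ioo).2 (Eventually.of_forall fun t ht => ?_)
    have ht' := Ioo_subset_Ico_self ht
    have n1 := hal0 _ (hI t ht')
    have n2 := hG1 t ht'
    rw [Real.norm_of_nonneg (mul_nonneg n1 (zero_le_one.trans n2))]
    exact mul_le_mul_of_nonneg_left (hGw t ht') n1
  have hRe : ∀ t ∈ Ico 0 (T - t₀), ∫ r in Ioo t (T - t₀), Gam g' r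
      = (∫ r in Ioo 0 (T - t₀), Gam g' r) - ∫ r in 0..t, Gam g' r := by
    intro t ht
    rw [intervalIntegral.integral_of_le ht.1]
    have e1 : Ioo 0 (T - t₀) = Ioc 0 t ∪ Ioo t (T - t₀) := by
      ext q
      simp only [mem_union, mem_Ioo, mem_Ioc]
      constructor
      · intro hq
        rcases le_or_gt q t with h4 | h4
        · exact Or.inl ⟨hq.1, h4⟩
        · exact Or.inr ⟨h4, hq.2⟩
      · rintro (hq | hq)
        · exact ⟨hq.1, hq.2.trans_lt ht.2⟩
        · exact ⟨ht.1.trans_lt hq.1, hq.2⟩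
    have e2 : Disjoint (Ioc 0 t) (Ioo t (T - t₀)) := by
      rw [Set.disjoint_left]
      exact fun q h4 h5 => absurd h5.1 (not_lt.2 h4.2)
    rw [e1, setIntegral_union e2 measurableSet_Ioo
      (h1.mono_set fun q hq => ⟨hq.1, hq.2.trans_lt ht.2⟩)
      (h1.mono_set fun q hq => ⟨ht.1.trans_lt hq.1, hq.2⟩)]
    ring
  have h3 : IntegrableOn (fun t => al' t * g' t * ∫ r in Ioo t (T - t₀), Gam g' r)
      (Ioo 0 (T - t₀)) := by
    have hc : ContinuousOn (fun t => ∫ r in Ioo t (T - t₀), Gam g' r) (Ico 0 (T - t₀)) := by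
      have h4 : ContinuousOn (fun t => (∫ r in Ioo 0 (T - t₀), Gam g' r)
          - ∫ r in 0..t, Gam g' r) (Ico 0 (T - t₀)) := continuousOn_const.sub (prim_cont hGc)
      exact h4.congr hRe
    refine Integrable.mono' (shift_integrable hRa)
      ((((halc'.mul hgc').mul hc).mono Ioo_subset_Ico_self).aestronglyMeasurable
        measurableSet_Ioo) ?_
    refine (ae_restrict_iff' measurableSet_Ioo).2 (Eventually.of_forall fun t ht => ?_)
    have ht' := Ioo_subset_Ico_self ht
    have n1 := hal0 _ (hI t ht')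
    have n2 := hg0 _ (hI t ht')
    have n3 : 0 ≤ ∫ r in Ioo t (T - t₀), Gam g' r :=
      setIntegral_nonneg measurableSet_Ioo fun q hq =>
        zero_le_one.trans (hG1 q ⟨ht'.1.trans hq.1.le, hq.2⟩)
    rw [Real.norm_of_nonneg (mul_nonneg (mul_nonneg n1 n2) n3)]
    refine mul_le_mul_of_nonneg_left ?_ (mul_nonneg n1 n2)
    refine le_trans ?_ (hR (t + t₀) ⟨by linarith [ht.1], by linarith [ht.2]⟩)
    rw [← shift_setIntegral (t₀ := t₀) (φ := w)]
    refine setIntegral_mono_on (h1.mono_set fun q hq => ⟨ht.1.trans hq.1, hq.2⟩)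
      ((shift_integrable hwi).mono_set fun q hq => ⟨ht.1.trans hq.1, hq.2⟩) measurableSet_Ioo
      fun q hq => hGw q ⟨ht'.1.trans hq.1.le, hq.2⟩
  obtain ⟨B1, hB1⟩ := criterion (sol_shift h ht₀.1) hT' he hgc' halc'
    (fun t ht => hg _ (hI t ht)) (fun t ht => halt _ (hI t ht)) h1 h2 h3 r
  obtain ⟨B2, hB2⟩ := hn_bdd_Icc h ht₀ (r + 2)
  refine ⟨max B1 B2, fun t ht => ?_⟩
  rcases le_or_gt t t₀ with h4 | h4
  · exact (hB2 t ⟨ht.1, h4⟩).trans (le_max_right _ _)
  · have h5 := hB1 (t - t₀) ⟨by linarith, by linarith [ht.2]⟩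
    simp only [sub_add_cancel] at h5
    exact h5.trans (le_max_left _ _)

/-- The criterion from the time `t₀` on. -/
theorem criterion_from (h : IsSol 0 T u p) (ht₀ : t₀ ∈ Ico 0 T) (he : e ⬝ᵥ e = 1)
    (hgc : ContinuousOn g (Ico t₀ T)) (halc : ContinuousOn al (Ico t₀ T))
    (hg : ∀ t ∈ Ico t₀ T, ∀ i j x, |pd j (fun y => u t y i) x| ≤ g t)
    (halt : ∀ t ∈ Ico t₀ T, ∀ x, Small e (u t) x (al t))
    (h1 : IntegrableOn (fun t => 1 + ∫ r in t₀..t, g r) (Ioo t₀ T))
    (h2 : IntegrableOn (fun t => al t * (1 + ∫ r in t₀..t, g r)) (Ioo t₀ T))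
    (h3 : IntegrableOn (fun t => al t * g t * ∫ s in Ioo t T, (1 + ∫ r in t₀..s, g r))
      (Ioo t₀ T)) (r : ℕ) :
    ∃ B : ℝ, ∀ t ∈ Ico 0 T, hn (r + 2) (u t) ≤ B :=
  criterion_cmp h ht₀ he hgc halc hg halt (w := fun t => 1 + ∫ r in t₀..t, g r)
    (R := fun t => ∫ s in Ioo t T, (1 + ∫ r in t₀..s, g r)) (fun _ _ => le_rfl) h1
    (fun _ _ => le_rfl) h2 h3 r

lemma int_sub_left (φ : ℝ → ℝ) {t : ℝ} (ht : t ≤ T) :
    ∫ r in Ioo t T, φ (T - r) = ∫ y in 0..(T - t), φ y := by
  rw [← integral_Ioc_eq_integral_Ioo, ← intervalIntegral.integral_of_le ht,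
    intervalIntegral.integral_comp_sub_left (f := φ), sub_self]

lemma integrableOn_sub_left {φ : ℝ → ℝ} (ht : t₀ ≤ T)
    (h : IntervalIntegrable φ volume 0 (T - t₀)) :
    IntegrableOn (fun r => φ (T - r)) (Ioo t₀ T) := by
  have h1 := (h.comp_sub_left T).symm
  simp only [sub_zero, sub_sub_cancel] at h1
  exact (intervalIntegrable_iff_integrableOn_Ioo_of_le ht).1 h1

lemma int_abs_log_le {x : ℝ} (hx : 0 < x) :
    ∫ y in 0..x, (1 + |Real.log y|) ≤ 2 * x * (1 + |Real.log x|) := by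
  have hl : IntervalIntegrable Real.log volume 0 x := intervalIntegral.intervalIntegrable_log'
  have h1 : ∫ y in 0..x, (1 + |Real.log y|)
      ≤ ∫ y in 0..x, ((1 + |Real.log x| + Real.log x) - Real.log y) := by
    refine intervalIntegral.integral_mono_on_of_le_Ioo hx.le
      (intervalIntegrable_const.add hl.abs) (intervalIntegrable_const.sub hl) fun y hy => ?_
    have h2 : Real.log y ≤ Real.log x := Real.log_le_log hy.1 hy.2.le
    have h3 : |Real.log y| ≤ |Real.log x| + (Real.log x - Real.log y) := by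
      have := abs_sub_abs_le_abs_sub (Real.log y) (Real.log x)
      rw [abs_sub_comm, abs_of_nonneg (sub_nonneg.2 h2)] at this
      linarith
    linarith
  refine h1.trans ?_
  rw [intervalIntegral.integral_sub intervalIntegrable_const hl, integral_log,
    intervalIntegral.integral_const]
  simp only [sub_zero, smul_eq_mul, zero_mul]
  have h4 : 0 ≤ x * |Real.log x| := by positivity
  nlinarith

/-- Type I. -/
theorem type_one (h : IsSol 0 T u p) (ht₀ : t₀ ∈ Ico 0 T) (he : e ⬝ᵥ e = 1) {C : ℝ}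
    (halc : ContinuousOn al (Ico t₀ T))
    (hg : ∀ t ∈ Ico t₀ T, ∀ i j x, |pd j (fun y => u t y i) x| ≤ C / (T - t))
    (halt : ∀ t ∈ Ico t₀ T, ∀ x, Small e (u t) x (al t))
    (hi : IntegrableOn (fun t => al t * (1 + |Real.log (T - t)|)) (Ioo t₀ T)) (r : ℕ) :
    ∃ B : ℝ, ∀ t ∈ Ico 0 T, hn (r + 2) (u t) ≤ B := by
  have hX : 0 < T - t₀ := by linarith [ht₀.2]
  have hC : 0 ≤ C := by
    have h1 := (abs_nonneg _).trans (hg t₀ ⟨le_rfl, ht₀.2⟩ 0 0 0)
    by_contra hcon
    have := div_neg_of_neg_of_pos (not_le.1 hcon) hX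
    linarith
  set K : ℝ := 1 + C + C * |Real.log (T - t₀)| with hK
  have hK0 : 0 ≤ K := by positivity
  have hgc : ContinuousOn (fun t => C / (T - t)) (Ico t₀ T) :=
    continuousOn_const.div (continuousOn_const.sub continuousOn_id) fun t ht => by
      have := ht.2
      have : 0 < T - t := by linarith
      exact this.ne'
  refine criterion_cmp h ht₀ he hgc halc hg halt (w := fun t => K * (1 + |Real.log (T - t)|))
    (R := fun t => K * (2 * (T - t) * (1 + |Real.log (T - t)|))) ?_ ?_ ?_ ?_ ?_ r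
  · intro t ht
    have e1 : ∫ r in t₀..t, C / (T - r) = C * (Real.log (T - t₀) - Real.log (T - t)) := by
      have hd : ∀ r ∈ uIcc t₀ t, HasDerivAt (fun r => -(C * Real.log (T - r))) (C / (T - r)) r := by
        intro r hr
        rw [uIcc_of_le ht.1] at hr
        have h0 : T - r ≠ 0 := by
          have : 0 < T - r := by linarith [hr.2, ht.2]
          exact this.ne'
        have h1 := ((((hasDerivAt_id r).const_sub T).log h0).const_mul C).neg
        refine h1.congr_deriv ?_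
        simp only [id]
        ring
      rw [intervalIntegral.integral_eq_sub_of_hasDerivAt hd (ii_of_cont hgc ht)]
      ring
    rw [e1]
    have h1 := le_abs_self (Real.log (T - t₀))
    have h2 := neg_le_abs (Real.log (T - t))
    have h3 : 0 ≤ |Real.log (T - t)| := abs_nonneg _
    have h4 : 0 ≤ |Real.log (T - t₀)| := abs_nonneg _
    have h5 : C * (Real.log (T - t₀) - Real.log (T - t))
        ≤ C * (|Real.log (T - t₀)| + |Real.log (T - t)|) := by
      refine mul_le_mul_of_nonneg_left ?_ hC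
      linarith
    have h6 : 0 ≤ (1 + C * |Real.log (T - t₀)|) * |Real.log (T - t)| := by positivity
    simp only [hK]
    nlinarith
  · exact (integrableOn_sub_left (φ := fun y => K * (1 + |Real.log y|)) ht₀.2.le
      ((intervalIntegrable_const.add intervalIntegral.intervalIntegrable_log'.abs).const_mul K))
  · intro t ht
    rw [int_sub_left (fun y => K * (1 + |Real.log y|)) ht.2.le,
      intervalIntegral.integral_const_mul]
    exact mul_le_mul_of_nonneg_left (int_abs_log_le (by linarith [ht.2])) hK0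
  · have hi1 : IntegrableOn (fun t => K * (al t * (1 + |Real.log (T - t)|))) (Ioo t₀ T) :=
      hi.const_mul K
    refine hi1.congr_fun (fun t _ => ?_) measurableSet_Ioo
    simp only
    ring
  · have hi1 : IntegrableOn (fun t => 2 * C * K * (al t * (1 + |Real.log (T - t)|)))
        (Ioo t₀ T) := hi.const_mul _
    refine hi1.congr_fun (fun t ht => ?_) measurableSet_Ioo
    have h0 : T - t ≠ 0 := by
      have := ht.2
      have : 0 < T - t := by linarith
      exact this.ne'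
    simp only
    field_simp

lemma int_rpow_le {q x : ℝ} (hq : -1 < q) :
    ∫ y in 0..x, y ^ q = x ^ (q + 1) / (q + 1) := by
  rw [integral_rpow (Or.inl hq), Real.zero_rpow (by linarith), sub_zero]

/-- Power rates. -/
theorem power_rates (h : IsSol 0 T u p) (ht₀ : t₀ ∈ Ico 0 T) (he : e ⬝ᵥ e = 1) {C β γ : ℝ}
    (hβ : β < 3 / 2) (hγ1 : γ < 1) (hγ : γ < 3 - 2 * β)
    (hg : ∀ t ∈ Ico t₀ T, ∀ i j x, |pd j (fun y => u t y i) x| ≤ C * (T - t) ^ (-β))
    (halt : ∀ t ∈ Ico t₀ T, ∀ x, Small e (u t) x (C * (T - t) ^ (-γ))) (r : ℕ) :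
    ∃ B : ℝ, ∀ t ∈ Ico 0 T, hn (r + 2) (u t) ≤ B := by
  have hX : 0 < T - t₀ := by linarith [ht₀.2]
  have hpos : ∀ t ∈ Ico t₀ T, 0 < T - t := fun t ht => by linarith [ht.2]
  have hC : 0 ≤ C := by
    have h1 := (abs_nonneg _).trans (hg t₀ ⟨le_rfl, ht₀.2⟩ 0 0 0)
    have h2 : 0 < (T - t₀) ^ (-β) := Real.rpow_pos_of_pos hX _
    by_contra hcon
    have := mul_neg_of_neg_of_pos (not_le.1 hcon) h2
    linarith
  -- the larger exponent
  obtain ⟨b, hb1, hbβ, hb2, hbγ⟩ : ∃ b : ℝ, 1 < b ∧ β ≤ b ∧ b < 3 / 2 ∧ γ < 3 - 2 * b := by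
    refine ⟨max β (1 + min (1 / 4) ((1 - γ) / 4)), ?_, le_max_left _ _, ?_, ?_⟩
    · refine lt_of_lt_of_le ?_ (le_max_right _ _)
      have : 0 < min (1 / 4) ((1 - γ) / 4) := lt_min (by norm_num) (by linarith)
      linarith
    · refine max_lt hβ ?_
      have := min_le_left (1 / 4 : ℝ) ((1 - γ) / 4)
      linarith
    · have h1 : max β (1 + min (1 / 4) ((1 - γ) / 4)) < (3 - γ) / 2 := by
        refine max_lt (by linarith) ?_
        have := min_le_right (1 / 4 : ℝ) ((1 - γ) / 4)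
        linarith
      linarith
  set D : ℝ := C * (T - t₀) ^ (b - β) with hD
  have hD0 : 0 ≤ D := by positivity
  have hle : ∀ t ∈ Ico t₀ T, C * (T - t) ^ (-β) ≤ D * (T - t) ^ (-b) := by
    intro t ht
    have h1 : (T - t) ^ (-β) = (T - t) ^ (b - β) * (T - t) ^ (-b) := by
      rw [← Real.rpow_add (hpos t ht)]
      congr 1
      ring
    have h2 : (T - t) ^ (b - β) ≤ (T - t₀) ^ (b - β) :=
      Real.rpow_le_rpow (hpos t ht).le (by linarith [ht.1]) (by linarith)
    have h3 : 0 ≤ (T - t) ^ (-b) := Real.rpow_nonneg (hpos t ht).le _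
    rw [h1, hD, mul_assoc]
    exact mul_le_mul_of_nonneg_left (mul_le_mul_of_nonneg_right h2 h3) hC
  have hcont : ∀ (c q : ℝ), ContinuousOn (fun t => c * (T - t) ^ q) (Ico t₀ T) := fun c q =>
    continuousOn_const.mul ((continuousOn_const.sub continuousOn_id).rpow_const fun t ht =>
      Or.inl (hpos t ht).ne')
  have hint : ∀ (c q : ℝ), -1 < q → IntegrableOn (fun t => c * (T - t) ^ q) (Ioo t₀ T) :=
    fun c q hq => integrableOn_sub_left (φ := fun y => c * y ^ q) ht₀.2.le
      ((intervalIntegral.intervalIntegrable_rpow' hq).const_mul c)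
  set K : ℝ := (T - t₀) ^ (b - 1) + D / (b - 1) with hK
  have hb0 : 0 < b - 1 := by linarith
  have hK0 : 0 ≤ K := by positivity
  refine criterion_cmp h ht₀ he (hcont D (-b)) (hcont C (-γ))
    (fun t ht i j x => (hg t ht i j x).trans (hle t ht)) halt
    (w := fun t => K * (T - t) ^ (1 - b)) (R := fun t => K / (2 - b) * (T - t) ^ (2 - b))
    ?_ (hint _ _ (by linarith)) ?_ ?_ ?_ r
  · intro t ht
    have e1 : ∫ r in t₀..t, D * (T - r) ^ (-b)
        = D / (b - 1) * ((T - t) ^ (1 - b) - (T - t₀) ^ (1 - b)) := by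
      have hd : ∀ r ∈ uIcc t₀ t, HasDerivAt (fun r => D / (b - 1) * (T - r) ^ (1 - b))
          (D * (T - r) ^ (-b)) r := by
        intro r hr
        rw [uIcc_of_le ht.1] at hr
        have h0 : T - r ≠ 0 := by
          have : 0 < T - r := by linarith [hr.2, ht.2]
          exact this.ne'
        have h1 := ((((hasDerivAt_id r).const_sub T).rpow_const (p := 1 - b)
          (Or.inl h0)).const_mul (D / (b - 1)))
        refine h1.congr_deriv ?_
        have e2 : (1 - b - 1 : ℝ) = -b := by ring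
        simp only [id, e2]
        field_simp
        ring
      rw [intervalIntegral.integral_eq_sub_of_hasDerivAt hd (ii_of_cont (hcont D (-b)) ht)]
      ring
    rw [e1]
    have h1 : 1 ≤ (T - t₀) ^ (b - 1) * (T - t) ^ (1 - b) := by
      have h2 : (T - t) ^ (b - 1) ≤ (T - t₀) ^ (b - 1) :=
        Real.rpow_le_rpow (hpos t ht).le (by linarith [ht.1]) hb0.le
      have h3 : 1 = (T - t) ^ (b - 1) * (T - t) ^ (1 - b) := by
        rw [← Real.rpow_add (hpos t ht)]
        simp
      have h4 : 0 ≤ (T - t) ^ (1 - b) := Real.rpow_nonneg (hpos t ht).le _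
      calc (1 : ℝ) = (T - t) ^ (b - 1) * (T - t) ^ (1 - b) := h3
        _ ≤ _ := mul_le_mul_of_nonneg_right h2 h4
    have h5 : 0 ≤ D / (b - 1) * (T - t₀) ^ (1 - b) := by positivity
    simp only [hK]
    nlinarith
  · intro t ht
    have ht' := hpos t (Ioo_subset_Ico_self ht)
    rw [int_sub_left (fun y => K * y ^ (1 - b)) ht.2.le, intervalIntegral.integral_const_mul,
      int_rpow_le (by linarith)]
    have e3 : (1 - b + 1 : ℝ) = 2 - b := by ring
    rw [e3]
    apply le_of_eq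
    ring
  · refine (hint (C * K) (-γ + (1 - b)) (by linarith)).congr_fun (fun t ht => ?_)
      measurableSet_Ioo
    have ht' := hpos t (Ioo_subset_Ico_self ht)
    simp only
    rw [Real.rpow_add ht']
    ring
  · refine (hint (C * D * (K / (2 - b))) (-γ + (-b) + (2 - b)) (by linarith)).congr_fun
      (fun t ht => ?_) measurableSet_Ioo
    have ht' := hpos t (Ioo_subset_Ico_self ht)
    simp only
    rw [Real.rpow_add ht', Real.rpow_add ht']
    ring

end Pool.Agent.Helper29.Dir
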