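import Pool.Agent.Helper29.Dir.Time
import Pool.Graph.R_pool_sql_team_seeded_f72693b1.W734.NS.Cut2

/-!
# Sobolev norms of smooth solutions and the maximum of the gradient
-/

set_option autoImplicit false

open MeasureTheory Set Filter Topology H459R3.NS
open scoped ContDiff

namespace Pool.Agent.Helper29.Dir

open Pool.Agent.W734.NS

variable {T : ℝ} {u : ℝ → H459R3.NS.V → H459R3.NS.V} {p : ℝ → H459R3.NS.V → ℝ}

lemma sol_mono (h : IsSol 0 T u p) {T' : ℝ} (hT : T' ≤ T) : IsSol 0 T' u p where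
  smooth_u := h.smooth_u.mono (prod_mono (Ico_subset_Ico_right hT) subset_rfl)
  smooth_p := h.smooth_p.mono (prod_mono (Ico_subset_Ico_right hT) subset_rfl)
  per_u t ht := h.per_u t (Ico_subset_Ico_right hT ht)
  per_p t ht := h.per_p t (Ico_subset_Ico_right hT ht)
  divfree t ht := h.divfree t (Ico_subset_Ico_right hT ht)
  momentum t ht := h.momentum t (Ioo_subset_Ioo_right hT ht)

lemma energy_le0 (h : IsSol 0 T u p) {t : ℝ} (ht : t ∈ Ico 0 T) :
    energy (u t) ≤ energy (u 0) := by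
  have hE : ContinuousOn (fun s => energy (u s)) (Icc 0 t) :=
    h.energy_continuousOn.mono fun s hs => ⟨hs.1, hs.2.trans_lt ht.2⟩
  have h1 := intervalIntegral.integral_eq_sub_of_hasDerivAt_of_le ht.1 hE
    (fun s hs => h.energy_hasDerivAt ⟨hs.1, hs.2.trans ht.2⟩)
    (by simp)
  simp at h1
  linarith

lemma nrm_eq_n2 {f : H459R3.NS.V → ℝ} (hf : SP f) : nrm f = n2 (fr f) := by
  have h1 : n2 (fr f) ^ 2 = nrm f ^ 2 := by rw [n2_fr hf, nrm_sq]
  exact ((pow_left_inj₀ (n2_nonneg _) (nrm_nonneg _) (by norm_num)).1 h1).symm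

lemma nrm_pd2_le {f : H459R3.NS.V → ℝ} (hf : SP f) (j m : Fin 3) :
    nrm (pd j (pd m f)) ≤ nrm (li 2 f) ∧ nrm (lap (pd j (pd m f))) ≤ nrm (li 2 f)
      ∧ nrm (lap f) ≤ nrm (li 2 f) := by
  have hp := Real.pi_pos
  have s1 := (hf.pd m).pd j
  have rL : Rap (fr (li 2 f)) := rap_fr (sp_li hf 2)
  have key : ∀ k : K3, ‖fr (pd j (pd m f)) k‖ ≤ L2 k * ‖fr f k‖ := by
    intro k
    rw [fr_pd (hf.pd m), norm_D, fr_pd hf, norm_D, ← mul_assoc]
    refine mul_le_mul_of_nonneg_right ?_ (norm_nonneg _)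
    unfold L2
    have h1 : |(k j : ℝ)| * |(k m : ℝ)| ≤ ∑ i, (k i : ℝ) ^ 2 := by
      have a1 : |(k j : ℝ)| * |(k m : ℝ)| ≤ ((k j : ℝ) ^ 2 + (k m : ℝ) ^ 2) / 2 := by
        nlinarith [sq_nonneg (|(k j : ℝ)| - |(k m : ℝ)|), sq_abs (k j : ℝ), sq_abs (k m : ℝ)]
      have a2 := Finset.single_le_sum (f := fun i => (k i : ℝ) ^ 2) (fun _ _ => sq_nonneg _)
        (Finset.mem_univ j)
      have a3 := Finset.single_le_sum (f := fun i => (k i : ℝ) ^ 2) (fun _ _ => sq_nonneg _)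
        (Finset.mem_univ m)
      linarith
    calc 2 * Real.pi * |(k j : ℝ)| * (2 * Real.pi * |(k m : ℝ)|)
        = (2 * Real.pi) ^ 2 * (|(k j : ℝ)| * |(k m : ℝ)|) := by ring
      _ ≤ (2 * Real.pi) ^ 2 * ∑ i, (k i : ℝ) ^ 2 := by gcongr
  have L2one : ∀ k : K3, L2 k ≤ L2 k ^ 2 := by
    intro k
    rcases eq_or_ne k 0 with rfl | hk
    · simp [L2]
    · have h1 := le_L2 k
      have h2 : 1 ≤ N k := by
        by_contra hcon
        have h3 : N k ≤ 0 := by omega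
        apply hk
        funext i
        have := (N_le_iff k 0).1 h3 i
        simpa using this
      have h4 : (1 : ℝ) ≤ (N k : ℝ) ^ 2 := by
        have : (1 : ℝ) ≤ N k := by exact_mod_cast h2
        nlinarith
      nlinarith
  have li2 : ∀ k : K3, ‖fr (li 2 f) k‖ = L2 k ^ 2 * ‖fr f k‖ := by
    intro k
    rw [norm_fr_li hf, norm_Lam]
  refine ⟨?_, ?_, ?_⟩
  · rw [nrm_eq_n2 s1, nrm_eq_n2 (sp_li hf 2)]
    refine (n2_le_of_le rL.summable zero_le_one fun k => ?_).trans (le_of_eq (one_mul _))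
    rw [one_mul, li2]
    exact (key k).trans (mul_le_mul_of_nonneg_right (L2one k) (norm_nonneg _))
  · rw [nrm_eq_n2 s1.lap, nrm_eq_n2 (sp_li hf 2)]
    refine (n2_le_of_le rL.summable zero_le_one fun k => ?_).trans (le_of_eq (one_mul _))
    rw [one_mul, li2, fr_lap s1, norm_mul, norm_neg, Complex.norm_real,
      Real.norm_of_nonneg (L2_nonneg k)]
    calc L2 k * ‖fr (pd j (pd m f)) k‖ ≤ L2 k * (L2 k * ‖fr f k‖) :=
          mul_le_mul_of_nonneg_left (key k) (L2_nonneg k)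
      _ = L2 k ^ 2 * ‖fr f k‖ := by ring
  · rw [nrm_eq_n2 hf.lap, nrm_eq_n2 (sp_li hf 2)]
    refine (n2_le_of_le rL.summable zero_le_one fun k => ?_).trans (le_of_eq (one_mul _))
    rw [one_mul, li2, fr_lap hf, norm_mul, norm_neg, Complex.norm_real,
      Real.norm_of_nonneg (L2_nonneg k)]
    exact mul_le_mul_of_nonneg_right (L2one k) (norm_nonneg _)

lemma nrm_li_le (v : H459R3.NS.V → H459R3.NS.V) (i : Fin 3) :
    nrm (li 2 fun y => v y i) ≤ Real.sqrt (hn 2 v) := by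
  unfold nrm
  refine Real.sqrt_le_sqrt ?_
  exact Finset.single_le_sum (f := fun i => ∫ x in cube, li 2 (fun y => v y i) x ^ 2)
    (fun _ _ => integral_nonneg fun _ => sq_nonneg _) (Finset.mem_univ i)

/-- The maximum of the velocity. -/
lemma sup0 (h : IsSol 0 T u p) {t : ℝ} (ht : t ∈ Ico 0 T) (i : Fin 3) (x : H459R3.NS.V) :
    |u t x i| ≤ Real.sqrt (energy (u 0)) + Real.sqrt C4 * Real.sqrt (hn 2 (u t)) := by
  have h1 := sup_le (h.sp ht i) x
  refine h1.trans ?_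
  have h2 : nrm (fun y => u t y i) ≤ Real.sqrt (energy (u 0)) := by
    unfold nrm
    refine Real.sqrt_le_sqrt (le_trans ?_ (energy_le0 h ht))
    exact Finset.single_le_sum (f := fun i => ∫ x in cube, u t x i ^ 2)
      (fun _ _ => integral_nonneg fun _ => sq_nonneg _) (Finset.mem_univ i)
  have h3 := ((nrm_pd2_le (h.sp ht i) 0 0).2.2).trans (nrm_li_le (u t) i)
  exact add_le_add h2 (mul_le_mul_of_nonneg_left h3 (Real.sqrt_nonneg _))

/-- The maximum of the second derivatives. -/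
lemma sup2 (h : IsSol 0 T u p) {t : ℝ} (ht : t ∈ Ico 0 T) (i j m : Fin 3) (x : H459R3.NS.V) :
    |pd j (pd m fun y => u t y i) x| ≤ (1 + Real.sqrt C4) * Real.sqrt (hn 2 (u t)) := by
  have h1 := sup_le (((h.sp ht i).pd m).pd j) x
  refine h1.trans ?_
  have h2 := ((nrm_pd2_le (h.sp ht i) j m).1).trans (nrm_li_le (u t) i)
  have h3 := ((nrm_pd2_le (h.sp ht i) j m).2.1).trans (nrm_li_le (u t) i)
  rw [add_mul, one_mul]
  exact add_le_add h2 (mul_le_mul_of_nonneg_left h3 (Real.sqrt_nonneg _))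

/-- The criterion of Kato: the Sobolev norms are bounded by the exponential of the integral of the
maximum of the gradient. -/
lemma kato (r : ℕ) : ∃ C : ℝ, 0 < C ∧ ∀ (T : ℝ) (u : ℝ → H459R3.NS.V → H459R3.NS.V)
    (p : ℝ → H459R3.NS.V → ℝ) (g : ℝ → ℝ) (A : ℝ), 0 < T → IsSol 0 T u p →
    (∀ t ∈ Ico 0 T, ∀ i m x, |pd m (fun y => u t y i) x| ≤ g t) →
    IntegrableOn g (Ioo 0 T) → ∫ t in Ioo 0 T, g t ≤ A →
    ∀ t ∈ Ico 0 T, T ^ 2 * hn (r + 2) (u t)
      ≤ Real.exp (1 + C * (1 + Real.log (1 + T ^ 2 * hn (r + 2) (u 0)) + A)) := by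
  obtain ⟨C, hC, hmain⟩ := cut_log r
  refine ⟨3 * C, by positivity, ?_⟩
  intro T u p g A hT h hg hgi hA t ht
  set B : ℝ := 1 + Real.log (1 + T ^ 2 * hn (r + 2) (u 0)) with hB
  have hB0 : 0 ≤ B := by
    have h0 : 0 ≤ hn (r + 2) (u 0) := hn_nonneg _ _
    have : 0 ≤ Real.log (1 + T ^ 2 * hn (r + 2) (u 0)) := Real.log_nonneg (by
      have : 0 ≤ T ^ 2 * hn (r + 2) (u 0) := by positivity
      linarith)
    positivity
  have hg0 : ∀ t ∈ Ico 0 T, 0 ≤ g t := fun t ht => (abs_nonneg _).trans (hg t ht 0 0 0)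
  have hA0 : 0 ≤ A := (setIntegral_nonneg measurableSet_Ioo fun t ht =>
    hg0 t (Ioo_subset_Ico_self ht)).trans hA
  set J : ℕ := ⌈C * (B + 3 * A)⌉₊ with hJ
  have key := hmain 0 T J u p (fun _ => 0) (fun t => 3 * g t) le_rfl hT h (fun _ _ => le_rfl)
    (fun t ht => mul_nonneg (by norm_num) (hg0 t (Ioo_subset_Ico_self ht)))
    (integrableOn_const (by simp)) (hgi.const_mul 3) ?_ ?_ t ht
  · refine key.le.trans (Real.exp_le_exp.2 ?_)
    have h1 : (J : ℝ) ≤ C * (B + 3 * A) + 1 := (Nat.ceil_lt_add_one (by positivity)).le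
    have h2 : C * (B + 3 * A) ≤ 3 * C * (B + A) := by nlinarith [mul_nonneg hC.le hB0]
    linarith
  · simp only [integral_zero, mul_zero, Real.exp_zero, mul_one]
    rw [integral_const_mul]
    refine le_trans ?_ (Nat.le_ceil _)
    gcongr
  · intro t ht n hn i m x
    have hI := Ioo_subset_Ico_self ht
    have hs := h.sp hI i
    simp only [mul_zero, add_zero]
    have e : ch (2 ^ n) (D m (fr fun y => u t y i))
        = fun k => chi (2 ^ n) k * fr (pd m fun y => u t y i) k := by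
      rw [← fr_pd hs m]
      rfl
    rw [e]
    refine norm_S_chi_le (rap_fr (hs.pd m)).summable (fun x => ?_) _ x
    rw [S_fr (hs.pd m), Complex.norm_real, Real.norm_eq_abs]
    exact hg t hI i m x

end Pool.Agent.Helper29.Dir
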