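import Pool.Agent.Helper29.Dir.Frame

/-!
# The planar block of the gradient of a divergence-free field

If `(a, b, c)` is a frame, the block `p · (∇v) q`, `p, q ∈ {a, b}`, is estimated by `c · (∇v) c` and
`c · curl v`, with a logarithm.
-/

set_option autoImplicit false

open MeasureTheory Set Filter Topology

namespace Pool.Agent.Helper29.Dir

open Pool.Agent.H708R2.EulerSign Pool.Agent.H708R2.EulerTypeI

/-- The linear map `(s, t) ↦ s a + t b`. -/
noncomputable def ell (a b : V) : ℝ × ℝ →L[ℝ] V :=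
  (ContinuousLinearMap.fst ℝ ℝ ℝ).smulRight a + (ContinuousLinearMap.snd ℝ ℝ ℝ).smulRight b

/-- The linear form `y ↦ p · y`. -/
noncomputable def pdot (p : V) : V →L[ℝ] ℝ := ∑ i, p i • ContinuousLinearMap.proj (R := ℝ) i

lemma ell_apply (a b : V) (z : ℝ × ℝ) : ell a b z = z.1 • a + z.2 • b := by
  simp [ell]

lemma pdot_apply (p y : V) : pdot p y = p ⬝ᵥ y := by
  simp [pdot, dotProduct]

lemma norm_vec_le {a : V} (h : ∀ i, |a i| ≤ 1) : ‖a‖ ≤ 1 :=
  (pi_norm_le_iff_of_nonneg zero_le_one).2 h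

lemma ell_norm {a b : V} (ha : ∀ i, |a i| ≤ 1) (hb : ∀ i, |b i| ≤ 1) : ‖ell a b‖ ≤ 2 := by
  refine ContinuousLinearMap.opNorm_le_bound _ (by norm_num) fun z => ?_
  rw [ell_apply]
  refine (norm_add_le _ _).trans ?_
  rw [norm_smul, norm_smul]
  have h1 : ‖z.1‖ ≤ ‖z‖ := norm_fst_le z
  have h2 : ‖z.2‖ ≤ ‖z‖ := norm_snd_le z
  have h3 := norm_vec_le ha
  have h4 := norm_vec_le hb
  calc ‖z.1‖ * ‖a‖ + ‖z.2‖ * ‖b‖ ≤ ‖z‖ * 1 + ‖z‖ * 1 :=
        add_le_add (mul_le_mul h1 h3 (norm_nonneg _) (norm_nonneg _))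
          (mul_le_mul h2 h4 (norm_nonneg _) (norm_nonneg _))
    _ = 2 * ‖z‖ := by ring

lemma pdot_norm {p : V} (hp : ∀ i, |p i| ≤ 1) : ‖pdot p‖ ≤ 3 := by
  refine ContinuousLinearMap.opNorm_le_bound _ (by norm_num) fun y => ?_
  rw [pdot_apply, Real.norm_eq_abs]
  exact abs_dot_le (fun i => norm_le_pi_norm y i) hp

/-- The component `p · v` in the plane through `x` spanned by `a`, `b`. -/
noncomputable def Uf (v : V → V) (x a b p : V) (z : ℝ × ℝ) : ℝ := pdot p (v (x + ell a b z))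

section

variable {v : V → V} {N0 N1 N2 : ℝ}

lemma Uf_fderiv (hv : ContDiff ℝ 2 v) (x a b p : V) (z : ℝ × ℝ) :
    fderiv ℝ (Uf v x a b p) z = ((pdot p).comp (fderiv ℝ v (x + ell a b z))).comp (ell a b) := by
  have h1 : HasFDerivAt (fun z => x + ell a b z) (ell a b) z :=
    (ell a b).hasFDerivAt.const_add x
  have h2 : HasFDerivAt v (fderiv ℝ v (x + ell a b z)) (x + ell a b z) :=
    (hv.differentiable (by norm_num) _).hasFDerivAt
  exact ((pdot p).hasFDerivAt.comp z (h2.comp z h1)).fderiv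

lemma Uf_dir (hv : ContDiff ℝ 2 v) (x a b p : V) (z w : ℝ × ℝ) :
    fderiv ℝ (Uf v x a b p) z w
      = bil (grad v (x + ell a b z)) p (ell a b w) := by
  rw [Uf_fderiv hv]
  simp only [ContinuousLinearMap.comp_apply, pdot_apply]
  unfold bil
  congr 1
  funext i
  set y := x + ell a b z
  set q := ell a b w
  simp only [grad, Matrix.mulVec, dotProduct, Matrix.of_apply]
  have e : q = ∑ j, q j • (Pi.single j 1 : V) := by
    funext k
    simp [Finset.sum_apply, Pi.single_apply]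
  conv_lhs => rw [e]
  rw [map_sum, Finset.sum_apply]
  refine Finset.sum_congr rfl fun j _ => ?_
  rw [map_smul, Pi.smul_apply, smul_eq_mul, mul_comm]

lemma Uf_B2 (hv : ContDiff ℝ 2 v) (h0 : ∀ x, ‖v x‖ ≤ N0) (h1 : ∀ x, ‖fderiv ℝ v x‖ ≤ N1)
    (h2 : ∀ x, ‖fderiv ℝ (fderiv ℝ v) x‖ ≤ N2) {a b p : V} (ha : ∀ i, |a i| ≤ 1)
    (hb : ∀ i, |b i| ≤ 1) (hp : ∀ i, |p i| ≤ 1) (x : V) :
    B2 (Uf v x a b p) (3 * N0) (6 * N1) (12 * N2) := by
  have nl := ell_norm ha hb
  have np := pdot_norm hp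
  have hN0 : 0 ≤ N0 := (norm_nonneg _).trans (h0 0)
  have hN1 : 0 ≤ N1 := (norm_nonneg _).trans (h1 0)
  have hN2 : 0 ≤ N2 := (norm_nonneg (fderiv ℝ (fderiv ℝ v) 0)).trans (h2 0)
  refine ⟨?_, fun z => ?_, fun z => ?_, fun z => ?_⟩
  · exact (pdot p).contDiff.comp (hv.comp (contDiff_const.add (ell a b).contDiff))
  · have := (pdot p).le_opNorm (v (x + ell a b z))
    rw [Real.norm_eq_abs] at this
    calc |Uf v x a b p z| ≤ ‖pdot p‖ * ‖v (x + ell a b z)‖ := this
      _ ≤ 3 * N0 := mul_le_mul np (h0 _) (norm_nonneg _) (by norm_num)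
  · rw [Uf_fderiv hv]
    calc ‖((pdot p).comp (fderiv ℝ v (x + ell a b z))).comp (ell a b)‖
        ≤ ‖(pdot p).comp (fderiv ℝ v (x + ell a b z))‖ * ‖ell a b‖ :=
          ContinuousLinearMap.opNorm_comp_le _ _
      _ ≤ (‖pdot p‖ * ‖fderiv ℝ v (x + ell a b z)‖) * ‖ell a b‖ := by
          gcongr
          exact ContinuousLinearMap.opNorm_comp_le _ _
      _ ≤ (3 * N1) * 2 := by
          gcongr
          exact h1 _
      _ = 6 * N1 := by ring
  · set L : (V →L[ℝ] V) →L[ℝ] (ℝ × ℝ →L[ℝ] ℝ) :=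
      ((ContinuousLinearMap.compL ℝ (ℝ × ℝ) V ℝ).flip (ell a b)).comp
        (ContinuousLinearMap.compL ℝ V V ℝ (pdot p)) with hL
    have e : fderiv ℝ (Uf v x a b p) = fun z => L (fderiv ℝ v (x + ell a b z)) := by
      funext z
      rw [Uf_fderiv hv]
      rfl
    have hLn : ∀ A : V →L[ℝ] V, ‖L A‖ ≤ 6 * ‖A‖ := by
      intro A
      show ‖((pdot p).comp A).comp (ell a b)‖ ≤ 6 * ‖A‖
      calc ‖((pdot p).comp A).comp (ell a b)‖
          ≤ ‖(pdot p).comp A‖ * ‖ell a b‖ := ContinuousLinearMap.opNorm_comp_le _ _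
        _ ≤ (‖pdot p‖ * ‖A‖) * ‖ell a b‖ := by
            gcongr
            exact ContinuousLinearMap.opNorm_comp_le _ _
        _ ≤ (3 * ‖A‖) * 2 := by gcongr
        _ = 6 * ‖A‖ := by ring
    have h3 : HasFDerivAt (fun z => x + ell a b z) (ell a b) z :=
      (ell a b).hasFDerivAt.const_add x
    have h4 : HasFDerivAt (fderiv ℝ v) (fderiv ℝ (fderiv ℝ v) (x + ell a b z)) (x + ell a b z) :=
      ((hv.fderiv_right (m := 1) (by norm_num)).differentiable one_ne_zero _).hasFDerivAt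
    have h5 := (L.hasFDerivAt.comp z (h4.comp z h3)).fderiv
    rw [e]
    have e2 : (fun z => L (fderiv ℝ v (x + ell a b z)))
      = (⇑L ∘ fderiv ℝ v ∘ fun z => x + ell a b z) := rfl
    rw [e2, h5]
    refine ContinuousLinearMap.opNorm_le_bound _ (by positivity) fun w => ?_
    simp only [ContinuousLinearMap.comp_apply]
    refine (hLn _).trans ?_
    have h6 := (fderiv ℝ (fderiv ℝ v) (x + ell a b z)).le_opNorm (ell a b w)
    have h7 := (ell a b).le_opNorm w
    calc 6 * ‖fderiv ℝ (fderiv ℝ v) (x + ell a b z) (ell a b w)‖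
        ≤ 6 * (‖fderiv ℝ (fderiv ℝ v) (x + ell a b z)‖ * (‖ell a b‖ * ‖w‖)) := by
          gcongr
          exact h6.trans (by gcongr)
      _ ≤ 6 * (N2 * (2 * ‖w‖)) := by
          gcongr
          exact h2 _
      _ = 12 * N2 * ‖w‖ := by ring

/-- The planar block. -/
theorem block_le (hv : ContDiff ℝ 2 v) (hdiv : ∀ x, divergence v x = 0) (h0 : ∀ x, ‖v x‖ ≤ N0)
    (h1 : ∀ x, ‖fderiv ℝ v x‖ ≤ N1) (h2 : ∀ x, ‖fderiv ℝ (fderiv ℝ v) x‖ ≤ N2) {a b c : V}
    (hf : Frame a b c) {σ L : ℝ} (hc : ∀ x, |bil (grad v x) c c| ≤ σ)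
    (hω : ∀ x, |vort v x ⬝ᵥ c| ≤ σ) (hL : Real.log (1 + N0) + Real.log (1 + N2) ≤ L) (x : V) :
    |bil (grad v x) a a| ≤ 30 + σ * (6 * L + 1) ∧ |bil (grad v x) a b| ≤ 30 + σ * (6 * L + 1) ∧
    |bil (grad v x) b a| ≤ 30 + σ * (6 * L + 1) ∧ |bil (grad v x) b b| ≤ 30 + σ * (6 * L + 1) := by
  have ha := hf.le_one
  have hb := hf.rot.le_one
  have hN0 : 0 ≤ N0 := (norm_nonneg _).trans (h0 0)
  have hN2 : 0 ≤ N2 := (norm_nonneg (fderiv ℝ (fderiv ℝ v) 0)).trans (h2 0)
  have hσ : 0 ≤ σ := (abs_nonneg _).trans (hc 0)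
  have hU := Uf_B2 hv h0 h1 h2 ha hb ha x
  have hV := Uf_B2 hv h0 h1 h2 ha hb hb x
  have e10 : ell a b (1, 0) = a := by simp [ell_apply]
  have e01 : ell a b (0, 1) = b := by simp [ell_apply]
  have d1e : ∀ p z, d1 (Uf v x a b p) z = bil (grad v (x + ell a b z)) p a := by
    intro p z
    unfold d1
    rw [Uf_dir hv, e10]
  have d2e : ∀ p z, d2 (Uf v x a b p) z = bil (grad v (x + ell a b z)) p b := by
    intro p z
    unfold d2
    rw [Uf_dir hv, e01]
  have hD' : ∀ y, bil (grad v y) a a + bil (grad v y) b b = -bil (grad v y) c c := by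
    intro y
    have := hf.trace (grad v y)
    have h3 : (grad v y).trace = 0 := hdiv y
    linarith
  have hΩ' : ∀ y, bil (grad v y) b a - bil (grad v y) a b = vort v y ⬝ᵥ c := by
    intro y
    rw [vort_eq, hf.cv_c]
  have key := plane_grad hU hV (σ := σ) (fun z => ?_) (fun z => ?_) (ε := 1 / (1 + N2))
    (R := 1 + N0) (by positivity) ?_
  · rw [d1e, d1e, map_zero, add_zero] at key
    have k1 : 2 * (12 * N2) * (1 / (1 + N2)) ≤ 24 := by
      rw [mul_one_div, div_le_iff₀ (by positivity)]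
      linarith
    have k2 : 2 * (3 * N0) / (1 + N0) ≤ 6 := by
      rw [div_le_iff₀ (by positivity)]
      linarith
    have k3 : Real.log ((1 + N0) / (1 / (1 + N2))) ≤ L := by
      rw [div_div_eq_mul_div, div_one, Real.log_mul (by positivity) (by positivity)]
      exact hL
    have k4 : 6 * σ * Real.log ((1 + N0) / (1 / (1 + N2))) ≤ 6 * σ * L :=
      mul_le_mul_of_nonneg_left k3 (by positivity)
    obtain ⟨q1, q2⟩ := key
    have q1' : |bil (grad v x) a a| ≤ 30 + σ * (6 * L) := by linarith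
    have q2' : |bil (grad v x) b a| ≤ 30 + σ * (6 * L) := by linarith
    have q3 : |bil (grad v x) a b| ≤ 30 + σ * (6 * L + 1) := by
      have e : bil (grad v x) a b = bil (grad v x) b a - vort v x ⬝ᵥ c := by
        rw [← hΩ']
        ring
      rw [e]
      refine (abs_sub _ _).trans ?_
      have := hω x
      linarith
    have q4 : |bil (grad v x) b b| ≤ 30 + σ * (6 * L + 1) := by
      have e : bil (grad v x) b b = -bil (grad v x) c c - bil (grad v x) a a := by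
        have := hD' x
        linarith
      rw [e]
      refine (abs_sub _ _).trans ?_
      rw [abs_neg]
      have := hc x
      linarith
    exact ⟨by linarith, q3, by linarith, q4⟩
  · rw [d1e, d2e, hD', abs_neg]
    exact hc _
  · rw [d1e, d2e, hΩ']
    exact hω _
  · calc 1 / (1 + N2) ≤ 1 := by
          rw [div_le_one (by positivity)]
          linarith
      _ ≤ 1 + N0 := by linarith

end

end Pool.Agent.Helper29.Dir
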