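import Pool.Agent.Helper29.Dir.Lag2

/-!
# The time integral of the bound of the gradient
-/

set_option autoImplicit false

open MeasureTheory Set Filter Topology

namespace Pool.Agent.Helper29.Dir

open Pool.Agent.H708R2.EulerSign Pool.Agent.H708R2.EulerTypeI

section

variable {s T : ℝ}

lemma ii_sub {φ : ℝ → ℝ} (hφ : ContinuousOn φ (Ico s T)) {t t' : ℝ} (ht : s ≤ t) (htt : t ≤ t')
    (ht' : t' < T) : IntervalIntegrable φ volume t t' :=
  (hφ.mono fun r hr => by
    rw [uIcc_of_le htt] at hr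
    exact ⟨ht.trans hr.1, hr.2.trans_lt ht'⟩).intervalIntegrable

lemma int_mono {φ ψ : ℝ → ℝ} (hφ : ContinuousOn φ (Ico s T)) (hψ : ContinuousOn ψ (Ico s T))
    (h : ∀ t ∈ Ico s T, φ t ≤ ψ t) {t : ℝ} (ht : t ∈ Ico s T) :
    ∫ r in s..t, φ r ≤ ∫ r in s..t, ψ r :=
  intervalIntegral.integral_mono_on ht.1 (ii_of_cont hφ ht) (ii_of_cont hψ ht)
    fun r hr => h r ⟨hr.1, hr.2.trans_lt ht.2⟩

/-- Integration by parts. -/
lemma ibp {φ ψ : ℝ → ℝ} (hφ : ContinuousOn φ (Ico s T)) (hψ : ContinuousOn ψ (Ico s T)) {t : ℝ}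
    (ht : t ∈ Ico s T) :
    ∫ r in s..t, (∫ q in s..r, φ q) * ψ r = ∫ r in s..t, φ r * ∫ q in r..t, ψ q := by
  have hsub : Icc s t ⊆ Ico s T := fun r hr => ⟨hr.1, hr.2.trans_lt ht.2⟩
  set Φ : ℝ → ℝ := fun r => ∫ q in s..r, φ q with hΦ
  set Ψ : ℝ → ℝ := fun r => ∫ q in s..r, ψ q with hΨ
  have cΦ : ContinuousOn Φ (Ico s T) := prim_cont hφ
  have cΨ : ContinuousOn Ψ (Ico s T) := prim_cont hψ
  have e1 : ∀ r ∈ Icc s t, ∫ q in r..t, ψ q = Ψ t - Ψ r := by
    intro r hr
    have h1 := intervalIntegral.integral_add_adjacent_intervals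
      (ii_of_cont hψ (hsub hr)) (ii_sub hψ hr.1 hr.2 ht.2)
    show _ = (∫ q in s..t, ψ q) - ∫ q in s..r, ψ q
    linarith
  have e2 : ∫ r in s..t, φ r * ∫ q in r..t, ψ q = ∫ r in s..t, φ r * (Ψ t - Ψ r) := by
    refine intervalIntegral.integral_congr fun r hr => ?_
    rw [uIcc_of_le ht.1] at hr
    show φ r * ∫ q in r..t, ψ q = φ r * (Ψ t - Ψ r)
    rw [e1 r hr]
  rw [e2]
  have hF : ∫ r in s..t, (φ r * (Ψ t - Ψ r) - Φ r * ψ r) = 0 := by
    have h1 := intervalIntegral.integral_eq_sub_of_hasDerivAt_of_le ht.1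
      (f := fun r => Φ r * (Ψ t - Ψ r)) (f' := fun r => φ r * (Ψ t - Ψ r) - Φ r * ψ r)
      ((cΦ.mono hsub).mul (continuousOn_const.sub (cΨ.mono hsub))) (fun r hr => ?_) ?_
    · rw [h1]
      simp [hΦ]
    · have hr' : r ∈ Ioo s T := ⟨hr.1, hr.2.trans ht.2⟩
      have h2 := (prim_at hφ hr').fun_mul ((prim_at hψ hr').const_sub (Ψ t))
      refine h2.congr_deriv ?_
      show φ r * (Ψ t - Ψ r) + Φ r * -ψ r = φ r * (Ψ t - Ψ r) - Φ r * ψ r
      ring
    · exact ii_of_cont ((hφ.mul (continuousOn_const.sub cΨ)).sub (cΦ.mul hψ)) ht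
  have j1 : IntervalIntegrable (fun r => φ r * (Ψ t - Ψ r)) volume s t :=
    ii_of_cont (hφ.mul (continuousOn_const.sub cΨ)) ht
  have j2 : IntervalIntegrable (fun r => Φ r * ψ r) volume s t := ii_of_cont (cΦ.mul hψ) ht
  rw [intervalIntegral.integral_sub j1 j2] at hF
  show ∫ r in s..t, Φ r * ψ r = _
  linarith

end

variable {T s : ℝ} {u : ℝ → V → V} {p : ℝ → V → ℝ} {a b c : V} {g al L : ℝ → ℝ}

/-- The time integral of the bound of the gradient is finite. -/
theorem time_bound (H : Hyp T u a b c g al L s) {Γ R : ℝ → ℝ} {Λ C1 C2 C3 : ℝ}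
    (hΓ : ContinuousOn Γ (Ico s T)) (hR : ContinuousOn R (Ico s T)) (hΓ1 : ∀ t ∈ Ico s T, 1 ≤ Γ t)
    (hΛ : 0 ≤ Λ) (hL : ∀ t ∈ Ico s T, L t ≤ Λ * Γ t)
    (hRΓ : ∀ t ∈ Ico s T, ∀ t' ∈ Ico t T, ∫ r in t..t', Γ r ≤ R t)
    (h1 : ∀ t ∈ Ico s T, ∫ r in s..t, Γ r ≤ C1)
    (h2 : ∀ t ∈ Ico s T, ∫ r in s..t, al r * Γ r ≤ C2)
    (h3 : ∀ t ∈ Ico s T, ∫ r in s..t, al r * g r * R r ≤ C3) :
    ∃ C : ℝ, ∀ t ∈ Ico s T, ∫ r in s..t, Gf g al L s r ≤ C := by
  have hs := H.mem_s
  have hgs := H.g0 hs
  have hT : 0 ≤ T - s := by linarith [H.hs.2]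
  have C1n : 0 ≤ C1 := by simpa using h1 s hs
  have C2n : 0 ≤ C2 := by simpa using h2 s hs
  have C3n : 0 ≤ C3 := by simpa using h3 s hs
  have cA : ContinuousOn (fun t => ∫ r in s..t, al r * g r) (Ico s T) := prim_cont H.agc
  have A0 : ∀ t ∈ Ico s T, 0 ≤ ∫ r in s..t, al r * g r := fun t ht =>
    prim_nonneg (φ := fun r => al r * g r) (fun r hr => mul_nonneg (H.al0 hr) (H.g0 hr)) ht
  -- S1
  have S1 : ∀ t ∈ Ico s T, ∫ r in s..t, Wf g al s r * Γ r ≤ 18 * g s * C1 + 108 * C3 := by
    intro t ht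
    have e1 : ∫ r in s..t, Wf g al s r * Γ r = 18 * g s * (∫ r in s..t, Γ r)
        + 108 * ∫ r in s..t, (∫ q in s..r, al q * g q) * Γ r := by
      have j1 : IntervalIntegrable (fun r => 18 * g s * Γ r) volume s t :=
        ii_of_cont (continuousOn_const.mul hΓ) ht
      have j2 : IntervalIntegrable (fun r => 108 * ((∫ q in s..r, al q * g q) * Γ r)) volume s t :=
        ii_of_cont (continuousOn_const.mul (cA.mul hΓ)) ht
      rw [← intervalIntegral.integral_const_mul, ← intervalIntegral.integral_const_mul,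
        ← intervalIntegral.integral_add j1 j2]
      congr 1
      funext r
      unfold Wf
      ring
    have e2 : ∫ r in s..t, (∫ q in s..r, al q * g q) * Γ r ≤ C3 := by
      rw [ibp H.agc hΓ ht]
      refine le_trans ?_ (h3 t ht)
      refine intervalIntegral.integral_mono_on ht.1 ?_
        (ii_of_cont (H.agc.mul hR) ht) fun r hr => ?_
      · have cΨ := prim_cont hΓ
        have e3 : EqOn (fun r => al r * g r * ((∫ q in s..t, Γ q) - ∫ q in s..r, Γ q))
            (fun r => al r * g r * ∫ q in r..t, Γ q) (uIoc s t) := by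
          intro r hr
          rw [uIoc_of_le ht.1] at hr
          have h4 := intervalIntegral.integral_add_adjacent_intervals
            (ii_of_cont hΓ (t := r) ⟨hr.1.le, hr.2.trans_lt ht.2⟩) (ii_sub hΓ hr.1.le hr.2 ht.2)
          simp only
          rw [← h4]
          ring
        exact (ii_of_cont (H.agc.mul (continuousOn_const.sub cΨ)) ht).congr e3
      · have hr' : r ∈ Ico s T := ⟨hr.1, hr.2.trans_lt ht.2⟩
        exact mul_le_mul_of_nonneg_left (hRΓ r hr' t ⟨hr.2, ht.2⟩)
          (mul_nonneg (H.al0 hr') (H.g0 hr'))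
    rw [e1]
    have := h1 t ht
    gcongr
  set CW : ℝ := 18 * g s * C1 + 108 * C3 with hCW
  have CWn : 0 ≤ CW := by positivity
  have SW : ∀ t ∈ Ico s T, ∫ r in s..t, Wf g al s r ≤ CW := fun t ht =>
    (int_mono H.Wc (H.Wc.mul hΓ)
      (fun r hr => le_mul_of_one_le_right (H.W0 hr) (hΓ1 r hr)) ht).trans (S1 t ht)
  have Sa : ∀ t ∈ Ico s T, ∫ r in s..t, al r ≤ C2 := fun t ht =>
    (int_mono H.alc (H.alc.mul hΓ)
      (fun r hr => le_mul_of_one_le_right (H.al0 hr) (hΓ1 r hr)) ht).trans (h2 t ht)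
  -- S2
  set Cκ : ℝ := 30 * (T - s) + (6 * Λ + 1) * (CW + 3 * C2) with hCκ
  have Sκ : ∀ t ∈ Ico s T, ∫ r in s..t, kap g al L s r ≤ Cκ := by
    intro t ht
    have c1 : ContinuousOn (fun r => 30 + (6 * Λ + 1) * (Wf g al s r * Γ r + 3 * (al r * Γ r)))
        (Ico s T) := continuousOn_const.add (continuousOn_const.mul ((H.Wc.mul hΓ).add
          (continuousOn_const.mul (H.alc.mul hΓ))))
    refine (int_mono H.kc c1 (fun r hr => ?_) ht).trans ?_
    · have W0 := H.W0 hr
      have a0 := H.al0 hr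
      have hl : 6 * L r + 1 ≤ (6 * Λ + 1) * Γ r := by
        have := hL r hr
        have := hΓ1 r hr
        nlinarith
      unfold kap
      have : (Wf g al s r + 3 * al r) * (6 * L r + 1)
          ≤ (Wf g al s r + 3 * al r) * ((6 * Λ + 1) * Γ r) :=
        mul_le_mul_of_nonneg_left hl (by positivity)
      linarith
    · have e1 : ∫ r in s..t, (30 + (6 * Λ + 1) * (Wf g al s r * Γ r + 3 * (al r * Γ r)))
          = 30 * (t - s) + (6 * Λ + 1) * ((∫ r in s..t, Wf g al s r * Γ r)
            + 3 * ∫ r in s..t, al r * Γ r) := by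
        have i1 : IntervalIntegrable (fun r => Wf g al s r * Γ r) volume s t :=
          ii_of_cont (H.Wc.mul hΓ) ht
        have i2 : IntervalIntegrable (fun r => al r * Γ r) volume s t :=
          ii_of_cont (H.alc.mul hΓ) ht
        have i3 : IntervalIntegrable (fun r => Wf g al s r * Γ r + 3 * (al r * Γ r)) volume s t :=
          i1.add (i2.const_mul 3)
        rw [intervalIntegral.integral_add intervalIntegrable_const (i3.const_mul _),
          intervalIntegral.integral_const_mul, intervalIntegral.integral_add i1 (i2.const_mul 3),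
          intervalIntegral.integral_const_mul]
        simp
        ring
      rw [e1]
      have h4 := S1 t ht
      have h5 := h2 t ht
      have h6 : t - s ≤ T - s := by linarith [ht.2]
      rw [hCκ]
      gcongr
  have Cκn : 0 ≤ Cκ := by simpa using Sκ s hs
  -- S3
  set CK : ℝ := 2 * Cκ + CW + (T - s) with hCK
  have SK : ∀ t ∈ Ico s T, ∫ r in s..t, Kf g al L s r ≤ CK := by
    intro t ht
    have i1 := ii_of_cont H.kc ht
    have i2 := ii_of_cont H.Wc ht
    have e1 : ∫ r in s..t, Kf g al L s r = 2 * (∫ r in s..t, kap g al L s r)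
        + (∫ r in s..t, Wf g al s r) + (t - s) := by
      unfold Kf
      have i3 : IntervalIntegrable (fun r => 2 * kap g al L s r + Wf g al s r) volume s t :=
        (i1.const_mul 2).add i2
      rw [intervalIntegral.integral_add i3 intervalIntegrable_const,
        intervalIntegral.integral_add (i1.const_mul 2) i2, intervalIntegral.integral_const_mul]
      simp
    rw [e1]
    have h4 := Sκ t ht
    have h5 := SW t ht
    have h6 : t - s ≤ T - s := by linarith [ht.2]
    rw [hCK]
    gcongr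
  -- S4
  have SY : ∀ t ∈ Ico s T, ∫ r in s..t, Yf g al s r ≤ 6 * (CW * C2) := by
    intro t ht
    have e1 : ∫ r in s..t, Yf g al s r
        = ∫ r in s..t, (6 * (al r * Wf g al s r)) * ∫ q in r..t, (1 : ℝ) := by
      rw [← ibp H.yc continuousOn_const ht]
      congr 1
      funext r
      rw [mul_one]
      rfl
    rw [e1]
    have c1 : ContinuousOn (fun r => (6 * (al r * Wf g al s r)) * ∫ q in r..t, (1 : ℝ))
        (Ico s T) := by
      simp only [intervalIntegral.integral_const, smul_eq_mul, mul_one]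
      exact H.yc.mul (continuousOn_const.sub continuousOn_id)
    have c2 : ContinuousOn (fun r => 6 * CW * al r) (Ico s T) := continuousOn_const.mul H.alc
    calc ∫ r in s..t, (6 * (al r * Wf g al s r)) * ∫ q in r..t, (1 : ℝ)
        ≤ ∫ r in s..t, 6 * CW * al r := by
          refine intervalIntegral.integral_mono_on ht.1 (ii_of_cont c1 ht) (ii_of_cont c2 ht)
            fun r hr => ?_
          have hr' : r ∈ Ico s T := ⟨hr.1, hr.2.trans_lt ht.2⟩
          have h4 : Wf g al s r * ∫ q in r..t, (1 : ℝ) ≤ CW := by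
            calc Wf g al s r * ∫ q in r..t, (1 : ℝ) = ∫ q in r..t, Wf g al s r := by simp; ring
              _ ≤ ∫ q in r..t, Wf g al s q := by
                  refine intervalIntegral.integral_mono_on hr.2 intervalIntegrable_const
                    (ii_sub H.Wc hr.1 hr.2 ht.2) fun q hq => ?_
                  unfold Wf
                  have hq' : q ∈ Ico s T := ⟨hr.1.trans hq.1, hq.2.trans_lt ht.2⟩
                  have h5 := intervalIntegral.integral_add_adjacent_intervals
                    (ii_of_cont H.agc hr') (ii_sub H.agc hr.1 hq.1 hq'.2)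
                  have h6 : 0 ≤ ∫ y in r..q, al y * g y :=
                    intervalIntegral.integral_nonneg hq.1 fun y hy => by
                      have hy' : y ∈ Ico s T := ⟨hr.1.trans hy.1, hy.2.trans_lt hq'.2⟩
                      exact mul_nonneg (H.al0 hy') (H.g0 hy')
                  linarith
              _ ≤ ∫ q in s..t, Wf g al s q := by
                  have h5 := intervalIntegral.integral_add_adjacent_intervals
                    (ii_of_cont H.Wc hr') (ii_sub H.Wc hr.1 hr.2 ht.2)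
                  have h6 : 0 ≤ ∫ y in s..r, Wf g al s y := prim_nonneg (fun y hy => H.W0 hy) hr'
                  linarith
              _ ≤ CW := SW t ht
          have h7 := mul_le_mul_of_nonneg_left h4 (mul_nonneg (by norm_num : (0 : ℝ) ≤ 6) (H.al0 hr'))
          calc (6 * (al r * Wf g al s r)) * ∫ q in r..t, (1 : ℝ)
              = 6 * al r * (Wf g al s r * ∫ q in r..t, (1 : ℝ)) := by ring
            _ ≤ 6 * al r * CW := h7
            _ = 6 * CW * al r := by ring
      _ = 6 * CW * ∫ r in s..t, al r := intervalIntegral.integral_const_mul _ _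
      _ ≤ 6 * CW * C2 := by
          have := Sa t ht
          gcongr
      _ = 6 * (CW * C2) := by ring
  -- S5
  set CH : ℝ := Real.exp CK * ((36 * g s + 1) * (T - s) + 6 * (CW * C2)) with hCH
  have SH : ∀ t ∈ Ico s T, ∫ r in s..t, Hf g al L s r ≤ CH := by
    intro t ht
    have cY : ContinuousOn (Yf g al s) (Ico s T) := prim_cont H.yc
    have c1 : ContinuousOn (fun r => Real.exp CK * (36 * g s + 1 + Yf g al s r)) (Ico s T) :=
      continuousOn_const.mul (continuousOn_const.add cY)
    refine (int_mono H.Hc c1 (fun r hr => ?_) ht).trans ?_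
    · have h4 := H.Y0 hr
      unfold Hf
      exact mul_le_mul_of_nonneg_right (Real.exp_le_exp.2 (SK r hr)) (by positivity)
    · rw [intervalIntegral.integral_const_mul,
        intervalIntegral.integral_add intervalIntegrable_const (ii_of_cont cY ht)]
      have h4 := SY t ht
      have h6 : t - s ≤ T - s := by linarith [ht.2]
      rw [hCH]
      simp only [intervalIntegral.integral_const, smul_eq_mul]
      rw [mul_comm (t - s)]
      gcongr
  -- S6
  refine ⟨4 * Cκ + 15 * C2 + 4 * CH, fun t ht => ?_⟩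
  have i1 := ii_of_cont H.kc ht
  have i2 := ii_of_cont H.alc ht
  have i3 := ii_of_cont H.Hc ht
  have e1 : ∫ r in s..t, Gf g al L s r = 4 * (∫ r in s..t, kap g al L s r)
      + 15 * (∫ r in s..t, al r) + 4 * ∫ r in s..t, Hf g al L s r := by
    unfold Gf
    have i4 : IntervalIntegrable (fun r => 4 * kap g al L s r + 15 * al r) volume s t :=
      (i1.const_mul 4).add (i2.const_mul 15)
    rw [intervalIntegral.integral_add i4 (i3.const_mul 4),
      intervalIntegral.integral_add (i1.const_mul 4) (i2.const_mul 15),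
      intervalIntegral.integral_const_mul, intervalIntegral.integral_const_mul,
      intervalIntegral.integral_const_mul]
  rw [e1]
  have h4 := Sκ t ht
  have h5 := Sa t ht
  have h6 := SH t ht
  gcongr

end Pool.Agent.Helper29.Dir
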